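import Pool.Agent.H98.MF.L.ChiB

/-! Project MK4, block L, file Real: complex conjugations -/

set_option autoImplicit false

open scoped BigOperators Pointwise
open NumberField IsDedekindDomain

namespace Pool.Agent.H98.MF

section

variable {k : Type} [Field k] [NumberField k]

theorem rl_exists (φ : k →+* ℝ) : ∃ c : Gm k, c * c = 1 ∧
    ∀ a : k, a ≠ 0 → chi a c = if φ a < 0 then 1 else 0 := by
  letI : Algebra k ℂ := ((algebraMap ℝ ℂ).comp φ).toAlgebra
  have hφ : ∀ a : k, algebraMap k ℂ a = ((φ a : ℝ) : ℂ) := fun a => rfl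
  let j : Om k →ₐ[k] ℂ := IsAlgClosed.lift
  letI : Algebra (Om k) ℂ := j.toRingHom.toAlgebra
  have hj : ∀ x : Om k, algebraMap (Om k) ℂ x = j x := fun x => rfl
  haveI : IsScalarTower k (Om k) ℂ := IsScalarTower.of_algebraMap_eq fun a => (j.commutes a).symm
  let cc : ℂ ≃ₐ[k] ℂ := AlgEquiv.ofRingEquiv (f := Complex.conjAe.toRingEquiv) (fun a => by
    rw [hφ]
    exact Complex.conj_ofReal _)
  have hcc : ∀ z : ℂ, cc z = (starRingEnd ℂ) z := fun z => rfl
  have hn : Normal k (Om k) := inferInstance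
  let c : Gm k := AlgEquiv.restrictNormal cc (Om k)
  have hc : ∀ x : Om k, j (c x) = (starRingEnd ℂ) (j x) := fun x => by
    have h := AlgEquiv.restrictNormal_commutes cc (Om k) x
    rw [hj, hj, hcc] at h
    exact h
  have hinj : Function.Injective j := j.toRingHom.injective
  refine ⟨c, ?_, fun a ha => ?_⟩
  · apply AlgEquiv.ext
    intro x
    apply hinj
    show j (c (c x)) = j x
    rw [hc, hc, Complex.conj_conj]
  · have hy : j (sq a) ^ 2 = ((φ a : ℝ) : ℂ) := by
      rw [← map_pow, sq_sq, ← hφ]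
      exact j.commutes a
    have hiff : chi a c = 0 ↔ ¬ φ a < 0 := by
      rw [chi_eq_zero_iff (sq_sq a) c, ← hinj.eq_iff, hc, Complex.conj_eq_iff_real]
      constructor
      · rintro ⟨r, hr⟩ hneg
        rw [hr] at hy
        have h1 : r ^ 2 = φ a := by exact_mod_cast hy
        have h2 := sq_nonneg r
        linarith
      · intro h
        push Not at h
        have h1 : j (sq a) ^ 2 = ((Real.sqrt (φ a) : ℝ) : ℂ) ^ 2 := by
          rw [hy, ← Complex.ofReal_pow, Real.sq_sqrt h]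
        rcases sq_eq_sq_iff_eq_or_eq_neg.mp h1 with h2 | h2
        · exact ⟨_, h2⟩
        · exact ⟨-Real.sqrt (φ a), by rw [h2, Complex.ofReal_neg]⟩
    have key : ∀ x : ZMod 2, x ≠ 0 → x = 1 := by decide
    split_ifs with h
    · exact key _ fun h0 => (hiff.1 h0) h
    · exact hiff.2 h

theorem rl_spec (φ : k →+* ℝ) : cconj φ * cconj φ = 1 ∧
    ∀ a : k, a ≠ 0 → chi a (cconj φ) = if φ a < 0 then 1 else 0 := by
  have h := rl_exists φ
  have h2 : cconj φ = h.choose := by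
    unfold cconj
    rw [dif_pos]
  rw [h2]
  exact h.choose_spec

theorem cconj_mul (φ : k →+* ℝ) : cconj φ * cconj φ = 1 := (rl_spec φ).1
theorem chi_cconj (φ : k →+* ℝ) {a : k} (ha : a ≠ 0) :
    chi a (cconj φ) = if φ a < 0 then 1 else 0 := (rl_spec φ).2 a ha
theorem cconj_ne_one (φ : k →+* ℝ) : cconj φ ≠ 1 := by
  intro h
  have h1 := chi_cconj φ (a := -1) (neg_ne_zero.2 one_ne_zero)
  rw [h, chi_one, map_neg, map_one, if_pos (by norm_num)] at h1
  exact zero_ne_one h1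
theorem mem_decR (φ : k →+* ℝ) (σ : Gm k) : σ ∈ DecR φ ↔ σ = 1 ∨ σ = cconj φ := by
  unfold DecR
  rw [Subgroup.mem_zpowers_iff]
  constructor
  · rintro ⟨n, rfl⟩
    rcases Int.even_or_odd' n with ⟨m, h | h⟩
    · left
      rw [h, zpow_mul, zpow_two, cconj_mul, one_zpow]
    · right
      rw [h, zpow_add, zpow_mul, zpow_two, cconj_mul, one_zpow, one_mul, zpow_one]
  · rintro (h | h)
    · exact ⟨0, by rw [h, zpow_zero]⟩
    · exact ⟨1, by rw [h, zpow_one]⟩
theorem trivR_iff (φ : k →+* ℝ) {r : ℕ} (a b : Fin r → k) (ha : ∀ i, a i ≠ 0)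
    (hb : ∀ i, b i ≠ 0) : Triv (DecR φ) a b ↔ ∑ i, hsR φ (a i) (b i) = 0 := by
  have h0 : ∀ i, chi (a i) (cconj φ) * chi (b i) (cconj φ) = hsR φ (a i) (b i) := by
    intro i
    rw [chi_cconj φ (ha i), chi_cconj φ (hb i)]
    unfold hsR
    by_cases h1 : φ (a i) < 0 <;> by_cases h2 : φ (b i) < 0 <;> simp [h1, h2]
  have hsum : ∑ i, chi (a i) (cconj φ) * chi (b i) (cconj φ) = ∑ i, hsR φ (a i) (b i) :=
    Finset.sum_congr rfl fun i _ => h0 i
  have h1L : ∀ τ : Gm k, ∑ i, chi (a i) 1 * chi (b i) τ = 0 := fun τ =>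
    Finset.sum_eq_zero fun i _ => by rw [chi_one, zero_mul]
  have h1R : ∀ τ : Gm k, ∑ i, chi (a i) τ * chi (b i) 1 = 0 := fun τ =>
    Finset.sum_eq_zero fun i _ => by rw [chi_one, mul_zero]
  have key : ∀ x : ZMod 2, x = x + x → x = 0 := by decide
  have key2 : ∀ x y : ZMod 2, 0 = x + x + y → y = 0 := by decide
  constructor
  · rintro ⟨f, -, hf⟩
    have e1 := hf 1 ((mem_decR φ 1).2 (Or.inl rfl)) 1 ((mem_decR φ 1).2 (Or.inl rfl))
    rw [h1L, add_zero, mul_one] at e1
    have e2 := key _ e1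
    have hc : cconj φ ∈ DecR φ := (mem_decR φ _).2 (Or.inr rfl)
    have e3 := hf _ hc _ hc
    rw [cconj_mul, e2, hsum] at e3
    exact key2 _ _ e3
  · intro h
    refine ⟨fun _ => 0, IsLocallyConstant.const 0, ?_⟩
    intro σ hσ τ hτ
    rcases (mem_decR φ σ).1 hσ with rfl | rfl
    · rw [h1L]
      simp
    · rcases (mem_decR φ τ).1 hτ with rfl | rfl
      · rw [h1R]
        simp
      · rw [hsum, h]
        simp

end

end Pool.Agent.H98.MF
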