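import Pool.Agent.H98.MF.L.Kum
import Pool.Agent.H98.MF.L.Real
import Pool.Agent.H98.MF.Frm

/-!
# Project MK4, block L: local Kummer theory, interface (helper33)
-/

set_option autoImplicit false

open scoped BigOperators Pointwise
open NumberField IsDedekindDomain

namespace Pool.Agent.H98.MF

theorem kin (k : Type) [Field k] [NumberField k] : KIn k where
  one := by
    rintro (P | φ) a
    · exact dec_chi P a.ne_zero
    · have ha : φ (a : k) ≠ 0 := (map_ne_zero φ).2 a.ne_zero
      constructor
      · intro h
        have h1 := h (cconj φ) ((mem_decR φ _).2 (Or.inr rfl))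
        rw [chi_cconj φ a.ne_zero] at h1
        show 0 < φ (a : k)
        by_contra h2
        have h3 : φ (a : k) < 0 := lt_of_le_of_ne (not_lt.1 h2) ha
        rw [if_pos h3] at h1
        exact one_ne_zero h1
      · intro h σ hσ
        have h0 : 0 < φ (a : k) := h
        rcases (mem_decR φ σ).1 hσ with rfl | rfl
        · exact chi_one _
        · rw [chi_cconj φ a.ne_zero, if_neg (not_lt.2 h0.le)]
  two := by
    rintro (P | φ) h hc hh
    · obtain ⟨c, hc0, hc1⟩ := dec_hom2 P h hc hh
      exact ⟨Units.mk0 c hc0, hc1⟩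
    · have h1 : h 1 = 0 := by
        have h2 := hh 1 ((mem_decR φ 1).2 (Or.inl rfl)) 1 ((mem_decR φ 1).2 (Or.inl rfl))
        rw [mul_one] at h2
        exact left_eq_add.1 h2
      by_cases h3 : h (cconj φ) = 0
      · refine ⟨1, fun σ hσ => ?_⟩
        have h4 : chi ((1 : kˣ) : k) σ = 0 := by
          have h5 := chi_sq (1 : k) σ
          rwa [one_pow] at h5
        rw [h4]
        rcases (mem_decR φ σ).1 hσ with rfl | rfl
        · exact h1
        · exact h3
      · have h4 : h (cconj φ) = 1 := Fin.eq_one_of_ne_zero _ h3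
        refine ⟨-1, fun σ hσ => ?_⟩
        rcases (mem_decR φ σ).1 hσ with rfl | rfl
        · rw [h1, chi_one]
        · rw [h4, chi_cconj φ (Units.ne_zero _), if_pos]
          simp
end Pool.Agent.H98.MF
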