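import Pool.Agent.H98.MF.L.Defs

/-! Project MK4, block L, file ChiB: quadratic characters over a number field (port of
Pool/Agent/H98/MK/ChiBasic.lean) -/

set_option autoImplicit false

open scoped BigOperators Pointwise
open NumberField IsDedekindDomain Filter Topology

namespace Pool.Agent.H98.MF

section

variable {k : Type} [Field k] [NumberField k]

theorem om_galois : IsGalois k (Om k) := inferInstance
theorem gm_compact : CompactSpace (Gm k) := inferInstance

private lemma cb_root {d : k} {y : Om k} (hy : y ^ 2 = algebraMap k (Om k) d) (σ : Gm k) :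
    σ y = y ∨ σ y = -y := by
  have h : σ y ^ 2 = y ^ 2 := by rw [← map_pow, hy, σ.commutes]
  exact sq_eq_sq_iff_eq_or_eq_neg.mp h

theorem chi_eq_zero_iff {a : k} {y : Om k} (hy : y ^ 2 = algebraMap k (Om k) a) (σ : Gm k) :
    chi a σ = 0 ↔ σ y = y := by
  have h1 : chi a σ = 0 ↔ σ (sq a) = sq a := by
    rw [chi]
    split_ifs with h
    · simp [h]
    · simp [h]
  rw [h1]
  have h2 : y ^ 2 = sq a ^ 2 := by rw [hy, sq_sq]
  rcases sq_eq_sq_iff_eq_or_eq_neg.mp h2 with h | h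
  · rw [h]
  · rw [h, map_neg, neg_inj]

private lemma cb_ne (x : ZMod 2) (h : x ≠ 0) : x = 1 := by
  revert x
  decide

theorem chi_eq_one_iff {a : k} (ha : a ≠ 0) {y : Om k} (hy : y ^ 2 = algebraMap k (Om k) a)
    (σ : Gm k) : chi a σ = 1 ↔ σ y = -y := by
  have hy0 : y ≠ 0 := by
    rintro rfl
    rw [zero_pow two_ne_zero] at hy
    exact (map_ne_zero (algebraMap k (Om k))).2 ha hy.symm
  have hyn : y ≠ -y := by
    intro h
    have h2 : (2 : Om k) * y = 0 := by linear_combination h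
    rcases mul_eq_zero.mp h2 with h3 | h3
    · exact two_ne_zero h3
    · exact hy0 h3
  constructor
  · intro h
    rcases cb_root hy σ with h1 | h1
    · rw [(chi_eq_zero_iff hy σ).mpr h1] at h
      exact absurd h zero_ne_one
    · exact h1
  · intro h
    apply cb_ne
    intro h1
    rw [(chi_eq_zero_iff hy σ).mp h1] at h
    exact hyn h

private lemma cb_zero (σ : Gm k) : chi (0 : k) σ = 0 := by
  rw [chi_eq_zero_iff (a := (0 : k)) (y := 0) (by simp) σ, map_zero]

theorem chi_hom (a : k) (σ τ : Gm k) : chi a (σ * τ) = chi a σ + chi a τ := by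
  by_cases hd : a = 0
  · subst hd
    rw [cb_zero, cb_zero, cb_zero, add_zero]
  have hy := sq_sq a
  rcases cb_root hy σ with h1 | h1 <;> rcases cb_root hy τ with h2 | h2
  · rw [(chi_eq_zero_iff hy σ).mpr h1, (chi_eq_zero_iff hy τ).mpr h2, add_zero,
      chi_eq_zero_iff hy, AlgEquiv.mul_apply, h2, h1]
  · rw [(chi_eq_zero_iff hy σ).mpr h1, (chi_eq_one_iff hd hy τ).mpr h2, zero_add,
      chi_eq_one_iff hd hy, AlgEquiv.mul_apply, h2, map_neg, h1]
  · rw [(chi_eq_one_iff hd hy σ).mpr h1, (chi_eq_zero_iff hy τ).mpr h2, add_zero,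
      chi_eq_one_iff hd hy, AlgEquiv.mul_apply, h2, h1]
  · rw [(chi_eq_one_iff hd hy σ).mpr h1, (chi_eq_one_iff hd hy τ).mpr h2]
    have h3 : (1 : ZMod 2) + 1 = 0 := by decide
    rw [h3, chi_eq_zero_iff hy, AlgEquiv.mul_apply, h2, map_neg, h1, neg_neg]

theorem chi_one (a : k) : chi a (1 : Gm k) = 0 :=
  (chi_eq_zero_iff (sq_sq a) 1).2 rfl

theorem chi_inv (a : k) (σ : Gm k) : chi a σ⁻¹ = chi a σ := by
  have h := chi_hom a σ σ⁻¹
  rw [mul_inv_cancel, chi_one] at h
  have key : ∀ x y : ZMod 2, 0 = x + y → y = x := by decide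
  exact key _ _ h

private lemma cb_ev (d : k) (σ : Gm k) : ∀ᶠ τ in 𝓝 σ, chi d τ = chi d σ := by
  have hint : IsIntegral k (sq d) := Algebra.IsIntegral.isIntegral _
  have hfin : FiniteDimensional k (IntermediateField.adjoin k ({sq d} : Set (Om k))) :=
    IntermediateField.adjoin.finiteDimensional hint
  have hopen : IsOpen ((IntermediateField.adjoin k ({sq d} : Set (Om k))).fixingSubgroup :
      Set (Gm k)) := IntermediateField.fixingSubgroup_isOpen _
  have h1 : IsOpen ((fun τ : Gm k => σ⁻¹ * τ) ⁻¹'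
      ((IntermediateField.adjoin k ({sq d} : Set (Om k))).fixingSubgroup : Set (Gm k))) :=
    hopen.preimage (continuous_const.mul continuous_id)
  have h2 : σ ∈ (fun τ : Gm k => σ⁻¹ * τ) ⁻¹'
      ((IntermediateField.adjoin k ({sq d} : Set (Om k))).fixingSubgroup : Set (Gm k)) := by
    rw [Set.mem_preimage, inv_mul_cancel]
    exact one_mem _
  filter_upwards [h1.mem_nhds h2] with τ hτ
  have h3 : (σ⁻¹ * τ) (sq d) = sq d := by
    have h4 : σ⁻¹ * τ ∈ (IntermediateField.adjoin k ({sq d} : Set (Om k))).fixingSubgroup := hτ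
    rw [IntermediateField.mem_fixingSubgroup_iff] at h4
    exact h4 _ (IntermediateField.mem_adjoin_simple_self k (sq d))
  have h5 : chi d (σ⁻¹ * τ) = 0 := (chi_eq_zero_iff (sq_sq d) _).mpr h3
  have h6 : τ = σ * (σ⁻¹ * τ) := by rw [mul_inv_cancel_left]
  rw [h6, chi_hom, h5, add_zero]

theorem chi_lc (a : k) : IsLocallyConstant (chi a) :=
  (IsLocallyConstant.iff_eventually_eq _).mpr (cb_ev a)

theorem chi_mul {a b : k} (ha : a ≠ 0) (hb : b ≠ 0) (σ : Gm k) :
    chi (a * b) σ = chi a σ + chi b σ := by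
  have hxy : (sq a * sq b) ^ 2 = algebraMap k (Om k) (a * b) := by
    rw [mul_pow, sq_sq, sq_sq, map_mul]
  have hd : a * b ≠ 0 := mul_ne_zero ha hb
  rcases cb_root (sq_sq a) σ with h1 | h1 <;> rcases cb_root (sq_sq b) σ with h2 | h2
  · rw [(chi_eq_zero_iff (sq_sq a) σ).mpr h1, (chi_eq_zero_iff (sq_sq b) σ).mpr h2,
      add_zero, chi_eq_zero_iff hxy, map_mul, h1, h2]
  · rw [(chi_eq_zero_iff (sq_sq a) σ).mpr h1, (chi_eq_one_iff hb (sq_sq b) σ).mpr h2,
      zero_add, chi_eq_one_iff hd hxy, map_mul, h1, h2, mul_neg]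
  · rw [(chi_eq_one_iff ha (sq_sq a) σ).mpr h1, (chi_eq_zero_iff (sq_sq b) σ).mpr h2,
      add_zero, chi_eq_one_iff hd hxy, map_mul, h1, h2, neg_mul]
  · rw [(chi_eq_one_iff ha (sq_sq a) σ).mpr h1, (chi_eq_one_iff hb (sq_sq b) σ).mpr h2]
    have h3 : (1 : ZMod 2) + 1 = 0 := by decide
    rw [h3, chi_eq_zero_iff hxy, map_mul, h1, h2, neg_mul_neg]

theorem chi_sq (a : k) (σ : Gm k) : chi (a ^ 2) σ = 0 := by
  rw [chi_eq_zero_iff (a := a ^ 2) (y := algebraMap k (Om k) a) (by rw [map_pow]), σ.commutes]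

theorem chi_isSquare {a : k} (h : ∀ σ : Gm k, chi a σ = 0) : IsSquare a := by
  have h1 : ∀ σ : Gm k, σ (sq a) = sq a := fun σ =>
    (chi_eq_zero_iff (sq_sq a) σ).mp (h σ)
  have hgal := om_galois (k := k)
  have h2 : sq a ∈ Set.range (algebraMap k (Om k)) :=
    (InfiniteGalois.mem_range_algebraMap_iff_fixed (sq a)).mpr h1
  obtain ⟨q, hq⟩ := h2
  refine ⟨q, ?_⟩
  have h3 : (algebraMap k (Om k)) (q * q) = (algebraMap k (Om k)) a := by
    rw [map_mul, hq, ← pow_two, sq_sq]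
  exact ((algebraMap k (Om k)).injective h3).symm

theorem chi_prod {ι : Type} (s : Finset ι) (a : ι → k) (ha : ∀ i ∈ s, a i ≠ 0) (σ : Gm k) :
    chi (∏ i ∈ s, a i) σ = ∑ i ∈ s, chi (a i) σ := by
  classical
  induction s using Finset.induction_on with
  | empty =>
    rw [Finset.prod_empty, Finset.sum_empty]
    have := chi_sq (1 : k) σ
    rwa [one_pow] at this
  | insert i s hi ih =>
    rw [Finset.prod_insert hi, Finset.sum_insert hi,
      chi_mul (ha i (Finset.mem_insert_self i s))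
        (Finset.prod_ne_zero_iff.2 fun j hj => ha j (Finset.mem_insert_of_mem hj)),
      ih fun j hj => ha j (Finset.mem_insert_of_mem hj)]

theorem lc_unif {X : Type} [Finite X] (f : Gm k → X) (hf : IsLocallyConstant f) :
    ∃ U : Subgroup (Gm k), U.Normal ∧ IsOpen (U : Set (Gm k)) ∧
      ∀ σ, ∀ u ∈ U, f (σ * u) = f σ := by
  have hcomp := gm_compact (k := k)
  have h1 : ∀ σ : Gm k, ∃ N : OpenNormalSubgroup (Gm k), ∀ u ∈ N, f (σ * u) = f σ := by
    intro σ
    have h2 : IsOpen ((fun u : Gm k => σ * u) ⁻¹' (f ⁻¹' {f σ})) :=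
      (hf {f σ}).preimage (continuous_const.mul continuous_id)
    have h3 : (1 : Gm k) ∈ (fun u : Gm k => σ * u) ⁻¹' (f ⁻¹' {f σ}) := by
      show f (σ * 1) = f σ
      rw [mul_one]
    obtain ⟨N, hN⟩ := ProfiniteGrp.exist_openNormalSubgroup_sub_open_nhds_of_one h2 h3
    exact ⟨N, fun u hu => hN hu⟩
  choose N hN using h1
  have hcov : (Set.univ : Set (Gm k)) ⊆ ⋃ σ : Gm k, (fun τ : Gm k => σ⁻¹ * τ) ⁻¹' (N σ : Set (Gm k)) := by
    intro τ _
    rw [Set.mem_iUnion]
    refine ⟨τ, ?_⟩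
    show τ⁻¹ * τ ∈ (N τ : Set (Gm k))
    rw [inv_mul_cancel]
    exact one_mem _
  obtain ⟨t, ht⟩ := isCompact_univ.elim_finite_subcover _
    (fun σ => (N σ).isOpen'.preimage (continuous_const.mul continuous_id)) hcov
  refine ⟨⨅ σ ∈ t, (N σ).toSubgroup, ?_, ?_, ?_⟩
  · refine Subgroup.normal_iInf_normal fun σ => Subgroup.normal_iInf_normal fun _ => ?_
    exact (N σ).isNormal'
  · have h4 : ((⨅ σ ∈ t, (N σ).toSubgroup : Subgroup (Gm k)) : Set (Gm k))
        = ⋂ σ ∈ t, ((N σ).toSubgroup : Set (Gm k)) := by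
      ext x
      simp [Subgroup.mem_iInf]
    rw [h4]
    exact isOpen_biInter_finset fun σ _ => (N σ).isOpen'
  · intro σ u hu
    obtain ⟨ρ, hρ⟩ := Set.mem_iUnion.1 (ht (Set.mem_univ σ))
    obtain ⟨hρt, hρσ⟩ := Set.mem_iUnion.1 hρ
    have h5 : ρ⁻¹ * σ ∈ N ρ := hρσ
    have h6 : u ∈ N ρ := by
      have := Subgroup.mem_iInf.1 hu ρ
      exact Subgroup.mem_iInf.1 this hρt
    have h7 := hN ρ _ h5
    have h8 := hN ρ _ (mul_mem h5 h6)
    rw [mul_inv_cancel_left] at h7
    have h9 : ρ * (ρ⁻¹ * σ * u) = σ * u := by group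
    rw [h9] at h8
    rw [h8, h7]

theorem exists_chi {ι : Type} [Fintype ι] (a : ι → k)
    (h : ∀ s : Finset ι, s.Nonempty → ¬ IsSquare (∏ i ∈ s, a i)) (t : ι → ZMod 2) :
    ∃ σ : Gm k, ∀ i, chi (a i) σ = t i := by
  classical
  have ha : ∀ i, a i ≠ 0 := by
    intro i h0
    apply h {i} (Finset.singleton_nonempty i)
    rw [Finset.prod_singleton, h0]
    exact ⟨0, by simp⟩
  -- the range as a subspace
  let R : AddSubgroup (ι → ZMod 2) :=
    { carrier := {v | ∃ σ : Gm k, ∀ i, chi (a i) σ = v i}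
      add_mem' := by
        rintro v w ⟨σ, hσ⟩ ⟨τ, hτ⟩
        exact ⟨σ * τ, fun i => by rw [chi_hom, hσ, hτ, Pi.add_apply]⟩
      zero_mem' := ⟨1, fun i => by rw [chi_one, Pi.zero_apply]⟩
      neg_mem' := by
        rintro v ⟨σ, hσ⟩
        refine ⟨σ, fun i => ?_⟩
        rw [hσ, Pi.neg_apply]
        have key : ∀ x : ZMod 2, x = -x := by decide
        exact key _ }
  let S : Submodule (ZMod 2) (ι → ZMod 2) := AddSubgroup.toZModSubmodule 2 R
  have hS : ∀ v, v ∈ S ↔ ∃ σ : Gm k, ∀ i, chi (a i) σ = v i := fun v => Iff.rfl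
  by_contra hcon
  have hlt : S < ⊤ := by
    rw [lt_top_iff_ne_top]
    intro htop
    apply hcon
    rw [← hS, htop]
    exact Submodule.mem_top
  obtain ⟨f, hf0, hfS⟩ := Submodule.exists_le_ker_of_lt_top S hlt
  set s : Finset ι := Finset.univ.filter fun i => f (Pi.single i 1) ≠ 0 with hs
  have hval : ∀ v : ι → ZMod 2, f v = ∑ i ∈ s, v i := by
    intro v
    have h1 : v = ∑ i, v i • (Pi.single i 1 : ι → ZMod 2) := by
      ext j
      rw [Finset.sum_apply]
      simp [Pi.single_apply]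
    conv_lhs => rw [h1]
    rw [map_sum, hs, Finset.sum_filter]
    refine Finset.sum_congr rfl fun i _ => ?_
    rw [map_smul, smul_eq_mul]
    split_ifs with h2
    · rw [cb_ne _ h2, mul_one]
    · push Not at h2
      rw [h2, mul_zero]
  have hne : s.Nonempty := by
    by_contra hemp
    rw [Finset.not_nonempty_iff_eq_empty] at hemp
    apply hf0
    apply LinearMap.ext
    intro v
    rw [hval, hemp, Finset.sum_empty, LinearMap.zero_apply]
  refine h s hne (chi_isSquare fun σ => ?_)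
  rw [chi_prod s a (fun i _ => ha i)]
  have h3 : (fun i => chi (a i) σ) ∈ S := (hS _).2 ⟨σ, fun i => rfl⟩
  have h4 := hfS h3
  rw [LinearMap.mem_ker, hval] at h4
  exact h4

end

end Pool.Agent.H98.MF
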