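import Pool.Agent.H98.MF.L.Cnt_a
import Pool.Agent.H98.MF.C.Defs

/-!
# Project MK4, block L: the index of the group of local squares (helper95)
-/

set_option autoImplicit false

open scoped BigOperators Pointwise
open NumberField IsDedekindDomain

namespace Pool.Agent.H98.MF

section

variable {k : Type} [Field k] [NumberField k]

/-- the local squares as a subgroup -/
def cntSub (P : HeightOneSpectrum (𝓞 k)) : Subgroup kˣ where
  carrier := {a : kˣ | LocSq P (a : k)}
  one_mem' := by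
    show LocSq P ((1 : kˣ) : k)
    have h := locSq_sq P (c := (1 : k)) one_ne_zero
    rw [one_pow] at h
    rwa [Units.val_one]
  mul_mem' := by
    intro a b ha hb
    show LocSq P ((a * b : kˣ) : k)
    rw [Units.val_mul]
    exact LocSq.mul ha hb
  inv_mem' := by
    intro a ha
    show LocSq P ((a⁻¹ : kˣ) : k)
    rw [Units.val_inv_eq_inv_val]
    exact LocSq.inv ha

theorem LS_eq (P : HeightOneSpectrum (𝓞 k)) : (LS (Sum.inl P) : Subgroup kˣ) = cntSub P := by
  have h : {a : kˣ | LocP (Sum.inl P) (a : k)} = ((cntSub P : Subgroup kˣ) : Set kˣ) := rfl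
  rw [LS, h, Subgroup.closure_eq]

theorem mem_LS (P : HeightOneSpectrum (𝓞 k)) (a : kˣ) :
    a ∈ (LS (Sum.inl P) : Subgroup kˣ) ↔ LocSq P (a : k) := by
  rw [LS_eq]
  exact Iff.rfl

theorem cnt_coe_ne (P : HeightOneSpectrum (𝓞 k)) {r : 𝓞 k} (hr : r ∉ P.asIdeal) : (r : k) ≠ 0 := by
  intro h0
  have : r = 0 := by exact_mod_cast h0
  exact hr (this ▸ P.asIdeal.zero_mem)

/-- the element is close to one -/
theorem cnt_wd (P : HeightOneSpectrum (𝓞 k)) {e : ℕ} (he : ord P (2 : k) = e) {x y : k}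
    (hx : x ≠ 0) (hx0 : ord P x = 0) (h : x - y = 0 ∨ ((2 * e + 1 : ℕ) : ℤ) ≤ ord P (x - y)) :
    LocSq P (x⁻¹ * y) := by
  have h1 : x⁻¹ * y = 1 + -(x - y) * x⁻¹ := by
    field_simp
    ring
  rw [h1]
  refine locSq_one_add P ?_
  have h2 : -(x - y) = 0 ∨ ((2 * e + 1 : ℕ) : ℤ) ≤ ord P (-(x - y)) := by
    rw [ord_neg, neg_eq_zero]
    exact h
  have h3 : x⁻¹ = 0 ∨ (0 : ℤ) ≤ ord P x⁻¹ := by
    right
    rw [ord_inv, hx0, neg_zero]
  have h4 := sqr_prod P h2 h3
  refine sqr_mono P ?_ h4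
  rw [he]
  push_cast
  omega

/-- `2 * e + 1` -/
abbrev CB (P : HeightOneSpectrum (𝓞 k)) (e : ℕ) : Type := (𝓞 k) ⧸ P.asIdeal ^ (2 * e + 1)

/-- a representative of a unit -/
noncomputable def crep (P : HeightOneSpectrum (𝓞 k)) (e : ℕ) (x : (CB P e)ˣ) : 𝓞 k :=
  Classical.choose (Ideal.Quotient.mk_surjective (x : CB P e))

theorem crep_spec (P : HeightOneSpectrum (𝓞 k)) (e : ℕ) (x : (CB P e)ˣ) :
    Ideal.Quotient.mk (P.asIdeal ^ (2 * e + 1)) (crep P e x) = (x : CB P e) :=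
  Classical.choose_spec (Ideal.Quotient.mk_surjective (x : CB P e))

theorem cnt_unit_iff (P : HeightOneSpectrum (𝓞 k)) (e : ℕ) (r : 𝓞 k) :
    IsUnit (Ideal.Quotient.mk (P.asIdeal ^ (2 * e + 1)) r) ↔ r ∉ P.asIdeal := by
  haveI := P.isMaximal
  exact Ideal.Quotient.isUnit_mk_pow_iff_notMem P.asIdeal (by omega)

theorem crep_notMem (P : HeightOneSpectrum (𝓞 k)) (e : ℕ) (x : (CB P e)ˣ) :
    crep P e x ∉ P.asIdeal := by
  rw [← cnt_unit_iff P e, crep_spec]
  exact x.isUnit

/-- the class modulo local squares of an integer prime to `P` -/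
noncomputable def ccl (P : HeightOneSpectrum (𝓞 k)) {r : 𝓞 k} (hr : r ∉ P.asIdeal) :
    kˣ ⧸ (LS (Sum.inl P) : Subgroup kˣ) := QuotientGroup.mk (Units.mk0 (r : k) (cnt_coe_ne P hr))

theorem ccl_eq (P : HeightOneSpectrum (𝓞 k)) {e : ℕ} (he : ord P (2 : k) = e) {r s : 𝓞 k}
    (hr : r ∉ P.asIdeal) (hs : s ∉ P.asIdeal)
    (h : Ideal.Quotient.mk (P.asIdeal ^ (2 * e + 1)) r =
      Ideal.Quotient.mk (P.asIdeal ^ (2 * e + 1)) s) : ccl P hr = ccl P hs := by
  unfold ccl
  rw [QuotientGroup.eq, mem_LS]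
  have h1 : (((Units.mk0 (r : k) (cnt_coe_ne P hr))⁻¹ * Units.mk0 (s : k) (cnt_coe_ne P hs) : kˣ) : k) =
      (r : k)⁻¹ * (s : k) := by
    rw [Units.val_mul, Units.val_inv_eq_inv_val, Units.val_mk0, Units.val_mk0]
  rw [h1]
  refine cnt_wd P he (cnt_coe_ne P hr) (ord_unit P hr) ?_
  have h2 := (le_ord_iff P (r - s) (2 * e + 1)).2 ((Ideal.Quotient.eq).1 h)
  have h3 : ((r - s : 𝓞 k) : k) = (r : k) - (s : k) := map_sub (algebraMap (𝓞 k) k) r s
  rcases h2 with h2 | h2
  · left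
    rw [← h3, h2]
    exact map_zero (algebraMap (𝓞 k) k)
  · right
    rwa [h3] at h2

theorem cnt_sq_one (P : HeightOneSpectrum (𝓞 k)) (g : kˣ ⧸ (LS (Sum.inl P) : Subgroup kˣ)) :
    g ^ 2 = 1 := by
  obtain ⟨a, rfl⟩ := QuotientGroup.mk_surjective g
  rw [← QuotientGroup.mk_pow, QuotientGroup.eq_one_iff, mem_LS, Units.val_pow_eq_pow_val]
  exact locSq_sq P a.ne_zero

/-- the map from the units modulo a power of `P` -/
noncomputable def cpsi (P : HeightOneSpectrum (𝓞 k)) {e : ℕ} (he : ord P (2 : k) = e) :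
    (CB P e)ˣ →* kˣ ⧸ (LS (Sum.inl P) : Subgroup kˣ) where
  toFun x := ccl P (crep_notMem P e x)
  map_one' := by
    have h1 : (1 : 𝓞 k) ∉ P.asIdeal := (Ideal.ne_top_iff_one _).1 P.isPrime.ne_top
    have h2 : ccl P (crep_notMem P e 1) = ccl P h1 := by
      refine ccl_eq P he _ _ ?_
      rw [crep_spec, Units.val_one, map_one]
    rw [h2]
    unfold ccl
    rw [QuotientGroup.eq_one_iff, mem_LS, Units.val_mk0]
    have h3 : ((1 : 𝓞 k) : k) = 1 ^ 2 := by simp
    rw [h3]
    exact locSq_sq P one_ne_zero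
  map_mul' := by
    intro x y
    have h1 : crep P e x * crep P e y ∉ P.asIdeal := by
      intro h
      rcases P.isPrime.mem_or_mem h with h | h
      · exact crep_notMem P e x h
      · exact crep_notMem P e y h
    have h2 : ccl P (crep_notMem P e (x * y)) = ccl P h1 := by
      refine ccl_eq P he _ _ ?_
      rw [crep_spec, Units.val_mul, map_mul, crep_spec, crep_spec]
    rw [h2]
    unfold ccl
    rw [← QuotientGroup.mk_mul]
    congr 1
    apply Units.ext
    rw [Units.val_mul, Units.val_mk0, Units.val_mk0, Units.val_mk0]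
    exact map_mul (algebraMap (𝓞 k) k) _ _

theorem cpsi_apply (P : HeightOneSpectrum (𝓞 k)) {e : ℕ} (he : ord P (2 : k) = e)
    (x : (CB P e)ˣ) {r : 𝓞 k} (hr : r ∉ P.asIdeal)
    (h : Ideal.Quotient.mk (P.asIdeal ^ (2 * e + 1)) r = (x : CB P e)) :
    cpsi P he x = ccl P hr := by
  refine ccl_eq P he (crep_notMem P e x) hr ?_
  rw [crep_spec, h]

theorem cpsi_ker (P : HeightOneSpectrum (𝓞 k)) {e : ℕ} (he : ord P (2 : k) = e) :
    (cpsi P he).ker = (powMonoidHom 2 : (CB P e)ˣ →* (CB P e)ˣ).range := by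
  ext x
  constructor
  · intro hx
    have h1 : ccl P (crep_notMem P e x) = 1 := hx
    unfold ccl at h1
    rw [QuotientGroup.eq_one_iff, mem_LS, Units.val_mk0] at h1
    set r := crep P e x with hr
    have hrn : r ∉ P.asIdeal := crep_notMem P e x
    obtain ⟨c, hc⟩ := h1 (2 * e + 1)
    obtain ⟨h2, h3⟩ := sqr_unit P (n := ((2 * e + 1 : ℕ) : ℤ)) (by positivity) hc
    rw [sqr_iff] at hc
    have hc0 : c ≠ 0 := by
      rintro rfl
      exact h2 (by ring)
    have hcu : ord P c = 0 := by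
      rw [ord_mul P (cnt_coe_ne P hrn) (pow_ne_zero _ hc0), ord_unit P hrn, ord_pow] at h3
      push_cast at h3
      omega
    obtain ⟨b, hb⟩ := ord_apx P hcu.ge (2 * e + 1)
    have hb' : c - b = 0 ∨ ((2 * e + 1 : ℕ) : ℤ) ≤ ord P (c - b) := by
      rw [sub_eq_zero]
      exact hb
    have hbn : (b : k) = 0 ∨ (0 : ℤ) ≤ ord P (b : k) := Or.inr (ord_int_nonneg P b)
    have hrr : (r : k) = 0 ∨ (0 : ℤ) ≤ ord P (r : k) := Or.inr (ord_int_nonneg P r)
    have hcc : c = 0 ∨ (0 : ℤ) ≤ ord P c := Or.inr hcu.ge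
    have h5 := sqr_prod P (sqr_prod P hrr (le_ord_add P 0 hcc hbn)) hb'
    have h6 : -(((r : k) * (c + (b : k))) * (c - (b : k))) = 0 ∨
        ((2 * e + 1 : ℕ) : ℤ) ≤ ord P (-(((r : k) * (c + (b : k))) * (c - (b : k)))) := by
      rw [ord_neg, neg_eq_zero]
      exact sqr_mono P (by omega) h5
    have h7 := le_ord_add P ((2 * e + 1 : ℕ) : ℤ) hc h6
    have h8 : (r : k) * c ^ 2 - 1 + -(((r : k) * (c + (b : k))) * (c - (b : k))) =
        ((r * (b * b) - 1 : 𝓞 k) : k) := by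
      have e1 : ((r * (b * b) - 1 : 𝓞 k) : k) = (r : k) * ((b : k) * (b : k)) - 1 := by
        push_cast
        ring
      rw [e1]
      ring
    rw [h8] at h7
    have h9 : r * (b * b) - 1 ∈ P.asIdeal ^ (2 * e + 1) := by
      rw [← le_ord_iff]
      rcases h7 with h7 | h7
      · left
        exact_mod_cast h7
      · right
        exact h7
    have h10 := (Ideal.Quotient.eq (I := P.asIdeal ^ (2 * e + 1)) (x := r * (b * b)) (y := 1)).2 h9
    rw [map_mul, map_mul, map_one, hr, crep_spec] at h10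
    set β : CB P e := Ideal.Quotient.mk (P.asIdeal ^ (2 * e + 1)) b with hβ
    have hy1 : (x : CB P e) * β * β = 1 := by rw [mul_assoc]; exact h10
    have hy2 : β * ((x : CB P e) * β) = 1 := by rw [mul_comm]; exact hy1
    refine ⟨⟨(x : CB P e) * β, β, hy1, hy2⟩, ?_⟩
    rw [powMonoidHom_apply]
    apply Units.ext
    rw [Units.val_pow_eq_pow_val]
    show ((x : CB P e) * β) ^ 2 = x
    calc ((x : CB P e) * β) ^ 2 = (x : CB P e) * ((x : CB P e) * (β * β)) := by ring
      _ = x := by rw [h10, mul_one]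
  · rintro ⟨y, rfl⟩
    rw [MonoidHom.mem_ker, powMonoidHom_apply, map_pow]
    exact cnt_sq_one P _

/-- the parity of the exponent -/
noncomputable def cpar (P : HeightOneSpectrum (𝓞 k)) : kˣ →* Multiplicative (ZMod 2) where
  toFun a := Multiplicative.ofAdd ((ord P (a : k) : ℤ) : ZMod 2)
  map_one' := by
    rw [Units.val_one, ord_one]
    simp
  map_mul' := by
    intro a b
    rw [Units.val_mul, ord_mul P a.ne_zero b.ne_zero, ← ofAdd_add]
    push_cast
    rfl

theorem cpar_mem (P : HeightOneSpectrum (𝓞 k)) (a : kˣ) :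
    a ∈ (cpar P).ker ↔ Even (ord P (a : k)) := by
  rw [MonoidHom.mem_ker]
  show Multiplicative.ofAdd ((ord P (a : k) : ℤ) : ZMod 2) = 1 ↔ _
  rw [ofAdd_eq_one]
  exact ZMod.intCast_zmod_eq_zero_iff_dvd _ 2 |>.trans (even_iff_two_dvd).symm

theorem cpar_index (P : HeightOneSpectrum (𝓞 k)) : (cpar P).ker.index = 2 := by
  rw [Subgroup.index_ker]
  have h : (cpar P).range = ⊤ := by
    rw [MonoidHom.range_eq_top]
    obtain ⟨π, hπ⟩ := exists_unif P
    have hπ0 : (π : k) ≠ 0 := by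
      intro h0
      rw [h0, ord_zero] at hπ
      exact zero_ne_one hπ
    have h1 : cpar P (Units.mk0 (π : k) hπ0) = Multiplicative.ofAdd (1 : ZMod 2) := by
      show Multiplicative.ofAdd ((ord P (π : k) : ℤ) : ZMod 2) = _
      rw [hπ]
      simp
    intro z
    have h2 : ∀ z : ZMod 2, z = 0 ∨ z = 1 := by decide
    rcases h2 (Multiplicative.toAdd z) with h3 | h3
    · refine ⟨1, ?_⟩
      rw [map_one]
      exact (toAdd_eq_zero.1 h3).symm
    · refine ⟨Units.mk0 (π : k) hπ0, ?_⟩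
      rw [h1, ← h3]
      rfl
  rw [h]
  rw [Nat.card_congr (Subgroup.topEquiv).toEquiv]
  show Nat.card (ZMod 2) = 2
  simp

theorem cpsi_range (P : HeightOneSpectrum (𝓞 k)) {e : ℕ} (he : ord P (2 : k) = e) :
    (cpsi P he).range = (cpar P).ker.map (QuotientGroup.mk' (LS (Sum.inl P) : Subgroup kˣ)) := by
  ext g
  constructor
  · rintro ⟨x, rfl⟩
    refine ⟨Units.mk0 (crep P e x : k) (cnt_coe_ne P (crep_notMem P e x)), ?_, rfl⟩
    show _ ∈ (cpar P).ker
    rw [cpar_mem, Units.val_mk0, ord_unit P (crep_notMem P e x)]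
    exact Even.zero
  · rintro ⟨a, ha, rfl⟩
    have ha' : Even (ord P (a : k)) := (cpar_mem P a).1 ha
    obtain ⟨m, hm⟩ := ha'
    obtain ⟨π, hπ⟩ := exists_unif P
    have hπ0 : (π : k) ≠ 0 := by
      intro h0
      rw [h0, ord_zero] at hπ
      exact zero_ne_one hπ
    set p : kˣ := Units.mk0 (π : k) hπ0 with hp
    have hpz : ∀ n : ℤ, ord P ((p ^ n : kˣ) : k) = n := by
      intro n
      obtain ⟨j, rfl | rfl⟩ := n.eq_nat_or_neg
      · rw [zpow_natCast, Units.val_pow_eq_pow_val, ord_pow, hp, Units.val_mk0, hπ, mul_one]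
      · rw [zpow_neg, zpow_natCast, Units.val_inv_eq_inv_val, ord_inv, Units.val_pow_eq_pow_val,
          ord_pow, hp, Units.val_mk0, hπ, mul_one]
    set u : kˣ := a * (p ^ (-m)) ^ 2 with hu
    have hu0 : ord P (u : k) = 0 := by
      rw [hu, Units.val_mul, ord_mul P a.ne_zero (Units.ne_zero _), Units.val_pow_eq_pow_val,
        ord_pow, hpz, hm]
      push_cast
      ring
    obtain ⟨b, hb⟩ := ord_apx P hu0.ge (2 * e + 1)
    have hb' : (u : k) - b = 0 ∨ ((2 * e + 1 : ℕ) : ℤ) ≤ ord P ((u : k) - b) := by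
      rw [sub_eq_zero]
      exact hb
    have hbI : b ∉ P.asIdeal := by
      intro hmem
      have h1 := (le_ord_iff P b 1).2 (by rwa [pow_one])
      have h2 : (b : k) = 0 ∨ (1 : ℤ) ≤ ord P (b : k) := by
        rcases h1 with h1 | h1
        · left
          rw [h1]
          exact map_zero (algebraMap (𝓞 k) k)
        · right
          exact_mod_cast h1
      have h3 := le_ord_add P (1 : ℤ) (sqr_mono P (by push_cast; omega) hb') h2
      rw [sub_add_cancel] at h3
      rcases h3 with h3 | h3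
      · exact u.ne_zero h3
      · rw [hu0] at h3
        norm_num at h3
    have hun : IsUnit (Ideal.Quotient.mk (P.asIdeal ^ (2 * e + 1)) b) := (cnt_unit_iff P e b).2 hbI
    obtain ⟨x, hx⟩ := hun
    refine ⟨x, ?_⟩
    rw [cpsi_apply P he x hbI hx.symm]
    have h4 : (QuotientGroup.mk u : kˣ ⧸ (LS (Sum.inl P) : Subgroup kˣ)) = ccl P hbI := by
      unfold ccl
      rw [QuotientGroup.eq, mem_LS, Units.val_mul, Units.val_inv_eq_inv_val, Units.val_mk0]
      exact cnt_wd P he u.ne_zero hu0 hb'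
    rw [← h4]
    have h5 : (QuotientGroup.mk' (LS (Sum.inl P) : Subgroup kˣ)) u =
        (QuotientGroup.mk' (LS (Sum.inl P) : Subgroup kˣ)) a := by
      rw [hu, map_mul, map_pow, cnt_sq_one]
      exact mul_one ((QuotientGroup.mk' (LS (Sum.inl P) : Subgroup kˣ)) a)
    exact h5

theorem LS_index (P : HeightOneSpectrum (𝓞 k)) :
    (LS (Sum.inl P) : Subgroup kˣ).index =
      4 * Ideal.absNorm P.asIdeal ^ (ord P (2 : k)).toNat := by
  have he0 : 0 ≤ ord P (2 : k) := by
    have e0 : ((2 : 𝓞 k) : k) = 2 := map_ofNat (algebraMap (𝓞 k) k) 2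
    have h1 := ord_int_nonneg P (2 : 𝓞 k)
    rwa [e0] at h1
  obtain ⟨e, he⟩ := Int.eq_ofNat_of_zero_le he0
  rw [he, Int.toNat_natCast]
  have hle : (LS (Sum.inl P) : Subgroup kˣ) ≤ (cpar P).ker := by
    intro a ha
    rw [cpar_mem]
    exact LocSq.even ((mem_LS P a).1 ha)
  rw [← Subgroup.relIndex_mul_index hle, cpar_index]
  have h1 : (LS (Sum.inl P) : Subgroup kˣ).relIndex (cpar P).ker =
      Nat.card ((cpar P).ker.map (QuotientGroup.mk' (LS (Sum.inl P) : Subgroup kˣ))) := by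
    rw [← Subgroup.relIndex_ker, QuotientGroup.ker_mk']
  haveI : Finite (CB P e) := by
    have h2 : Nat.card (CB P e) ≠ 0 := by
      have h3 : Nat.card (CB P e) = Ideal.absNorm P.asIdeal ^ (2 * e + 1) := by
        rw [← map_pow, Ideal.absNorm_apply, Submodule.cardQuot_apply]
      rw [h3]
      refine pow_ne_zero _ ?_
      intro h
      rw [Ideal.absNorm_eq_zero_iff] at h
      exact P.ne_bot h
    exact Nat.finite_of_card_ne_zero h2
  haveI : Finite (CB P e)ˣ := inferInstance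
  have h2 : (cpsi P he).ker.index = 2 * Ideal.absNorm P.asIdeal ^ e := by
    rw [cpsi_ker, Subgroup.index_range]
    exact cnt_ker P he
  rw [h1, ← cpsi_range P he, ← Subgroup.index_ker, h2]
  ring

end

end Pool.Agent.H98.MF
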