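import Pool.Agent.H98.MF.L.Hs

/-!
# Project MK4, block L: tame symbols at odd primes
-/

set_option autoImplicit false

open scoped BigOperators Pointwise
open NumberField IsDedekindDomain

namespace Pool.Agent.H98.MF

section

variable {k : Type} [Field k] [NumberField k]

variable {P : HeightOneSpectrum (𝓞 k)}

private theorem odd_mem_iff (a : 𝓞 k) : a ∈ P.asIdeal ↔ (a = 0 ∨ 1 ≤ ord P (a : k)) := by
  have h := le_ord_iff P a 1
  rw [pow_one, Nat.cast_one] at h
  exact h.symm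

private theorem odd_notMem (a : 𝓞 k) (ha : a ∉ P.asIdeal) : (a : k) ≠ 0 ∧ ord P (a : k) = 0 := by
  rw [odd_mem_iff, not_or] at ha
  have h := ord_int_nonneg P a
  refine ⟨fun h0 => ha.1 ?_, by omega⟩
  exact_mod_cast h0

private theorem odd_notMem' (a : 𝓞 k) (ha : (a : k) ≠ 0) (ha' : ord P (a : k) = 0) :
    a ∉ P.asIdeal := by
  rw [odd_mem_iff, not_or]
  refine ⟨fun h0 => ha ?_, by omega⟩
  rw [h0]
  rfl

private theorem odd_zpow (x : k) (m : ℤ) : ord P (x ^ m) = m * ord P x := by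
  rcases m with m | m
  · rw [Int.ofNat_eq_natCast, zpow_natCast, ord_pow]
  · rw [zpow_negSucc, ord_inv, ord_pow, Int.negSucc_eq]
    push_cast
    ring

private theorem odd_sq (h2 : ord P (2 : k) = 0) {a c : k} (hc : c ≠ 0)
    (h : a = c ^ 2 ∨ 2 * ord P c + 1 ≤ ord P (a - c ^ 2)) : LocSq P a := by
  by_cases h0 : a = c ^ 2
  · rw [h0]
    exact locSq_sq P hc
  · have h1 := h.resolve_left h0
    apply locSq_of_prec P c⁻¹
    right
    rw [h2]
    have h3 : a * c⁻¹ ^ 2 - 1 = (a - c ^ 2) * (c⁻¹) ^ 2 := by field_simp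
    rw [h3, ord_mul P (sub_ne_zero.2 h0) (pow_ne_zero 2 (inv_ne_zero hc)), ord_pow, ord_inv]
    push_cast
    omega

private theorem odd_int_sq (h2 : ord P (2 : k) = 0) {u c : 𝓞 k} (hc : c ∉ P.asIdeal)
    (h : u - c ^ 2 ∈ P.asIdeal) : LocSq P (u : k) := by
  obtain ⟨hc1, hc2⟩ := odd_notMem c hc
  refine odd_sq h2 hc1 ?_
  rw [odd_mem_iff] at h
  rcases h with h | h
  · left
    have h1 : u = c ^ 2 := sub_eq_zero.1 h
    rw [h1]
    push_cast
    rfl
  · right
    rw [hc2]
    have e : ((u - c ^ 2 : 𝓞 k) : k) = (u : k) - (c : k) ^ 2 := by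
      push_cast
      rfl
    rw [e] at h
    omega

theorem qr_eq_zero (a : k) : qr a P = 0 ↔ LocSq P a := by
  unfold qr
  split_ifs with h
  · simp [h]
  · simp [h]

theorem qr_int (h2 : ord P (2 : k) = 0) (u : 𝓞 k) (hu : u ∉ P.asIdeal) :
    qr (u : k) P = 0 ↔ ∃ c : 𝓞 k, u - c ^ 2 ∈ P.asIdeal := by
  rw [qr_eq_zero]
  obtain ⟨hu1, hu2⟩ := odd_notMem u hu
  constructor
  · intro h
    obtain ⟨c, hc⟩ := h 1
    rw [Nat.cast_one] at hc
    have hc0 : c ≠ 0 := by
      rintro rfl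
      rcases hc with hc | hc
      · simp at hc
      · rw [zero_pow two_ne_zero, mul_zero, zero_sub, ord_neg, ord_one] at hc
        omega
    have hord : ord P c = 0 := by
      have h1 : ord P ((u : k) * c ^ 2) = 0 := by
        rcases hc with hc | hc
        · rw [hc, ord_one]
        · have h3 := (ord_add_eq P (a := (1 : k)) (b := (u : k) * c ^ 2 - 1) one_ne_zero
            (Or.inr (by rw [ord_one]; omega))).2
          rw [add_sub_cancel, ord_one] at h3
          exact h3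
      rw [ord_mul P hu1 (pow_ne_zero 2 hc0), ord_pow, hu2] at h1
      push_cast at h1
      omega
    have hordi : ord P c⁻¹ = 0 := by rw [ord_inv, hord, neg_zero]
    obtain ⟨b, hb⟩ := ord_apx P (a := c⁻¹) hordi.ge 1
    rw [Nat.cast_one] at hb
    refine ⟨b, ?_⟩
    rw [odd_mem_iff]
    have e1 : ((u - b ^ 2 : 𝓞 k) : k) = ((u : k) * c ^ 2 - 1) * c⁻¹ ^ 2 +
        (c⁻¹ - b) * (c⁻¹ + b) := by
      push_cast
      field_simp
      ring
    have e2 : ((u : k) * c ^ 2 - 1) * c⁻¹ ^ 2 = 0 ∨ 1 ≤ ord P (((u : k) * c ^ 2 - 1) * c⁻¹ ^ 2) := by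
      rcases hc with hc | hc
      · left
        rw [hc, sub_self, zero_mul]
      · by_cases h0 : (u : k) * c ^ 2 - 1 = 0
        · left
          rw [h0, zero_mul]
        · right
          rw [ord_mul P h0 (pow_ne_zero 2 (inv_ne_zero hc0)), ord_pow, hordi]
          push_cast
          omega
    have e3 : (c⁻¹ - (b : k)) * (c⁻¹ + b) = 0 ∨ 1 ≤ ord P ((c⁻¹ - (b : k)) * (c⁻¹ + b)) := by
      by_cases h0 : c⁻¹ - (b : k) = 0
      · left
        rw [h0, zero_mul]
      · by_cases h0' : c⁻¹ + (b : k) = 0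
        · left
          rw [h0', mul_zero]
        · right
          rw [ord_mul P h0 h0']
          have h4 : 1 ≤ ord P (c⁻¹ - (b : k)) := by
            rcases hb with hb | hb
            · exact absurd (sub_eq_zero.2 hb) h0
            · exact hb
          have h5 := (le_ord_add P (a := c⁻¹) (b := (b : k)) 0 (Or.inr hordi.ge)
            (Or.inr (ord_int_nonneg P b))).resolve_left h0'
          omega
    rcases le_ord_add P 1 e2 e3 with h6 | h6
    · left
      rw [← e1] at h6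
      exact_mod_cast h6
    · right
      rw [e1]
      exact h6
  · rintro ⟨c, hc⟩
    have hc' : c ∉ P.asIdeal := by
      intro h
      apply hu
      have h1 : u = (u - c ^ 2) + c * c := by ring
      rw [h1]
      exact P.asIdeal.add_mem hc (P.asIdeal.mul_mem_left _ h)
    exact odd_int_sq h2 hc' hc

/-- the elements of even order -/
private def oddE (P : HeightOneSpectrum (𝓞 k)) : Subgroup kˣ where
  carrier := {a | Even (ord P (a : k))}
  one_mem' := by
    show Even (ord P ((1 : kˣ) : k))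
    rw [Units.val_one, ord_one]
    exact Even.zero
  mul_mem' := by
    intro a b ha hb
    show Even (ord P ((a * b : kˣ) : k))
    rw [Units.val_mul, ord_mul P a.ne_zero b.ne_zero]
    exact Even.add ha hb
  inv_mem' := by
    intro a ha
    show Even (ord P ((a⁻¹ : kˣ) : k))
    rw [Units.val_inv_eq_inv_val, ord_inv]
    exact Even.neg ha

private theorem odd_mem_oddE (a : kˣ) : a ∈ oddE P ↔ Even (ord P (a : k)) := Iff.rfl

private theorem odd_idx (h2 : ord P (2 : k) = 0) : ∃ a : k, a ≠ 0 ∧ Even (ord P a) ∧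
    ∀ b : k, b ≠ 0 → Even (ord P b) → Xor (LocSq P (b * a)) (LocSq P b) := by
  have hE : (oddE P).index = 2 := by
    rw [Subgroup.index_eq_two_iff]
    obtain ⟨π, hπ⟩ := exists_unif P
    have hπ0 : (π : k) ≠ 0 := by
      intro h
      rw [h, ord_zero] at hπ
      omega
    refine ⟨Units.mk0 (π : k) hπ0, fun b => ?_⟩
    rw [odd_mem_oddE, odd_mem_oddE, Units.val_mul, Units.val_mk0, ord_mul P b.ne_zero hπ0, hπ,
      Int.even_add_one]
    by_cases h : Even (ord P (b : k))
    · exact Or.inr ⟨h, not_not.2 h⟩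
    · exact Or.inl ⟨h, h⟩
  have hle : (LS (Sum.inl P) : Subgroup kˣ) ≤ oddE P := by
    intro a ha
    rw [mem_LS] at ha
    exact ha.even
  have hidx := LS_index P
  rw [h2, Int.toNat_zero, pow_zero, mul_one, ← Subgroup.relIndex_mul_index hle, hE] at hidx
  have hrel : (LS (Sum.inl P) : Subgroup kˣ).relIndex (oddE P) = 2 := by omega
  rw [Subgroup.relIndex_eq_two_iff] at hrel
  obtain ⟨a, ha, hab⟩ := hrel
  refine ⟨a, a.ne_zero, ha, fun b hb hb' => ?_⟩
  have h1 := hab (Units.mk0 b hb) hb'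
  rw [mem_LS, mem_LS, Units.val_mul, Units.val_mk0] at h1
  exact h1

private theorem odd_red (h2 : ord P (2 : k) = 0) {a : k} (ha : a ≠ 0) (he : Even (ord P a)) :
    ∃ u : 𝓞 k, u ∉ P.asIdeal ∧ LocSq P (a * (u : k)) := by
  obtain ⟨m, hm⟩ := he
  obtain ⟨π, hπ⟩ := exists_unif P
  have hπ0 : (π : k) ≠ 0 := by
    intro h
    rw [h, ord_zero] at hπ
    omega
  have hp0 : (π : k) ^ m ≠ 0 := zpow_ne_zero m hπ0
  have hp1 : ord P ((π : k) ^ m) = m := by rw [odd_zpow, hπ, mul_one]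
  obtain ⟨a', ha'⟩ : ∃ a' : k, a' = a * ((π : k) ^ m)⁻¹ ^ 2 := ⟨_, rfl⟩
  have ha0 : a' ≠ 0 := by
    rw [ha']
    exact mul_ne_zero ha (pow_ne_zero 2 (inv_ne_zero hp0))
  have ha1 : ord P a' = 0 := by
    rw [ha', ord_mul P ha (pow_ne_zero 2 (inv_ne_zero hp0)), ord_pow, ord_inv, hp1, hm]
    push_cast
    ring
  have haa : a = a' * ((π : k) ^ m) ^ 2 := by
    rw [ha']
    field_simp
  obtain ⟨b, hb⟩ := ord_apx P (a := a') ha1.ge 1
  rw [Nat.cast_one] at hb
  have hb0 : (b : k) ≠ 0 ∧ ord P (b : k) = 0 := by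
    rcases hb with hb | hb
    · rw [← hb]
      exact ⟨ha0, ha1⟩
    · have h3 := ord_add_eq P (a := a') (b := (b : k) - a') ha0
        (Or.inr (by rw [ha1, ← neg_sub, ord_neg]; omega))
      rw [add_sub_cancel, ha1] at h3
      exact h3
  refine ⟨b, odd_notMem' b hb0.1 hb0.2, ?_⟩
  have h4 : a * (b : k) = (a' * b) * ((π : k) ^ m) ^ 2 := by
    rw [haa]
    ring
  rw [h4, locSq_mul_sq P hp0]
  refine odd_sq h2 hb0.1 ?_
  rcases hb with hb | hb
  · left
    rw [hb]
    ring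
  · by_cases h0 : a' - (b : k) = 0
    · left
      rw [sub_eq_zero.1 h0]
      ring
    · right
      have h5 : a' * (b : k) - (b : k) ^ 2 = (a' - b) * b := by ring
      rw [h5, ord_mul P h0 hb0.1, hb0.2]
      omega

theorem qr_mul (h2 : ord P (2 : k) = 0) {a b : k} (ha : a ≠ 0) (hb : b ≠ 0)
    (ha' : Even (ord P a)) (hb' : Even (ord P b)) : qr (a * b) P = qr a P + qr b P := by
  by_cases h1 : LocSq P a
  · have h3 : qr a P = 0 := (qr_eq_zero a).2 h1
    rw [h3, zero_add]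
    unfold qr
    rw [LocSq.mul_iff h1]
  · by_cases h1' : LocSq P b
    · have h3 : qr b P = 0 := (qr_eq_zero b).2 h1'
      rw [h3, add_zero, mul_comm]
      unfold qr
      rw [LocSq.mul_iff h1']
    · obtain ⟨c, hc, hc', hcc⟩ := odd_idx h2
      have h4 : LocSq P (a * c) := by
        rcases hcc a ha ha' with h | h
        · exact h.1
        · exact absurd h.1 h1
      have h5 : LocSq P (b * c) := by
        rcases hcc b hb hb' with h | h
        · exact h.1
        · exact absurd h.1 h1'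
      have h6 : LocSq P (a * b) := by
        have h7 := h4.mul h5
        have h8 : a * c * (b * c) = (a * b) * c ^ 2 := by ring
        rwa [h8, locSq_mul_sq P hc] at h7
      have h9 : qr a P = 1 := by
        unfold qr
        rw [if_neg h1]
      have h10 : qr b P = 1 := by
        unfold qr
        rw [if_neg h1']
      rw [(qr_eq_zero _).2 h6, h9, h10]
      decide

theorem exists_qr_one (h2 : ord P (2 : k) = 0) : ∃ u : k, u ≠ 0 ∧ ord P u = 0 ∧ qr u P = 1 := by
  obtain ⟨c, hc, hc', hcc⟩ := odd_idx h2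
  have h1 : ¬ LocSq P c := by
    have h3 : LocSq P (1 : k) := by
      have := locSq_sq P (one_ne_zero : (1 : k) ≠ 0)
      rwa [one_pow] at this
    rcases hcc 1 one_ne_zero (by rw [ord_one]; exact Even.zero) with h | h
    · exact absurd h3 h.2
    · have h4 := h.2
      rwa [one_mul] at h4
  obtain ⟨u, hu, hcu⟩ := odd_red h2 hc hc'
  obtain ⟨hu1, hu2⟩ := odd_notMem u hu
  refine ⟨u, hu1, hu2, ?_⟩
  have h5 : ¬ LocSq P (u : k) := by
    intro h6
    rw [mul_comm, LocSq.mul_iff h6] at hcu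
    exact h1 hcu
  unfold qr
  rw [if_neg h5]

private theorem odd_two_notMem (h2 : ord P (2 : k) = 0) : (2 : 𝓞 k) ∉ P.asIdeal := by
  apply odd_notMem'
  · exact two_ne_zero
  · exact h2

private theorem odd_card (h2 : ord P (2 : k) = 0) (F : Type) [Field F] [Fintype F]
    (hF : (2 : F) ≠ 0) : Fintype.card F % 2 = 1 := by
  have _ := h2
  apply FiniteField.odd_card_of_char_ne_two
  intro h
  apply hF
  have h1 : ((ringChar F : ℕ) : F) = 0 := ringChar.Nat.cast_ringChar
  rw [h] at h1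
  exact_mod_cast h1

theorem qr_neg_one (h2 : ord P (2 : k) = 0) :
    qr (-1 : k) P = if Ideal.absNorm P.asIdeal % 4 = 1 then 0 else 1 := by
  haveI : P.asIdeal.IsMaximal := P.isMaximal
  letI : Field (𝓞 k ⧸ P.asIdeal) := Ideal.Quotient.field P.asIdeal
  haveI : Finite (𝓞 k ⧸ P.asIdeal) := Ideal.finiteQuotientOfFreeOfNeBot _ P.ne_bot
  letI : Fintype (𝓞 k ⧸ P.asIdeal) := Fintype.ofFinite _
  have hcard : Ideal.absNorm P.asIdeal = Fintype.card (𝓞 k ⧸ P.asIdeal) := by
    rw [Ideal.absNorm_apply, Submodule.cardQuot_apply, Nat.card_eq_fintype_card]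
  have h2F : (2 : 𝓞 k ⧸ P.asIdeal) ≠ 0 := by
    intro h
    apply odd_two_notMem h2
    rw [← Ideal.Quotient.eq_zero_iff_mem]
    exact h
  have hodd : Fintype.card (𝓞 k ⧸ P.asIdeal) % 2 = 1 := odd_card h2 _ h2F
  have hu : (-1 : 𝓞 k) ∉ P.asIdeal := by
    intro h
    apply P.isPrime.ne_top
    rw [Ideal.eq_top_iff_one]
    have := P.asIdeal.neg_mem h
    rwa [neg_neg] at this
  have h1 := qr_int h2 (-1 : 𝓞 k) hu
  have h3 : (((-1 : 𝓞 k)) : k) = -1 := by push_cast; rfl
  rw [h3] at h1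
  have h4 : (∃ c : 𝓞 k, (-1 : 𝓞 k) - c ^ 2 ∈ P.asIdeal) ↔
      IsSquare (-1 : 𝓞 k ⧸ P.asIdeal) := by
    constructor
    · rintro ⟨c, hc⟩
      refine ⟨Ideal.Quotient.mk _ c, ?_⟩
      rw [← Ideal.Quotient.eq_zero_iff_mem, map_sub, map_neg, map_one, map_pow, sub_eq_zero] at hc
      rw [hc, pow_two]
    · rintro ⟨c, hc⟩
      obtain ⟨c, rfl⟩ := Ideal.Quotient.mk_surjective c
      refine ⟨c, ?_⟩
      rw [← Ideal.Quotient.eq_zero_iff_mem, map_sub, map_neg, map_one, map_pow, sub_eq_zero, hc, pow_two]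
  rw [h4, FiniteField.isSquare_neg_one_iff, ← hcard] at h1
  rw [← hcard] at hodd
  split_ifs with h5
  · exact h1.2 (by omega)
  · have h6 : qr (-1 : k) P ≠ 0 := by
      intro h7
      have := h1.1 h7
      omega
    unfold qr at h6 ⊢
    split_ifs at h6 ⊢ with h8
    · exact absurd rfl h6
    · rfl

private theorem odd_unit_unit (h2 : ord P (2 : k) = 0) (u w : 𝓞 k) (hu : u ∉ P.asIdeal)
    (hw : w ∉ P.asIdeal) : LocNm P (u : k) (w : k) := by
  haveI : P.asIdeal.IsMaximal := P.isMaximal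
  letI : Field (𝓞 k ⧸ P.asIdeal) := Ideal.Quotient.field P.asIdeal
  haveI : Finite (𝓞 k ⧸ P.asIdeal) := Ideal.finiteQuotientOfFreeOfNeBot _ P.ne_bot
  letI : Fintype (𝓞 k ⧸ P.asIdeal) := Fintype.ofFinite _
  have h2F : (2 : 𝓞 k ⧸ P.asIdeal) ≠ 0 := by
    intro h
    apply odd_two_notMem h2
    rw [← Ideal.Quotient.eq_zero_iff_mem]
    exact h
  have hodd : Fintype.card (𝓞 k ⧸ P.asIdeal) % 2 = 1 := odd_card h2 _ h2F
  have hu' : Ideal.Quotient.mk P.asIdeal u ≠ 0 := by
    rw [Ne, Ideal.Quotient.eq_zero_iff_mem]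
    exact hu
  have hw' : Ideal.Quotient.mk P.asIdeal w ≠ 0 := by
    rw [Ne, Ideal.Quotient.eq_zero_iff_mem]
    exact hw
  obtain ⟨x, y, hxy⟩ := FiniteField.exists_root_sum_quadratic
    (f := Polynomial.C (Ideal.Quotient.mk P.asIdeal u) * Polynomial.X ^ 2)
    (g := Polynomial.C (Ideal.Quotient.mk P.asIdeal w) * Polynomial.X ^ 2 - Polynomial.C 1)
    (Polynomial.degree_C_mul_X_pow 2 hu')
    (by
      rw [Polynomial.degree_sub_C]
      · exact Polynomial.degree_C_mul_X_pow 2 hw'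
      · rw [Polynomial.degree_C_mul_X_pow 2 hw']
        exact_mod_cast two_pos) hodd
  obtain ⟨x, rfl⟩ := Ideal.Quotient.mk_surjective x
  obtain ⟨y, rfl⟩ := Ideal.Quotient.mk_surjective y
  have hmem : u * x ^ 2 + w * y ^ 2 - 1 ∈ P.asIdeal := by
    rw [← Ideal.Quotient.eq_zero_iff_mem]
    simp only [Polynomial.eval_mul, Polynomial.eval_C, Polynomial.eval_pow, Polynomial.eval_X,
      Polynomial.eval_sub] at hxy
    simp only [map_sub, map_add, map_mul, map_pow, map_one]
    rw [← hxy]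
    ring
  by_cases hy : y ∈ P.asIdeal
  · -- `u x² ≡ 1`
    have hx : x ∉ P.asIdeal := by
      intro hx
      apply P.isPrime.ne_top
      rw [Ideal.eq_top_iff_one]
      have h1 : (1 : 𝓞 k) = (u * x) * x + (w * y) * y - (u * x ^ 2 + w * y ^ 2 - 1) := by ring
      rw [h1]
      exact P.asIdeal.sub_mem (P.asIdeal.add_mem (P.asIdeal.mul_mem_left _ hx)
        (P.asIdeal.mul_mem_left _ hy)) hmem
    have h1 : (u * x ^ 2) - 1 ^ 2 ∈ P.asIdeal := by
      have h3 : (u * x ^ 2) - 1 ^ 2 = (u * x ^ 2 + w * y ^ 2 - 1) - (w * y) * y := by ring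
      rw [h3]
      exact P.asIdeal.sub_mem hmem (P.asIdeal.mul_mem_left _ hy)
    have h4 : (1 : 𝓞 k) ∉ P.asIdeal := fun h => P.isPrime.ne_top ((Ideal.eq_top_iff_one _).2 h)
    have h5 := odd_int_sq h2 h4 h1
    have h6 : (((u * x ^ 2 : 𝓞 k)) : k) = (u : k) * (x : k) ^ 2 := by push_cast; rfl
    rw [h6, locSq_mul_sq P (odd_notMem x hx).1] at h5
    exact h5.locNm_left (odd_notMem w hw).1
  · rw [locNm_iff]
    refine ⟨1, x, ?_⟩
    have h1 : w * (1 - u * x ^ 2) - (w * y) ^ 2 ∈ P.asIdeal := by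
      have h3 : w * (1 - u * x ^ 2) - (w * y) ^ 2 = (-w) * (u * x ^ 2 + w * y ^ 2 - 1) := by ring
      rw [h3]
      exact P.asIdeal.mul_mem_left _ hmem
    have h4 : w * y ∉ P.asIdeal := by
      intro h
      rcases P.isPrime.mem_or_mem h with h | h
      · exact hw h
      · exact hy h
    have h5 := odd_int_sq h2 h4 h1
    have h6 : (((w * (1 - u * x ^ 2) : 𝓞 k)) : k) = (w : k) * (1 ^ 2 - (u : k) * (x : k) ^ 2) := by
      push_cast
      ring
    rwa [h6] at h5

private theorem odd_even_even (h2 : ord P (2 : k) = 0) {a b : k} (ha : a ≠ 0) (hb : b ≠ 0)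
    (ha' : Even (ord P a)) (hb' : Even (ord P b)) : hs P a b = 0 := by
  obtain ⟨u, hu, hau⟩ := odd_red h2 ha ha'
  obtain ⟨w, hw, hbw⟩ := odd_red h2 hb hb'
  rw [hs_congr hau hbw, hs_eq_zero]
  exact odd_unit_unit h2 u w hu hw

private theorem odd_zmod2 {x : ZMod 2} (h : x ≠ 0) : x = 1 := by
  revert x
  decide

theorem hs_even (h2 : ord P (2 : k) = 0) {u b : k} (hu : u ≠ 0) (hb : b ≠ 0)
    (hu' : Even (ord P u)) : hs P u b = (ord P b : ZMod 2) * qr u P := by
  by_cases h1 : LocSq P u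
  · rw [h1.hs_left hb, (qr_eq_zero u).2 h1, mul_zero]
  · have h3 : qr u P = 1 := odd_zmod2 fun h => h1 ((qr_eq_zero u).1 h)
    rw [h3, mul_one]
    by_cases hbe : Even (ord P b)
    · rw [odd_even_even h2 hu hb hu' hbe, eq_comm, ZMod.intCast_zmod_eq_zero_iff_dvd]
      exact hbe.two_dvd
    · have h4 : ∃ c : k, c ≠ 0 ∧ hs P u c ≠ 0 := by
        by_contra hcon
        push Not at hcon
        exact h1 (hs_nondeg P hu hcon)
      obtain ⟨c, hc, hcu⟩ := h4
      have hco : ¬ Even (ord P c) := fun h => hcu (odd_even_even h2 hu hc hu' h)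
      have h5 : Even (ord P (b * c)) := by
        rw [ord_mul P hb hc]
        rw [Int.not_even_iff_odd] at hbe hco
        exact hbe.add_odd hco
      have h6 := odd_even_even h2 hu (mul_ne_zero hb hc) hu' h5
      rw [hs_mul_right P hu hb hc, odd_zmod2 hcu] at h6
      have h7 : hs P u b = 1 := by
        apply odd_zmod2
        intro h
        rw [h, zero_add] at h6
        exact one_ne_zero h6
      rw [h7, eq_comm]
      apply odd_zmod2
      intro h
      rw [ZMod.intCast_zmod_eq_zero_iff_dvd] at h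
      exact hbe (even_iff_two_dvd.2 h)

theorem hs_odd_odd (h2 : ord P (2 : k) = 0) {a b : k} (ha : a ≠ 0) (hb : b ≠ 0)
    (ha' : Odd (ord P a)) (hb' : Odd (ord P b)) : hs P a b = qr (-(a * b)) P := by
  have h1 : hs P a b = hs P a (b * (-a)) := by
    rw [hs_mul_right P ha hb (neg_ne_zero.2 ha), hs_neg P ha, add_zero]
  have h3 : b * (-a) = -(a * b) := by ring
  have h4 : -(a * b) ≠ 0 := neg_ne_zero.2 (mul_ne_zero ha hb)
  have h5 : Even (ord P (-(a * b))) := by
    rw [ord_neg, ord_mul P ha hb]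
    exact ha'.add_odd hb'
  rw [h1, h3, hs_symm P ha h4, hs_even h2 h4 ha h5]
  have h6 : ((ord P a : ℤ) : ZMod 2) = 1 := by
    apply odd_zmod2
    intro h
    rw [ZMod.intCast_zmod_eq_zero_iff_dvd] at h
    rw [← Int.not_even_iff_odd] at ha'
    exact ha' (even_iff_two_dvd.2 h)
  rw [h6, one_mul]

end

end Pool.Agent.H98.MF
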