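import Pool.Agent.H98.MF.L.Idx

/-!
# Project MK4, block L: the Hilbert symbol is bilinear, symmetric and nondegenerate
-/

set_option autoImplicit false

open scoped BigOperators Pointwise
open NumberField IsDedekindDomain

namespace Pool.Agent.H98.MF

section

variable {k : Type} [Field k] [NumberField k]

theorem hs_eq_zero (P : HeightOneSpectrum (𝓞 k)) (a b : k) : hs P a b = 0 ↔ LocNm P a b := by
  unfold hs
  split_ifs with h
  · exact ⟨fun _ => h, fun _ => rfl⟩
  · exact ⟨fun h1 => absurd h1 one_ne_zero, fun h1 => absurd h1 h⟩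

theorem hs_eq_one (P : HeightOneSpectrum (𝓞 k)) {a b : k} (h : ¬ LocNm P a b) : hs P a b = 1 :=
  if_neg h

theorem hs_symm (P : HeightOneSpectrum (𝓞 k)) {a b : k} (ha : a ≠ 0) (hb : b ≠ 0) :
    hs P a b = hs P b a := by
  by_cases h : LocNm P a b
  · rw [(hs_eq_zero P a b).2 h, (hs_eq_zero P b a).2 ((locNm_symm P ha hb).1 h)]
  · rw [hs_eq_one P h, hs_eq_one P fun h1 => h ((locNm_symm P ha hb).2 h1)]

theorem hs_mul_right (P : HeightOneSpectrum (𝓞 k)) {a b c : k} (ha : a ≠ 0) (hb : b ≠ 0)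
    (hc : c ≠ 0) : hs P a (b * c) = hs P a b + hs P a c := by
  by_cases hs' : LocSq P a
  · rw [(hs_eq_zero P a b).2 (hs'.locNm_left hb), (hs_eq_zero P a c).2 (hs'.locNm_left hc),
      (hs_eq_zero P a (b * c)).2 (hs'.locNm_left (mul_ne_zero hb hc)), add_zero]
  · by_cases h1 : LocNm P a b
    · by_cases h2 : LocNm P a c
      · rw [(hs_eq_zero P a b).2 h1, (hs_eq_zero P a c).2 h2,
          (hs_eq_zero P a (b * c)).2 (h1.mul h2), add_zero]
      · have h3 : ¬ LocNm P a (b * c) := by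
          intro h
          apply h2
          have h4 := h1.inv.mul h
          rwa [inv_mul_cancel_left₀ hb] at h4
        rw [(hs_eq_zero P a b).2 h1, hs_eq_one P h2, hs_eq_one P h3, zero_add]
    · by_cases h2 : LocNm P a c
      · have h3 : ¬ LocNm P a (b * c) := by
          intro h
          apply h1
          have h4 := h.mul h2.inv
          rwa [mul_inv_cancel_right₀ hc] at h4
        rw [hs_eq_one P h1, (hs_eq_zero P a c).2 h2, hs_eq_one P h3, add_zero]
      · rw [hs_eq_one P h1, hs_eq_one P h2,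
          (hs_eq_zero P a (b * c)).2 ((loc_index P ha hs').2 b c hb hc h1 h2)]
        decide

theorem hs_mul_left (P : HeightOneSpectrum (𝓞 k)) {a b c : k} (ha : a ≠ 0) (hb : b ≠ 0)
    (hc : c ≠ 0) : hs P (a * b) c = hs P a c + hs P b c := by
  rw [hs_symm P (mul_ne_zero ha hb) hc, hs_mul_right P hc ha hb, hs_symm P hc ha, hs_symm P hc hb]

theorem LocSq.hs_left {P : HeightOneSpectrum (𝓞 k)} {a : k} (ha : LocSq P a) {b : k}
    (hb : b ≠ 0) : hs P a b = 0 := (hs_eq_zero P a b).2 (ha.locNm_left hb)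

theorem LocSq.hs_right {P : HeightOneSpectrum (𝓞 k)} {b : k} (hb : LocSq P b) (a : k) :
    hs P a b = 0 := (hs_eq_zero P a b).2 (hb.locNm_right a)

theorem hs_congr {P : HeightOneSpectrum (𝓞 k)} {a a' b b' : k} (ha : LocSq P (a * a'))
    (hb : LocSq P (b * b')) : hs P a b = hs P a' b' := by
  have h : LocNm P a b ↔ LocNm P a' b' := (locNm_congr_left ha b).trans (locNm_congr_right hb a')
  by_cases h1 : LocNm P a b
  · rw [(hs_eq_zero P a b).2 h1, (hs_eq_zero P a' b').2 (h.1 h1)]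
  · rw [hs_eq_one P h1, hs_eq_one P fun h2 => h1 (h.2 h2)]

theorem hs_nondeg (P : HeightOneSpectrum (𝓞 k)) {a : k} (ha : a ≠ 0)
    (h : ∀ b : k, b ≠ 0 → hs P a b = 0) : LocSq P a := by
  by_contra hn
  obtain ⟨b, hb, hb'⟩ := (loc_index P ha hn).1
  exact hb' ((hs_eq_zero P a b).1 (h b hb))

theorem hs_norm (P : HeightOneSpectrum (𝓞 k)) {a x y : k} (h : x ^ 2 - a * y ^ 2 ≠ 0) :
    hs P a (x ^ 2 - a * y ^ 2) = 0 := (hs_eq_zero P a _).2 (locNm_of_eq P x y h rfl)

theorem hs_neg (P : HeightOneSpectrum (𝓞 k)) {a : k} (ha : a ≠ 0) : hs P a (-a) = 0 :=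
  (hs_eq_zero P a _).2 (locNm_neg P ha)

theorem hs_self (P : HeightOneSpectrum (𝓞 k)) {a : k} (ha : a ≠ 0) : hs P a a = hs P a (-1) := by
  have h := hs_mul_right P ha (neg_ne_zero.2 (one_ne_zero (α := k))) (neg_ne_zero.2 ha)
  rw [neg_one_mul, neg_neg, hs_neg P ha, add_zero] at h
  exact h

theorem hs_one_right (P : HeightOneSpectrum (𝓞 k)) (a : k) : hs P a 1 = 0 := by
  have h := locSq_sq P (one_ne_zero (α := k))
  rw [one_pow] at h
  exact h.hs_right a

theorem hs_sum_right (P : HeightOneSpectrum (𝓞 k)) {a : k} (ha : a ≠ 0) {ι : Type} (s : Finset ι)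
    (b : ι → k) (hb : ∀ i ∈ s, b i ≠ 0) : hs P a (∏ i ∈ s, b i) = ∑ i ∈ s, hs P a (b i) := by
  classical
  induction s using Finset.induction_on with
  | empty => rw [Finset.prod_empty, Finset.sum_empty, hs_one_right]
  | insert i s hi ih =>
    have h1 : b i ≠ 0 := hb i (Finset.mem_insert_self i s)
    have h2 : ∀ j ∈ s, b j ≠ 0 := fun j hj => hb j (Finset.mem_insert_of_mem hj)
    rw [Finset.prod_insert hi, Finset.sum_insert hi,
      hs_mul_right P ha h1 (Finset.prod_ne_zero_iff.2 h2), ih h2]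

end

end Pool.Agent.H98.MF
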