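import Pool.Agent.H98.MF.L.KumA

/-!
# Project MK4, block L: coboundaries give norms
-/

set_option autoImplicit false

open scoped BigOperators Pointwise
open NumberField IsDedekindDomain

namespace Pool.Agent.H98.MF

section

variable {k : Type} [Field k] [NumberField k]

/-- the action on a square root -/
private theorem nc_act (a : k) (σ : Gm k) : σ (sq a) = kse (chi a σ) * sq a := by
  classical
  by_cases h : σ (sq a) = sq a
  · have h1 : chi a σ = 0 := by unfold chi; rw [if_pos h]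
    rw [h1, kse_zero, one_mul, h]
  · have h1 : chi a σ = 1 := by unfold chi; rw [if_neg h]
    rw [h1, kse_one, neg_one_mul]
    have h2 : σ (sq a) ^ 2 = sq a ^ 2 := by
      rw [← map_pow, sq_sq, σ.commutes]
    rcases sq_eq_sq_iff_eq_or_eq_neg.1 h2 with h3 | h3
    · exact absurd h3 h
    · exact h3

private theorem nc_ne {a : k} (ha : a ≠ 0) : sq a ≠ 0 := by
  intro h
  have h1 := sq_sq a
  rw [h] at h1
  have h2 : algebraMap k (Om k) a = 0 := by rw [← h1]; ring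
  exact ha ((map_eq_zero _).1 h2)

private theorem nc_map (σ : Gm k) (c : ZMod 2) : σ (kse c : Om k) = kse c :=
  kse_map ((σ : Om k ≃ₐ[k] Om k) : Om k →+* Om k) c

private theorem nc_hom {a : k} (ha : a ≠ 0) (σ τ : Gm k) :
    chi a (σ * τ) = chi a σ + chi a τ := by
  have h1 := nc_act a (σ * τ)
  rw [AlgEquiv.mul_apply, nc_act a τ, map_mul, nc_map, nc_act a σ, ← mul_assoc, ← kse_add] at h1
  have h2 : (kse (chi a τ + chi a σ) : Om k) = kse (chi a (σ * τ)) :=
    mul_right_cancel₀ (nc_ne ha) h1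
  rcases kse_cases (chi a τ + chi a σ) with h3 | h3 <;>
    rcases kse_cases (chi a (σ * τ)) with h4 | h4
  · rw [h4, add_comm, h3]
  · rw [h3, h4, kse_zero, kse_one] at h2
    exact absurd h2 (by norm_num)
  · rw [h3, h4, kse_zero, kse_one] at h2
    exact absurd h2 (by norm_num)
  · rw [h4, add_comm, h3]

theorem norm_of_cob (D : Subgroup (Gm k)) {a b : k} (ha : a ≠ 0) (hb : b ≠ 0)
    (h : Cob D a b) : ∃ x y : Om k, FixD D x ∧ FixD D y ∧
      algebraMap k (Om k) b = x ^ 2 - algebraMap k (Om k) a * y ^ 2 := by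
  classical
  set A := sq a with hA
  set B := sq b with hB
  have hA2 : A ^ 2 = algebraMap k (Om k) a := sq_sq a
  have hB2 : B ^ 2 = algebraMap k (Om k) b := sq_sq b
  have hA0 : A ≠ 0 := nc_ne ha
  have hB0 : B ≠ 0 := nc_ne hb
  have h2 : (2 : Om k) ≠ 0 := two_ne_zero
  by_cases hall : ∀ σ ∈ D, chi a σ = 0
  · refine ⟨(algebraMap k (Om k) b + 1) / 2, (algebraMap k (Om k) b - 1) / (2 * A), ?_, ?_, ?_⟩
    · intro σ _
      rw [map_div₀, map_add, σ.commutes, map_one, map_ofNat]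
    · intro σ hσ
      have h3 : σ A = A := by rw [hA, nc_act, hall σ hσ, kse_zero, one_mul]
      rw [map_div₀, map_sub, σ.commutes, map_one, map_mul, map_ofNat, h3]
    · rw [← hA2]
      field_simp
      ring
  push Not at hall
  obtain ⟨g, hg, hga⟩ := hall
  have hga1 : chi a g = 1 := (kse_cases _).resolve_left hga
  obtain ⟨f, hf, hfc⟩ := h
  let H : Subgroup (Gm k) := D ⊓ MulAction.stabilizer (Gm k) A
  have hHD : ∀ τ ∈ H, τ ∈ D := fun τ hτ => hτ.1
  have hHA : ∀ τ ∈ H, τ A = A := fun τ hτ => hτ.2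
  have hHc : ∀ τ ∈ H, chi a τ = 0 := by
    intro τ hτ
    have h3 : τ (sq a) = sq a := hHA τ hτ
    unfold chi
    rw [if_pos h3]
  have hHmk : ∀ τ ∈ D, chi a τ = 0 → τ ∈ H := by
    intro τ hτ h3
    refine ⟨hτ, ?_⟩
    show τ A = A
    rw [hA, nc_act, h3, kse_zero, one_mul]
  have hHf : ∀ σ ∈ H, ∀ τ ∈ H, f (σ * τ) = f σ + f τ := by
    intro σ hσ τ hτ
    rw [hfc σ (hHD σ hσ) τ (hHD τ hτ), hHc σ hσ, zero_mul, add_zero]
  obtain ⟨s, hs0, hs2, hs⟩ := kum_dec H f hf hHf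
  have hsa : ∀ τ ∈ H, τ s = kse (f τ) * s := by
    intro τ hτ
    rcases kse_cases (f τ) with h3 | h3
    · rw [h3, kse_zero, one_mul, (hs τ hτ).1 h3]
    · rw [h3, kse_one, neg_one_mul, (hs τ hτ).2 h3]
  have hgg : ∀ x : Om k, g (g⁻¹ x) = x := fun x => by
    rw [← AlgEquiv.mul_apply, mul_inv_cancel, AlgEquiv.one_apply]
  have hgg' : ∀ x : Om k, g⁻¹ (g x) = x := fun x => by
    rw [← AlgEquiv.mul_apply, inv_mul_cancel, AlgEquiv.one_apply]
  have hginv : chi a g⁻¹ = 1 := by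
    have h3 := nc_hom ha g g⁻¹
    have h4 : chi a (1 : Gm k) = 0 := by
      unfold chi; rw [if_pos (AlgEquiv.one_apply _)]
    rw [mul_inv_cancel, h4, hga1] at h3
    rcases kse_cases (chi a g⁻¹) with h5 | h5
    · rw [h5] at h3; exact absurd h3 (by decide)
    · exact h5
  have h11 : (1 : ZMod 2) + 1 = 0 := by decide
  have hconj : ∀ τ ∈ H, g * τ * g⁻¹ ∈ H := by
    intro τ hτ
    refine hHmk _ (mul_mem (mul_mem hg (hHD τ hτ)) (inv_mem hg)) ?_
    rw [nc_hom ha, nc_hom ha, hga1, hHc τ hτ, hginv, add_zero, h11]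
  have hconj' : ∀ τ ∈ H, g⁻¹ * τ * g ∈ H := by
    intro τ hτ
    refine hHmk _ (mul_mem (mul_mem (inv_mem hg) (hHD τ hτ)) hg) ?_
    rw [nc_hom ha, nc_hom ha, hga1, hHc τ hτ, hginv, add_zero, h11]
  have hfconj : ∀ τ ∈ H, f (g * τ * g⁻¹) = f τ + chi b τ := by
    intro τ hτ
    have e1 := hfc g hg τ (hHD τ hτ)
    have e2 := hfc (g * τ * g⁻¹) (hHD _ (hconj τ hτ)) g hg
    rw [hHc _ (hconj τ hτ), zero_mul, add_zero, inv_mul_cancel_right, e1, hga1, one_mul] at e2
    have e3 : f g + (f τ + chi b τ) = f g + f (g * τ * g⁻¹) := by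
      rw [← add_assoc, e2, add_comm]
    exact (add_left_cancel e3).symm
  have hg2 : g * g ∈ H := hHmk _ (mul_mem hg hg) (by rw [nc_hom ha, hga1, h11])
  have hfg2 : f (g * g) = chi b g := by
    rw [hfc g hg g hg, hga1, one_mul]
    rcases kse_cases (f g) with h3 | h3
    · rw [h3, add_zero, zero_add]
    · rw [h3, h11, zero_add]
  -- the element t
  have hBact : ∀ σ : Gm k, σ B = kse (chi b σ) * B := fun σ => nc_act b σ
  have hgs : ∀ τ ∈ H, τ (g⁻¹ s) = kse (f τ + chi b τ) * g⁻¹ s := by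
    intro τ hτ
    have e1 : τ (g⁻¹ s) = g⁻¹ ((g * τ * g⁻¹) s) := by
      rw [← AlgEquiv.mul_apply, ← AlgEquiv.mul_apply]
      congr 1
      group
    rw [e1, hsa _ (hconj τ hτ), map_mul, nc_map, hfconj τ hτ]
  -- g s and g⁻¹ s
  have hge : g s = kse (chi b g) * g⁻¹ s := by
    have e1 : (g * g) s = kse (chi b g) * s := by rw [hsa _ hg2, hfg2]
    rw [AlgEquiv.mul_apply] at e1
    have e2 := congrArg (fun x => g⁻¹ x) e1
    simp only [hgg', map_mul, nc_map] at e2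
    exact e2
  have hgis0 : g⁻¹ s ≠ 0 := fun h0 => hs0 ((map_eq_zero_iff (g⁻¹ : Gm k) (g⁻¹ : Gm k).injective).1 h0)
  -- w = s * g⁻¹ s / B
  set w : Om k := s * g⁻¹ s / B with hw
  have hw0 : w ≠ 0 := div_ne_zero (mul_ne_zero hs0 hgis0) hB0
  have hksq : ∀ c : ZMod 2, (kse c : Om k) * kse c = 1 := kse_mul_self
  have hwH : ∀ τ ∈ H, τ w = w := by
    intro τ hτ
    have e := hksq (f τ)
    have e' := hksq (chi b τ)
    have hne : (kse (chi b τ) : Om k) ≠ 0 := kse_ne _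
    rw [hw, map_div₀, map_mul, hsa τ hτ, hgs τ hτ, hBact τ, kse_add, div_eq_div_iff
      (mul_ne_zero hne hB0) hB0]
    calc kse (f τ) * s * (kse (f τ) * kse (chi b τ) * g⁻¹ s) * B
        = (kse (f τ) * kse (f τ)) * (s * g⁻¹ s * (kse (chi b τ) * B)) := by ring
      _ = s * g⁻¹ s * (kse (chi b τ) * B) := by rw [e, one_mul]
  have hwg : g w = w := by
    have e' := hksq (chi b g)
    have hne : (kse (chi b g) : Om k) ≠ 0 := kse_ne _
    rw [hw, map_div₀, map_mul, hgg, hge, hBact g, div_eq_div_iff (mul_ne_zero hne hB0) hB0]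
    ring
  -- u = s² / w
  set u : Om k := s ^ 2 / w with hu
  have huH : ∀ τ ∈ H, τ u = u := by
    intro τ hτ
    rw [hu, map_div₀, hs2 τ hτ, hwH τ hτ]
  have hgu : ∀ τ ∈ H, τ (g u) = g u := by
    intro τ hτ
    have e1 : τ (g u) = g ((g⁻¹ * τ * g) u) := by
      rw [← AlgEquiv.mul_apply, ← AlgEquiv.mul_apply]
      congr 1
      group
    rw [e1, huH _ (hconj' τ hτ)]
  have hggu : g (g u) = u := by
    rw [← AlgEquiv.mul_apply, huH _ hg2]
  have hprod : u * g u = algebraMap k (Om k) b := by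
    have e' := hksq (chi b g)
    rw [hu, map_div₀, hwg, map_pow, hge, ← hB2, hw]
    field_simp
    rw [pow_two]
    exact e'
  have hDcase : ∀ σ ∈ D, σ ∈ H ∨ g⁻¹ * σ ∈ H := by
    intro σ hσ
    rcases kse_cases (chi a σ) with h3 | h3
    · exact Or.inl (hHmk σ hσ h3)
    · refine Or.inr (hHmk _ (mul_mem (inv_mem hg) hσ) ?_)
      rw [nc_hom ha, hginv, h3, h11]
  have hfix : ∀ x : Om k, (∀ τ ∈ H, τ x = x) → g x = x → FixD D x := by
    intro x h3 h4 σ hσ
    rcases hDcase σ hσ with h5 | h5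
    · exact h3 σ h5
    · have e1 : σ x = g ((g⁻¹ * σ) x) := by
        rw [AlgEquiv.mul_apply, hgg]
      rw [e1, h3 _ h5, h4]
  have hgA : g A = -A := by
    rw [hA, nc_act, hga1, kse_one, neg_one_mul]
  refine ⟨(u + g u) / 2, (u - g u) / (2 * A), hfix _ ?_ ?_, hfix _ ?_ ?_, ?_⟩
  · intro τ hτ
    rw [map_div₀, map_add, huH τ hτ, hgu τ hτ, map_ofNat]
  · rw [map_div₀, map_add, hggu, map_ofNat, add_comm]
  · intro τ hτ
    rw [map_div₀, map_sub, huH τ hτ, hgu τ hτ, map_mul, map_ofNat, hHA τ hτ]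
  · rw [map_div₀, map_sub, hggu, map_mul, map_ofNat, hgA]
    field_simp
    ring
  · rw [← hprod, ← hA2]
    field_simp
    ring

end

end Pool.Agent.H98.MF
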