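import Pool.Agent.H98.MF.L.Sqr

/-! Project MK4, block L: local norms from the field of a square root -/

set_option autoImplicit false

open scoped BigOperators Pointwise
open NumberField IsDedekindDomain

namespace Pool.Agent.H98.MF

section

variable {k : Type} [Field k] [NumberField k]

theorem nm_two_nonneg (P : HeightOneSpectrum (𝓞 k)) : 0 ≤ ord P (2 : k) := by
  have h := ord_int_nonneg P (2 : 𝓞 k)
  have e : ((2 : 𝓞 k) : k) = 2 := map_ofNat _ 2
  rwa [e] at h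

/-- a multiple of a small element is small -/
theorem nm_small (P : HeightOneSpectrum (𝓞 k)) (d : k) (m : ℤ) :
    ∃ N : ℕ, 1 ≤ N ∧ ∀ t : k, (t = 0 ∨ (N : ℤ) ≤ ord P t) → (d * t = 0 ∨ m ≤ ord P (d * t)) := by
  by_cases hd : d = 0
  · exact ⟨1, le_rfl, fun t _ => Or.inl (by rw [hd, zero_mul])⟩
  refine ⟨(m - ord P d).toNat + 1, by omega, fun t ht => ?_⟩
  by_cases h0 : t = 0
  · left
    rw [h0, mul_zero]
  right
  rcases ht with ht | ht
  · exact absurd ht h0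
  rw [ord_mul P hd h0]
  push_cast at ht
  have := Int.self_le_toNat (m - ord P d)
  linarith

/-- an element within distance one of `1` is not zero -/
theorem nm_ne_zero (P : HeightOneSpectrum (𝓞 k)) {s : k} {N : ℕ} (hN : 1 ≤ N)
    (h : s = 1 ∨ (N : ℤ) ≤ ord P (s - 1)) : s ≠ 0 := by
  rintro rfl
  rcases h with h | h
  · exact zero_ne_one h
  · rw [zero_sub, ord_neg, ord_one] at h
    have : (1 : ℤ) ≤ (N : ℤ) := by exact_mod_cast hN
    linarith

theorem LocNm.ne_zero {P : HeightOneSpectrum (𝓞 k)} {a b : k} (h : LocNm P a b) : b ≠ 0 := by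
  obtain ⟨x, y, hxy⟩ := h 1
  have := nm_ne_zero P le_rfl hxy
  exact left_ne_zero_of_mul this

theorem locNm_iff (P : HeightOneSpectrum (𝓞 k)) (a b : k) :
    LocNm P a b ↔ ∃ x y : k, LocSq P (b * (x ^ 2 - a * y ^ 2)) := by
  constructor
  · intro h
    obtain ⟨x, y, hxy⟩ := h (2 * ord P (2 : k) + 1).toNat
    refine ⟨x, y, locSq_of_prec P 1 ?_⟩
    rw [one_pow, mul_one]
    rcases hxy with h1 | h1
    · exact Or.inl h1
    · exact Or.inr ((Int.self_le_toNat _).trans h1)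
  · rintro ⟨x, y, h⟩ n
    obtain ⟨c, hc⟩ := h n
    refine ⟨c * x, c * y, ?_⟩
    have e : b * ((c * x) ^ 2 - a * (c * y) ^ 2) = b * (x ^ 2 - a * y ^ 2) * c ^ 2 := by ring
    rw [e]
    exact hc

theorem locNm_of_eq (P : HeightOneSpectrum (𝓞 k)) {a b : k} (x y : k) (hb : b ≠ 0)
    (h : b = x ^ 2 - a * y ^ 2) : LocNm P a b := by
  intro n
  refine ⟨x / b, y / b, Or.inl ?_⟩
  have e : b * ((x / b) ^ 2 - a * (y / b) ^ 2) = (x ^ 2 - a * y ^ 2) / b := by
    field_simp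
  rw [e, ← h, div_self hb]

theorem LocNm.mul {P : HeightOneSpectrum (𝓞 k)} {a b c : k} (h : LocNm P a b)
    (h' : LocNm P a c) : LocNm P a (b * c) := by
  rw [locNm_iff] at h h' ⊢
  obtain ⟨x, y, h1⟩ := h
  obtain ⟨x', y', h2⟩ := h'
  refine ⟨x * x' + a * (y * y'), x * y' + x' * y, ?_⟩
  have e : b * c * ((x * x' + a * (y * y')) ^ 2 - a * (x * y' + x' * y) ^ 2) =
      b * (x ^ 2 - a * y ^ 2) * (c * (x' ^ 2 - a * y' ^ 2)) := by ring
  rw [e]
  exact h1.mul h2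

theorem LocNm.inv {P : HeightOneSpectrum (𝓞 k)} {a b : k} (h : LocNm P a b) :
    LocNm P a b⁻¹ := by
  have hb := h.ne_zero
  rw [locNm_iff] at h ⊢
  obtain ⟨x, y, h1⟩ := h
  refine ⟨b * x, b * y, ?_⟩
  have e : b⁻¹ * ((b * x) ^ 2 - a * (b * y) ^ 2) = b * (x ^ 2 - a * y ^ 2) := by
    field_simp
  rw [e]
  exact h1

theorem LocSq.locNm_left {P : HeightOneSpectrum (𝓞 k)} {a : k} (ha : LocSq P a) {b : k}
    (hb : b ≠ 0) : LocNm P a b := by
  rw [locNm_iff]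
  have ha0 := ha.ne_zero
  obtain ⟨N, hN, hs⟩ := nm_small P (-(b * ((b⁻¹ - 1) / 2) ^ 2)) (2 * ord P (2 : k) + 1)
  obtain ⟨c, hc⟩ := ha N
  have hc0 : a * c ^ 2 ≠ 0 := nm_ne_zero P hN hc
  have ht : a * c ^ 2 - 1 = 0 ∨ (N : ℤ) ≤ ord P (a * c ^ 2 - 1) := by
    rcases hc with h | h
    · exact Or.inl (sub_eq_zero.2 h)
    · exact Or.inr h
  refine ⟨(b⁻¹ + 1) / 2, (b⁻¹ - 1) / 2 * c, ?_⟩
  have e : b * (((b⁻¹ + 1) / 2) ^ 2 - a * ((b⁻¹ - 1) / 2 * c) ^ 2) =
      1 + -(b * ((b⁻¹ - 1) / 2) ^ 2) * (a * c ^ 2 - 1) := by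
    field_simp
    ring
  rw [e]
  exact locSq_one_add P (hs _ ht)

theorem LocSq.locNm_right {P : HeightOneSpectrum (𝓞 k)} {b : k} (hb : LocSq P b) (a : k) :
    LocNm P a b := by
  rw [locNm_iff]
  refine ⟨1, 0, ?_⟩
  have e : b * ((1 : k) ^ 2 - a * 0 ^ 2) = b := by ring
  rw [e]
  exact hb

theorem nm_congr (P : HeightOneSpectrum (𝓞 k)) {a a' : k} (h : LocSq P (a * a')) (b : k)
    (hn : LocNm P a b) : LocNm P a' b := by
  have haa := h.ne_zero
  have ha : a ≠ 0 := left_ne_zero_of_mul haa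
  rw [locNm_iff] at hn ⊢
  obtain ⟨x, y, h1⟩ := hn
  set s := b * (x ^ 2 - a * y ^ 2) with hsdef
  have hs0 : s ≠ 0 := h1.ne_zero
  obtain ⟨N, hN, hsm⟩ := nm_small P (-(b * a * y ^ 2 / s)) (2 * ord P (2 : k) + 1)
  obtain ⟨c, hc⟩ := h N
  have ht : a * a' * c ^ 2 - 1 = 0 ∨ (N : ℤ) ≤ ord P (a * a' * c ^ 2 - 1) := by
    rcases hc with h | h
    · exact Or.inl (sub_eq_zero.2 h)
    · exact Or.inr h
  refine ⟨x, y * a * c, ?_⟩
  have e : b * (x ^ 2 - a' * (y * a * c) ^ 2) =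
      s * (1 + -(b * a * y ^ 2 / s) * (a * a' * c ^ 2 - 1)) := by
    have e1 : s * (1 + -(b * a * y ^ 2 / s) * (a * a' * c ^ 2 - 1)) =
        s - b * a * y ^ 2 * (a * a' * c ^ 2 - 1) := by
      field_simp
      ring
    rw [e1, hsdef]
    ring
  rw [e]
  exact h1.mul (locSq_one_add P (hsm _ ht))

theorem locNm_congr_left {P : HeightOneSpectrum (𝓞 k)} {a a' : k} (h : LocSq P (a * a')) (b : k) :
    LocNm P a b ↔ LocNm P a' b :=
  ⟨nm_congr P h b, nm_congr P (by rwa [mul_comm] at h) b⟩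

theorem nm_congr_right (P : HeightOneSpectrum (𝓞 k)) {b b' : k} (h : LocSq P (b * b')) (a : k)
    (hn : LocNm P a b) : LocNm P a b' := by
  have h1 := hn.inv.mul (h.locNm_right a)
  rwa [← mul_assoc, inv_mul_cancel₀ hn.ne_zero, one_mul] at h1

theorem locNm_congr_right {P : HeightOneSpectrum (𝓞 k)} {b b' : k} (h : LocSq P (b * b')) (a : k) :
    LocNm P a b ↔ LocNm P a b' :=
  ⟨nm_congr_right P h a, nm_congr_right P (by rwa [mul_comm] at h) a⟩

theorem locNm_neg (P : HeightOneSpectrum (𝓞 k)) {a : k} (ha : a ≠ 0) : LocNm P a (-a) :=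
  locNm_of_eq P 0 1 (neg_ne_zero.2 ha) (by ring)

theorem nm_symm (P : HeightOneSpectrum (𝓞 k)) {a b : k} (ha : a ≠ 0) (hb : b ≠ 0)
    (h : LocNm P a b) : LocNm P b a := by
  have he := nm_two_nonneg P
  obtain ⟨x, y, hxy⟩ := h (4 * ord P (2 : k) + 1).toNat
  set ε := b * (x ^ 2 - a * y ^ 2) - 1 with hε
  have hε1 : ε = 0 ∨ 4 * ord P (2 : k) + 1 ≤ ord P ε := by
    rcases hxy with h1 | h1
    · exact Or.inl (by rw [hε]; exact sub_eq_zero.2 h1)
    · exact Or.inr ((Int.self_le_toNat _).trans h1)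
  by_cases hm : a * b * y ^ 2 = 0 ∨ 2 * ord P (2 : k) + 1 ≤ ord P (a * b * y ^ 2)
  · have h2 : ε + a * b * y ^ 2 = 0 ∨ 2 * ord P (2 : k) + 1 ≤ ord P (ε + a * b * y ^ 2) := by
      refine le_ord_add P _ ?_ hm
      rcases hε1 with h3 | h3
      · exact Or.inl h3
      · exact Or.inr (by linarith)
    have e : ε + a * b * y ^ 2 = b * x ^ 2 - 1 := by
      rw [hε]
      ring
    rw [e] at h2
    have h4 : LocSq P b := by
      refine locSq_of_prec P x ?_
      rcases h2 with h3 | h3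
      · exact Or.inl (sub_eq_zero.1 h3)
      · exact Or.inr h3
    exact h4.locNm_left ha
  · push Not at hm
    obtain ⟨h0, h1⟩ := hm
    have hy : y ≠ 0 := by
      rintro rfl
      exact h0 (by ring)
    rw [locNm_iff]
    refine ⟨b * x, 1, ?_⟩
    have e : a * ((b * x) ^ 2 - b * 1 ^ 2) = (1 + ε / (a * b * y ^ 2)) * (a * b * y) ^ 2 := by
      have e1 : (1 + ε / (a * b * y ^ 2)) * (a * b * y) ^ 2 =
          (a * b * y) ^ 2 + ε * (a * b) := by
        field_simp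
      rw [e1, hε]
      ring
    rw [e, locSq_mul_sq P (by
      exact mul_ne_zero (mul_ne_zero ha hb) hy)]
    apply locSq_one_add P
    by_cases hz : ε = 0
    · left
      rw [hz, zero_div]
    · right
      rcases hε1 with h3 | h3
      · exact absurd h3 hz
      · rw [div_eq_mul_inv, ord_mul P hz (inv_ne_zero h0), ord_inv]
        linarith

theorem locNm_symm (P : HeightOneSpectrum (𝓞 k)) {a b : k} (ha : a ≠ 0) (hb : b ≠ 0) :
    LocNm P a b ↔ LocNm P b a :=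
  ⟨nm_symm P ha hb, nm_symm P hb ha⟩

end

end Pool.Agent.H98.MF
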