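import Pool.Agent.H98.MF.L.Apx
import Pool.Agent.H98.MF.L.Nm
import Pool.Agent.H98.MF.L.ChiB

/-! Project MK4, block L, file SqD: square roots and norms in the fixed field -/

set_option autoImplicit false

open scoped BigOperators Pointwise
open NumberField IsDedekindDomain

namespace Pool.Agent.H98.MF

section

variable {k : Type} [Field k] [NumberField k]

/-- two elements with sum one are not both small -/
theorem sqd_add (P : HeightOneSpectrum (𝓞 k)) {a b : Om k} (h : a + b = 1) :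
    (a ≠ 0 ∧ InV P a⁻¹) ∨ (b ≠ 0 ∧ InV P b⁻¹) := by
  by_cases ha : a = 0
  · right
    rw [ha, zero_add] at h
    rw [h, inv_one]
    exact ⟨one_ne_zero, InV.one P⟩
  by_cases hb : b = 0
  · left
    rw [hb, add_zero] at h
    rw [h, inv_one]
    exact ⟨one_ne_zero, InV.one P⟩
  rcases InV.total P (div_ne_zero ha hb) with h1 | h1
  · right
    refine ⟨hb, ?_⟩
    have e : b⁻¹ = a / b + 1 := by
      field_simp
      exact h.symm
    rw [e]
    exact h1.add (InV.one P)
  · left
    refine ⟨ha, ?_⟩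
    have e : a⁻¹ = 1 + (a / b)⁻¹ := by
      rw [inv_div]
      field_simp
      exact h.symm
    rw [e]
    exact (InV.one P).add h1

theorem sqd_neg_inv (P : HeightOneSpectrum (𝓞 k)) {a : Om k} (h : InV P (-a)⁻¹) :
    InV P a⁻¹ := by
  rw [inv_neg] at h
  have := h.neg
  rwa [neg_neg] at this

theorem sqd_ord_two (P : HeightOneSpectrum (𝓞 k)) : 0 ≤ ord P (2 : k) := by
  have h := ord_int_nonneg P (2 : 𝓞 k)
  have e : ((2 : 𝓞 k) : k) = 2 := map_ofNat (algebraMap (𝓞 k) k) 2
  rwa [e] at h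

theorem sqd_ne_zero (P : HeightOneSpectrum (𝓞 k)) {d : k} (h : 1 ≤ ord P d) : d ≠ 0 := by
  intro h0
  rw [h0, ord_zero] at h
  omega

theorem sqd_map_ne {d : k} (h : d ≠ 0) : algebraMap k (Om k) d ≠ 0 := by
  rw [Ne, map_eq_zero]
  exact h

theorem sqrt_fix (P : HeightOneSpectrum (𝓞 k)) {x : Om k} (hfix : FixD (Dec P) x) {d : k}
    (hd : 2 * ord P (2 : k) + 1 ≤ ord P d)
    (hx : InV P ((x - 1) / algebraMap k (Om k) d)) : ∃ y : Om k, FixD (Dec P) y ∧ y ^ 2 = x := by
  have h2 := sqd_ord_two P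
  have hd1 : 1 ≤ ord P d := by omega
  have hd0 : d ≠ 0 := sqd_ne_zero P hd1
  have hD : algebraMap k (Om k) d ≠ 0 := sqd_map_ne hd0
  -- a square root with a small `(y - 1) / 2`
  have key : ∃ y : Om k, y ^ 2 = x ∧ ¬ ((y - 1) / 2 ≠ 0 ∧ InV P ((y - 1) / 2)⁻¹) := by
    obtain ⟨y, hy⟩ := IsAlgClosed.exists_pow_nat_eq x (n := 2) two_pos
    by_cases hu : (y - 1) / 2 ≠ 0 ∧ InV P ((y - 1) / 2)⁻¹
    · refine ⟨-y, by rw [neg_sq]; exact hy, ?_⟩
      rintro ⟨hv0, hv⟩
      have e1 : ((-y - 1) / 2 : Om k) = -((y + 1) / 2) := by ring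
      rw [e1] at hv0 hv
      have hv0' : (y + 1) / 2 ≠ 0 := fun h => hv0 (by rw [h, neg_zero])
      have hv' := sqd_neg_inv P hv
      have h3 := (hu.2.mul hv').mul hx
      have hy1 : y - 1 ≠ 0 := fun h => hu.1 (by rw [h, zero_div])
      have hy2 : y + 1 ≠ 0 := fun h => hv0' (by rw [h, zero_div])
      have e2 : ((y - 1) / 2)⁻¹ * ((y + 1) / 2)⁻¹ * ((x - 1) / algebraMap k (Om k) d) =
          algebraMap k (Om k) (2 ^ 2 * d⁻¹) := by
        rw [map_mul, map_pow, map_inv₀, map_ofNat, ← hy]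
        have e3 : (y ^ 2 - 1 : Om k) = (y - 1) * (y + 1) := by ring
        rw [e3]
        field_simp
        try ring
      rw [e2, inV_base, ord_mul P (pow_ne_zero 2 two_ne_zero) (inv_ne_zero hd0), ord_pow,
        ord_inv] at h3
      push_cast at h3
      omega
    · exact ⟨y, hy, hu⟩
  obtain ⟨y, hy, hsm⟩ := key
  refine ⟨y, ?_, hy⟩
  intro σ hσ
  have h4 : (σ y) ^ 2 = y ^ 2 := by
    rw [← map_pow, hy, hfix σ hσ]
  rcases sq_eq_sq_iff_eq_or_eq_neg.1 h4 with h5 | h5
  · exact h5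
  · exfalso
    have e4 : (-((y - 1) / 2) : Om k) + -σ ((y - 1) / 2) = 1 := by
      rw [map_div₀, map_sub, h5, map_one, map_ofNat]
      field_simp
      ring
    rcases sqd_add P e4 with ⟨h6, h7⟩ | ⟨h6, h7⟩
    · exact hsm ⟨fun h => h6 (by rw [h, neg_zero]), sqd_neg_inv P h7⟩
    · refine hsm ⟨fun h => h6 (by rw [h, map_zero, neg_zero]), ?_⟩
      have h8 := sqd_neg_inv P h7
      rw [← map_inv₀, inV_dec hσ] at h8
      exact h8

theorem sqd_fix_map (P : HeightOneSpectrum (𝓞 k)) (a : k) :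
    FixD (Dec P) (algebraMap k (Om k) a) := fun σ _ => σ.commutes a

theorem sqd_fix_mul {D : Subgroup (Gm k)} {x y : Om k} (hx : FixD D x) (hy : FixD D y) :
    FixD D (x * y) := fun σ hσ => by rw [map_mul, hx σ hσ, hy σ hσ]

theorem sqd_fix_div {D : Subgroup (Gm k)} {x y : Om k} (hx : FixD D x) (hy : FixD D y) :
    FixD D (x / y) := fun σ hσ => by rw [map_div₀, hx σ hσ, hy σ hσ]

theorem fix_sqclass (P : HeightOneSpectrum (𝓞 k)) {x : Om k} (hx : x ≠ 0)
    (hfix : FixD (Dec P) x) : ∃ (c : k) (y : Om k), c ≠ 0 ∧ y ≠ 0 ∧ FixD (Dec P) y ∧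
      x = algebraMap k (Om k) c * y ^ 2 := by
  obtain ⟨c, d, hc, hd, hn, hV⟩ := dec_apx P hx hfix (2 * ord P (2 : k) + 1).toNat
  have hd' : 2 * ord P (2 : k) + 1 ≤ ord P d := (Int.self_le_toNat _).trans hn
  obtain ⟨y, hy, hy2⟩ := sqrt_fix P (sqd_fix_div hfix (sqd_fix_map P c)) hd' hV
  have hC := sqd_map_ne hc
  refine ⟨c, y, hc, ?_, hy, ?_⟩
  · intro h
    rw [h, zero_pow two_ne_zero] at hy2
    exact div_ne_zero hx hC hy2.symm
  · rw [hy2]
    field_simp

/-- an approximation of precision `d` -/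
theorem sqd_sq_apx (P : HeightOneSpectrum (𝓞 k)) {x : Om k} {c d : k} (hc : c ≠ 0) (hd : d ≠ 0)
    (hd1 : 0 ≤ ord P d)
    (hV : InV P ((x / algebraMap k (Om k) c - 1) / algebraMap k (Om k) d)) :
    InV P ((x ^ 2 / algebraMap k (Om k) (c ^ 2) - 1) / algebraMap k (Om k) d) := by
  have hC := sqd_map_ne hc
  have hD := sqd_map_ne hd
  set t := (x / algebraMap k (Om k) c - 1) / algebraMap k (Om k) d with ht
  have e1 : x = algebraMap k (Om k) c * (1 + algebraMap k (Om k) d * t) := by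
    rw [ht]; field_simp; ring
  have e2 : (x ^ 2 / algebraMap k (Om k) (c ^ 2) - 1) / algebraMap k (Om k) d =
      algebraMap k (Om k) 2 * t + algebraMap k (Om k) d * (t * t) := by
    rw [e1, map_pow, map_ofNat]
    field_simp
    ring
  rw [e2]
  exact ((inV_base.2 (sqd_ord_two P)).mul hV).add ((inV_base.2 hd1).mul (hV.mul hV))

theorem locSq_iff_fix (P : HeightOneSpectrum (𝓞 k)) {a : k} (ha : a ≠ 0) :
    LocSq P a ↔ ∃ y : Om k, FixD (Dec P) y ∧ y ^ 2 = algebraMap k (Om k) a := by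
  have h2 := sqd_ord_two P
  constructor
  · intro h
    obtain ⟨c, hc⟩ := h (2 * ord P (2 : k) + 1).toNat
    rcases hc with hc | hc
    · have hc0 : c ≠ 0 := by
        intro h0
        rw [h0, zero_pow two_ne_zero, mul_zero] at hc
        exact zero_ne_one hc
      refine ⟨algebraMap k (Om k) c⁻¹, sqd_fix_map P _, ?_⟩
      rw [← map_pow]
      congr 1
      rw [inv_pow]
      exact (eq_inv_of_mul_eq_one_left hc).symm
    · have hc1 : 2 * ord P (2 : k) + 1 ≤ ord P (a * c ^ 2 - 1) := (Int.self_le_toNat _).trans hc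
      have hc2 : 1 ≤ ord P (a * c ^ 2 - 1) := by omega
      have ht := sqd_ne_zero P hc2
      have hc0 : c ≠ 0 := by
        intro h0
        rw [h0, zero_pow two_ne_zero, mul_zero, zero_sub, ord_neg, ord_one] at hc2
        omega
      have hV : InV P ((algebraMap k (Om k) (a * c ^ 2) - 1) /
          algebraMap k (Om k) (a * c ^ 2 - 1)) := by
        have e : algebraMap k (Om k) (a * c ^ 2) - 1 = algebraMap k (Om k) (a * c ^ 2 - 1) := by
          rw [map_sub, map_one]
        rw [e, div_self (sqd_map_ne ht)]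
        exact InV.one P
      obtain ⟨y, hy, hy2⟩ := sqrt_fix P (sqd_fix_map P (a * c ^ 2)) hc1 hV
      refine ⟨y / algebraMap k (Om k) c, sqd_fix_div hy (sqd_fix_map P c), ?_⟩
      have hC := sqd_map_ne hc0
      rw [div_pow, hy2, map_mul, map_pow]
      field_simp
  · rintro ⟨y, hy, hy2⟩
    have hy0 : y ≠ 0 := by
      intro h
      rw [h, zero_pow two_ne_zero] at hy2
      exact sqd_map_ne ha hy2.symm
    obtain ⟨c, d, hc, hd, hn, hV⟩ := dec_apx P hy0 hy (2 * ord P (2 : k) + 1).toNat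
    have hd' : 2 * ord P (2 : k) + 1 ≤ ord P d := (Int.self_le_toNat _).trans hn
    have h3 := sqd_sq_apx P hc hd (by omega) hV
    have e : (y ^ 2 / algebraMap k (Om k) (c ^ 2) - 1) / algebraMap k (Om k) d =
        algebraMap k (Om k) ((a * c⁻¹ ^ 2 - 1) * d⁻¹) := by
      rw [hy2, map_mul, map_sub, map_mul, map_one, map_inv₀, map_pow, map_pow, map_inv₀, inv_pow,
        div_eq_mul_inv, div_eq_mul_inv]
    rw [e, inV_base] at h3
    refine locSq_of_prec P c⁻¹ ?_
    by_cases h4 : a * c⁻¹ ^ 2 - 1 = 0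
    · left
      exact sub_eq_zero.1 h4
    · right
      rw [ord_mul P h4 (inv_ne_zero hd), ord_inv] at h3
      omega

theorem dec_chi (P : HeightOneSpectrum (𝓞 k)) {a : k} (ha : a ≠ 0) :
    (∀ σ ∈ Dec P, chi a σ = 0) ↔ LocSq P a := by
  rw [locSq_iff_fix P ha]
  constructor
  · intro h
    exact ⟨sq a, fun σ hσ => (chi_eq_zero_iff (sq_sq a) σ).1 (h σ hσ), sq_sq a⟩
  · rintro ⟨y, hy, hy2⟩ σ hσ
    exact (chi_eq_zero_iff hy2 σ).2 (hy σ hσ)

/-- the approximating element has the order of `x` -/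
theorem sqd_unit (P : HeightOneSpectrum (𝓞 k)) {x : Om k} {c d : k}
    (hd : 1 ≤ ord P d) (hV : InV P ((x / algebraMap k (Om k) c - 1) / algebraMap k (Om k) d)) :
    InV P (x / algebraMap k (Om k) c) ∧ InV P (x / algebraMap k (Om k) c)⁻¹ := by
  have hd0 := sqd_ne_zero P hd
  have hD := sqd_map_ne hd0
  set t := (x / algebraMap k (Om k) c - 1) / algebraMap k (Om k) d with ht
  have e1 : x / algebraMap k (Om k) c = 1 + algebraMap k (Om k) d * t := by
    rw [ht]; field_simp; ring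
  rw [e1]
  have hdV : InV P (algebraMap k (Om k) d) := inV_base.2 (by omega)
  refine ⟨(InV.one P).add (hdV.mul hV), ?_⟩
  have e2 : (1 + algebraMap k (Om k) d * t) + -(algebraMap k (Om k) d * t) = 1 := by ring
  rcases sqd_add P e2 with ⟨-, h1⟩ | ⟨h0, h1⟩
  · exact h1
  · exfalso
    have h2 := (sqd_neg_inv P h1).mul hV
    have ht0 : t ≠ 0 := fun h => h0 (by rw [h, mul_zero, neg_zero])
    have e3 : (algebraMap k (Om k) d * t)⁻¹ * t = algebraMap k (Om k) d⁻¹ := by
      rw [map_inv₀]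
      field_simp
    rw [e3, inV_base, ord_inv] at h2
    omega

theorem sqd_ord_eq (P : HeightOneSpectrum (𝓞 k)) {x : Om k} (hx : x ≠ 0) {c c' : k} (hc : c ≠ 0)
    (hc' : c' ≠ 0) (h : InV P (x / algebraMap k (Om k) c) ∧ InV P (x / algebraMap k (Om k) c)⁻¹)
    (h' : InV P (x / algebraMap k (Om k) c') ∧ InV P (x / algebraMap k (Om k) c')⁻¹) :
    ord P c = ord P c' := by
  have hC := sqd_map_ne hc
  have hC' := sqd_map_ne hc'
  have h1 := h.1.mul h'.2
  have h2 := h.2.mul h'.1
  have e1 : x / algebraMap k (Om k) c * (x / algebraMap k (Om k) c')⁻¹ =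
      algebraMap k (Om k) (c' * c⁻¹) := by
    rw [map_mul, map_inv₀]
    field_simp
  have e2 : (x / algebraMap k (Om k) c)⁻¹ * (x / algebraMap k (Om k) c') =
      algebraMap k (Om k) (c * c'⁻¹) := by
    rw [map_mul, map_inv₀]
    field_simp
  rw [e1, inV_base, ord_mul P hc' (inv_ne_zero hc), ord_inv] at h1
  rw [e2, inV_base, ord_mul P hc (inv_ne_zero hc'), ord_inv] at h2
  omega

/-- approximation with control of the order -/
theorem sqd_apx (P : HeightOneSpectrum (𝓞 k)) {x : Om k} (hx : x ≠ 0) (hfix : FixD (Dec P) x) :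
    ∃ A : ℤ, ∀ n : ℕ, ∃ c d : k, c ≠ 0 ∧ d ≠ 0 ∧ (n : ℤ) ≤ ord P d ∧ 0 ≤ ord P d ∧ ord P c = A ∧
      InV P ((x ^ 2 / algebraMap k (Om k) (c ^ 2) - 1) / algebraMap k (Om k) d) := by
  obtain ⟨c₀, d₀, hc₀, hd₀, hn₀, hV₀⟩ := dec_apx P hx hfix 1
  refine ⟨ord P c₀, fun n => ?_⟩
  obtain ⟨c, d, hc, hd, hn, hV⟩ := dec_apx P hx hfix (n + 1)
  push_cast at hn
  push_cast at hn₀
  have h1 : 1 ≤ ord P d := by omega
  refine ⟨c, d, hc, hd, by omega, by omega, ?_, sqd_sq_apx P hc hd (by omega) hV⟩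
  exact sqd_ord_eq P hx hc hc₀ (sqd_unit P h1 hV) (sqd_unit P hn₀ hV₀)

theorem locNm_iff_fix (P : HeightOneSpectrum (𝓞 k)) {a b : k} (hb : b ≠ 0) :
    LocNm P a b ↔ ∃ x y : Om k, FixD (Dec P) x ∧ FixD (Dec P) y ∧
      algebraMap k (Om k) b = x ^ 2 - algebraMap k (Om k) a * y ^ 2 := by
  have hB := sqd_map_ne hb
  constructor
  · intro h
    obtain ⟨X, Y, hXY⟩ := (locNm_iff P a b).1 h
    have h0 := hXY.ne_zero
    have hN : X ^ 2 - a * Y ^ 2 ≠ 0 := right_ne_zero_of_mul h0
    obtain ⟨w, hw, hw2⟩ := (locSq_iff_fix P h0).1 hXY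
    set n := X ^ 2 - a * Y ^ 2 with hn
    have hN' := sqd_map_ne hN
    refine ⟨w * algebraMap k (Om k) (X / n), w * algebraMap k (Om k) (Y / n),
      sqd_fix_mul hw (sqd_fix_map P _), sqd_fix_mul hw (sqd_fix_map P _), ?_⟩
    have e : (w * algebraMap k (Om k) (X / n)) ^ 2 -
        algebraMap k (Om k) a * (w * algebraMap k (Om k) (Y / n)) ^ 2 =
        w ^ 2 * algebraMap k (Om k) ((X ^ 2 - a * Y ^ 2) / n ^ 2) := by
      simp only [map_div₀, map_sub, map_mul, map_pow]
      field_simp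
    rw [e, hw2, ← hn, ← map_mul]
    congr 1
    field_simp
  · rintro ⟨x, y, hx, hy, he⟩
    have hsq : ∀ c : k, c ≠ 0 → ∀ z : Om k, FixD (Dec P) z → algebraMap k (Om k) c = z ^ 2 →
        LocSq P c := fun c hc z hz h => (locSq_iff_fix P hc).2 ⟨z, hz, h.symm⟩
    by_cases hay : algebraMap k (Om k) a * y ^ 2 = 0
    · rw [hay, sub_zero] at he
      exact (hsq b hb x hx he).locNm_right a
    have ha : a ≠ 0 := by
      intro h
      exact hay (by rw [h, map_zero, zero_mul])
    have hA := sqd_map_ne ha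
    have hy0 : y ≠ 0 := by
      intro h
      exact hay (by rw [h, zero_pow two_ne_zero, mul_zero])
    by_cases hx0 : x = 0
    · have h1 : algebraMap k (Om k) (-b / a) = y ^ 2 := by
        rw [map_div₀, map_neg, he, hx0]
        field_simp
        ring
      have h2 := hsq (-b / a) (div_ne_zero (neg_ne_zero.2 hb) ha) y hy h1
      have h3 := (locNm_neg P ha).mul (h2.locNm_right a)
      have e : -a * (-b / a) = b := by field_simp
      rwa [e] at h3
    -- the main case
    obtain ⟨α, hα⟩ := sqd_apx P hx0 hx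
    obtain ⟨β, hβ⟩ := sqd_apx P hy0 hy
    set m : ℤ := 2 * ord P (2 : k) + 1 with hm
    set n : ℕ := (max (ord P b + m - 2 * α) (ord P b + m - (ord P a + 2 * β))).toNat with hn
    have hn1 : ord P b + m - 2 * α ≤ n := (le_max_left _ _).trans (Int.self_le_toNat _)
    have hn2 : ord P b + m - (ord P a + 2 * β) ≤ n := (le_max_right _ _).trans (Int.self_le_toNat _)
    obtain ⟨c, d, hc, hd, hnd, hd0, hcα, hV⟩ := hα n
    obtain ⟨c', d', hc', hd', hnd', hd0', hcβ, hV'⟩ := hβ n
    set s := (x ^ 2 / algebraMap k (Om k) (c ^ 2) - 1) / algebraMap k (Om k) d with hs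
    set s' := (y ^ 2 / algebraMap k (Om k) (c' ^ 2) - 1) / algebraMap k (Om k) d' with hs'
    have hC := sqd_map_ne (pow_ne_zero 2 hc)
    have hC' := sqd_map_ne (pow_ne_zero 2 hc')
    have hD := sqd_map_ne hd
    have hD' := sqd_map_ne hd'
    have ex : x ^ 2 = algebraMap k (Om k) (c ^ 2) * (1 + algebraMap k (Om k) d * s) := by
      rw [hs]; field_simp; ring
    have ey : y ^ 2 = algebraMap k (Om k) (c' ^ 2) * (1 + algebraMap k (Om k) d' * s') := by
      rw [hs']; field_simp; ring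
    set N : k := c ^ 2 - a * c' ^ 2 with hN
    set g : k := c ^ 2 * d with hg
    set g' : k := a * c' ^ 2 * d' with hg'
    have hg0 : g ≠ 0 := mul_ne_zero (pow_ne_zero 2 hc) hd
    have hg0' : g' ≠ 0 := mul_ne_zero (mul_ne_zero ha (pow_ne_zero 2 hc')) hd'
    have hgo : ord P b + m ≤ ord P g := by
      rw [hg, ord_mul P (pow_ne_zero 2 hc) hd, ord_pow, hcα]
      push_cast
      omega
    have hgo' : ord P b + m ≤ ord P g' := by
      rw [hg', ord_mul P (mul_ne_zero ha (pow_ne_zero 2 hc')) hd',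
        ord_mul P ha (pow_ne_zero 2 hc'), ord_pow, hcβ]
      push_cast
      omega
    have hdiff : algebraMap k (Om k) (b - N) =
        algebraMap k (Om k) g * s - algebraMap k (Om k) g' * s' := by
      rw [map_sub, he, ex, ey, hN, hg, hg']
      simp only [map_sub, map_mul]
      ring
    clear_value g g'
    have hfin : b - N = 0 ∨ ord P b + m ≤ ord P (b - N) := by
      by_cases h0 : b - N = 0
      · left; exact h0
      right
      rcases le_total (ord P g) (ord P g') with hle | hle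
      · have h1 : InV P (algebraMap k (Om k) ((b - N) * g⁻¹)) := by
          have e : algebraMap k (Om k) ((b - N) * g⁻¹) =
              s - algebraMap k (Om k) (g' * g⁻¹) * s' := by
            rw [map_mul, hdiff, map_mul, map_inv₀]
            have := sqd_map_ne hg0
            field_simp
          rw [e]
          refine hV.sub ((inV_base.2 ?_).mul hV')
          rw [ord_mul P hg0' (inv_ne_zero hg0), ord_inv]
          omega
        rw [inV_base, ord_mul P h0 (inv_ne_zero hg0), ord_inv] at h1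
        omega
      · have h1 : InV P (algebraMap k (Om k) ((b - N) * g'⁻¹)) := by
          have e : algebraMap k (Om k) ((b - N) * g'⁻¹) =
              algebraMap k (Om k) (g * g'⁻¹) * s - s' := by
            rw [map_mul, hdiff, map_mul, map_inv₀]
            have := sqd_map_ne hg0'
            field_simp
          rw [e]
          refine ((inV_base.2 ?_).mul hV).sub hV'
          rw [ord_mul P hg0 (inv_ne_zero hg0'), ord_inv]
          omega
        rw [inV_base, ord_mul P h0 (inv_ne_zero hg0'), ord_inv] at h1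
        omega
    -- conclusion
    rw [locNm_iff]
    refine ⟨c, c', ?_⟩
    have h1 : LocSq P (1 + (-(b - N)) * b⁻¹) := by
      refine locSq_one_add P ?_
      rcases hfin with h | h
      · left
        rw [h, neg_zero, zero_mul]
      · by_cases h0 : b - N = 0
        · left
          rw [h0, neg_zero, zero_mul]
        · right
          rw [ord_mul P (neg_ne_zero.2 h0) (inv_ne_zero hb), ord_neg, ord_inv]
          omega
    have e : b * (c ^ 2 - a * c' ^ 2) = (1 + (-(b - N)) * b⁻¹) * b ^ 2 := by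
      rw [← hN]
      field_simp
      ring
    rw [e, locSq_mul_sq P hb]
    exact h1

end

end Pool.Agent.H98.MF
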