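import Pool.Agent.H98.MF.L.CobN
import Pool.Agent.H98.MF.L.NCob
import Pool.Agent.H98.MF.L.Hs
import Pool.Agent.H98.MF.L.SqD

/-! Project MK4, block L, file TrivI: sums of cup products on the decomposition group -/

set_option autoImplicit false

open scoped BigOperators Pointwise
open NumberField IsDedekindDomain

namespace Pool.Agent.H98.MF

section

variable {k : Type} [Field k] [NumberField k]

theorem cob_iff (P : HeightOneSpectrum (𝓞 k)) {a b : k} (ha : a ≠ 0) (hb : b ≠ 0) :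
    Cob (Dec P) a b ↔ hs P a b = 0 := by
  rw [hs_eq_zero, locNm_iff_fix P hb]
  constructor
  · exact norm_of_cob (Dec P) ha hb
  · rintro ⟨x, y, hx, hy, h⟩
    exact cob_of_norm (Dec P) ha hb hx hy h

/-- coboundaries on a subgroup -/
def TrB (D : Subgroup (Gm k)) (c : Gm k → Gm k → ZMod 2) : Prop :=
  ∃ f : Gm k → ZMod 2, IsLocallyConstant f ∧ ∀ σ ∈ D, ∀ τ ∈ D,
    f (σ * τ) = f σ + f τ + c σ τ

theorem TrB.add {D : Subgroup (Gm k)} {c c' : Gm k → Gm k → ZMod 2} (h : TrB D c)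
    (h' : TrB D c') : TrB D fun σ τ => c σ τ + c' σ τ := by
  obtain ⟨f, hf, h1⟩ := h
  obtain ⟨g, hg, h2⟩ := h'
  refine ⟨fun σ => f σ + g σ, hf.comp₂ hg _, fun σ hσ τ hτ => ?_⟩
  show f (σ * τ) + g (σ * τ) = f σ + g σ + (f τ + g τ) + (c σ τ + c' σ τ)
  rw [h1 σ hσ τ hτ, h2 σ hσ τ hτ]
  ring

theorem TrB.congr {D : Subgroup (Gm k)} {c c' : Gm k → Gm k → ZMod 2} (h : TrB D c)
    (hc : ∀ σ τ, c' σ τ = c σ τ) : TrB D c' := by
  obtain ⟨f, hf, h1⟩ := h
  exact ⟨f, hf, fun σ hσ τ hτ => by rw [hc]; exact h1 σ hσ τ hτ⟩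

theorem trB_zero (D : Subgroup (Gm k)) : TrB D fun _ _ => 0 :=
  ⟨fun _ => 0, IsLocallyConstant.const 0, fun _ _ _ _ => by simp⟩

theorem zmod2_cases (x : ZMod 2) : x = 0 ∨ x = 1 := by
  revert x; decide

theorem zmod2_add_self (x : ZMod 2) : x + x = 0 := by
  revert x; decide

/-- linkage of two nontrivial symbols -/
theorem trB_link (P : HeightOneSpectrum (𝓞 k)) {a b c d : k} (ha : a ≠ 0) (hb : b ≠ 0)
    (hc : c ≠ 0) (hd : d ≠ 0) (h1 : hs P a b = 1) (h2 : hs P c d = 1) :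
    TrB (Dec P) fun σ τ => chi a σ * chi b τ + chi c σ * chi d τ := by
  have key : ∃ e : k, e ≠ 0 ∧ hs P a e = 1 ∧ hs P c e = 1 := by
    rcases zmod2_cases (hs P c b) with h3 | h3
    · rcases zmod2_cases (hs P a d) with h4 | h4
      · refine ⟨b * d, mul_ne_zero hb hd, ?_, ?_⟩
        · rw [hs_mul_right P ha hb hd, h1, h4, add_zero]
        · rw [hs_mul_right P hc hb hd, h3, h2, zero_add]
      · exact ⟨d, hd, h4, h2⟩
    · exact ⟨b, hb, h1, h3⟩
  obtain ⟨e, he, h3, h4⟩ := key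
  have c1 : TrB (Dec P) fun σ τ => chi a σ * chi (b * e) τ :=
    (cob_iff P ha (mul_ne_zero hb he)).2 (by
      rw [hs_mul_right P ha hb he, h1, h3]; exact zmod2_add_self 1)
  have c2 : TrB (Dec P) fun σ τ => chi c σ * chi (d * e) τ :=
    (cob_iff P hc (mul_ne_zero hd he)).2 (by
      rw [hs_mul_right P hc hd he, h2, h4]; exact zmod2_add_self 1)
  have c3 : TrB (Dec P) fun σ τ => chi (a * c) σ * chi e τ :=
    (cob_iff P (mul_ne_zero ha hc) he).2 (by
      rw [hs_mul_left P ha hc he, h3, h4]; exact zmod2_add_self 1)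
  refine ((c1.add c2).add c3).congr fun σ τ => ?_
  show chi a σ * chi b τ + chi c σ * chi d τ =
    chi a σ * chi (b * e) τ + chi c σ * chi (d * e) τ + chi (a * c) σ * chi e τ
  rw [chi_mul hb he, chi_mul hd he, chi_mul ha hc]
  have e1 := zmod2_add_self (chi a σ * chi e τ)
  have e2 := zmod2_add_self (chi c σ * chi e τ)
  calc chi a σ * chi b τ + chi c σ * chi d τ
      = chi a σ * chi b τ + chi c σ * chi d τ + (chi a σ * chi e τ + chi a σ * chi e τ) +
          (chi c σ * chi e τ + chi c σ * chi e τ) := by rw [e1, e2, add_zero, add_zero]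
    _ = _ := by ring

theorem trB_sum (P : HeightOneSpectrum (𝓞 k)) {ι : Type} (s : Finset ι) (a b : ι → k)
    (ha : ∀ i, a i ≠ 0) (hb : ∀ i, b i ≠ 0) :
    (∑ i ∈ s, hs P (a i) (b i) = 0 ∧
      TrB (Dec P) fun σ τ => ∑ i ∈ s, chi (a i) σ * chi (b i) τ) ∨
    (∑ i ∈ s, hs P (a i) (b i) = 1 ∧ ∃ c d : k, c ≠ 0 ∧ d ≠ 0 ∧ hs P c d = 1 ∧
      TrB (Dec P) fun σ τ => ∑ i ∈ s, chi (a i) σ * chi (b i) τ + chi c σ * chi d τ) := by
  classical
  induction s using Finset.induction_on with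
  | empty =>
    left
    exact ⟨by simp, (trB_zero (Dec P)).congr fun σ τ => by simp⟩
  | insert i s hi ih =>
    rcases zmod2_cases (hs P (a i) (b i)) with h0 | h0
    · have c1 : TrB (Dec P) fun σ τ => chi (a i) σ * chi (b i) τ := (cob_iff P (ha i) (hb i)).2 h0
      rcases ih with ⟨h1, h2⟩ | ⟨h1, c, d, hc, hd, hcd, h2⟩
      · left
        refine ⟨by rw [Finset.sum_insert hi, h0, h1, add_zero], (c1.add h2).congr fun σ τ => ?_⟩
        rw [Finset.sum_insert hi]
      · right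
        refine ⟨by rw [Finset.sum_insert hi, h0, h1, zero_add], c, d, hc, hd, hcd,
          (c1.add h2).congr fun σ τ => ?_⟩
        rw [Finset.sum_insert hi, add_assoc]
    · rcases ih with ⟨h1, h2⟩ | ⟨h1, c, d, hc, hd, hcd, h2⟩
      · right
        refine ⟨by rw [Finset.sum_insert hi, h0, h1, add_zero], a i, b i, ha i, hb i, h0,
          h2.congr fun σ τ => ?_⟩
        rw [Finset.sum_insert hi]
        have e := zmod2_add_self (chi (a i) σ * chi (b i) τ)
        calc chi (a i) σ * chi (b i) τ + ∑ x ∈ s, chi (a x) σ * chi (b x) τ +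
              chi (a i) σ * chi (b i) τ
            = (chi (a i) σ * chi (b i) τ + chi (a i) σ * chi (b i) τ) +
              ∑ x ∈ s, chi (a x) σ * chi (b x) τ := by ring
          _ = _ := by rw [e, zero_add]
      · left
        refine ⟨by rw [Finset.sum_insert hi, h0, h1]; exact zmod2_add_self 1,
          ((trB_link P (ha i) (hb i) hc hd h0 hcd).add h2).congr fun σ τ => ?_⟩
        rw [Finset.sum_insert hi]
        have e := zmod2_add_self (chi c σ * chi d τ)
        calc chi (a i) σ * chi (b i) τ + ∑ x ∈ s, chi (a x) σ * chi (b x) τ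
            = chi (a i) σ * chi (b i) τ + ∑ x ∈ s, chi (a x) σ * chi (b x) τ +
              (chi c σ * chi d τ + chi c σ * chi d τ) := by rw [e, add_zero]
          _ = _ := by ring

theorem triv_iff (P : HeightOneSpectrum (𝓞 k)) {r : ℕ} (a b : Fin r → k) (ha : ∀ i, a i ≠ 0)
    (hb : ∀ i, b i ≠ 0) : Triv (Dec P) a b ↔ ∑ i, hs P (a i) (b i) = 0 := by
  constructor
  · intro h
    rcases trB_sum P Finset.univ a b ha hb with ⟨h1, -⟩ | ⟨-, c, d, hc, hd, hcd, h2⟩
    · exact h1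
    · exfalso
      have h3 : TrB (Dec P) fun σ τ => ∑ i, chi (a i) σ * chi (b i) τ := h
      have h4 : TrB (Dec P) fun σ τ => chi c σ * chi d τ := (h3.add h2).congr fun σ τ => by
        have e := zmod2_add_self (∑ i, chi (a i) σ * chi (b i) τ)
        calc chi c σ * chi d τ = (∑ i, chi (a i) σ * chi (b i) τ +
              ∑ i, chi (a i) σ * chi (b i) τ) + chi c σ * chi d τ := by rw [e, zero_add]
          _ = _ := by ring
      have h5 := (cob_iff P hc hd).1 h4
      rw [hcd] at h5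
      exact one_ne_zero h5
  · intro h
    rcases trB_sum P Finset.univ a b ha hb with ⟨-, h2⟩ | ⟨h1, -⟩
    · exact h2
    · rw [h] at h1
      exact absurd h1 zero_ne_one

end

end Pool.Agent.H98.MF
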