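import Pool.Agent.H98.MF.L.Sqr

/-!
# Project MK4, block L, file WApx: weak approximation at finitely many primes and at the real places
-/

set_option autoImplicit false

open scoped BigOperators Pointwise
open NumberField IsDedekindDomain

namespace Pool.Agent.H98.MF

section

variable {k : Type} [Field k] [NumberField k]

/-- the finite part -/
private theorem wa_fin (S : Finset (HeightOneSpectrum (𝓞 k))) (x : HeightOneSpectrum (𝓞 k) → k)
    (n : ℕ) : ∃ b : k, ∀ P ∈ S, b - x P = 0 ∨ (n : ℤ) ≤ ord P (b - x P) := by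
  classical
  obtain ⟨D, hD⟩ := IsLocalization.exist_integer_multiples (nonZeroDivisors (𝓞 k)) S x
  have hD0 : (D : 𝓞 k) ≠ 0 := nonZeroDivisors.ne_zero D.2
  have hDk : (((D : 𝓞 k) : k)) ≠ 0 := by
    intro h
    exact hD0 (by exact_mod_cast h)
  choose! y hy using hD
  have hy' : ∀ P ∈ S, ((y P : 𝓞 k) : k) = ((D : 𝓞 k) : k) * x P := by
    intro P hP
    have h := hy P hP
    rw [Algebra.smul_def] at h
    exact h
  set N : ℕ := n + ∑ P ∈ S, (ord P ((D : 𝓞 k) : k)).toNat with hN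
  have hNge : ∀ P ∈ S, (n : ℤ) + ord P ((D : 𝓞 k) : k) ≤ N := by
    intro P hP
    have h1 : (ord P ((D : 𝓞 k) : k)).toNat ≤ ∑ P ∈ S, (ord P ((D : 𝓞 k) : k)).toNat :=
      Finset.single_le_sum (f := fun P => (ord P ((D : 𝓞 k) : k)).toNat)
        (fun _ _ => Nat.zero_le _) hP
    have h2 := Int.self_le_toNat (ord P ((D : 𝓞 k) : k))
    have h3 : ((ord P ((D : 𝓞 k) : k)).toNat : ℤ) ≤
        ((∑ P ∈ S, (ord P ((D : 𝓞 k) : k)).toNat : ℕ) : ℤ) := by exact_mod_cast h1
    rw [hN]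
    push_cast at h3 ⊢
    linarith
  obtain ⟨z, hz⟩ := IsDedekindDomain.exists_forall_sub_mem_ideal (s := S)
    (fun P : HeightOneSpectrum (𝓞 k) => P.asIdeal) (fun _ => N) (fun P _ => P.prime)
    (fun P _ Q _ hPQ h => hPQ (HeightOneSpectrum.ext h)) (fun P => y P.1)
  refine ⟨(z : k) / ((D : 𝓞 k) : k), fun P hP => ?_⟩
  have h1 := (le_ord_iff P (z - y P) N).2 (hz P hP)
  have h2 : (z : k) / ((D : 𝓞 k) : k) - x P = ((z - y P : 𝓞 k) : k) * (((D : 𝓞 k) : k))⁻¹ := by
    have h3 : ((z - y P : 𝓞 k) : k) = (z : k) - ((D : 𝓞 k) : k) * x P := by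
      rw [← hy' P hP]
      exact map_sub (algebraMap (𝓞 k) k) z (y P)
    rw [h3]
    field_simp
  have h4 : ((z - y P : 𝓞 k) : k) = 0 ∨ (N : ℤ) ≤ ord P ((z - y P : 𝓞 k) : k) := by
    rcases h1 with h | h
    · left
      rw [h]
      exact map_zero (algebraMap (𝓞 k) k)
    · exact Or.inr h
  have h5 := sqr_prod P h4 (Or.inr (le_refl (ord P (((D : 𝓞 k) : k))⁻¹)))
  rw [← h2, ord_inv] at h5
  exact sqr_mono P (by have := hNge P hP; linarith) h5

/-- integers with prescribed real coordinates up to a bounded error -/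
private theorem wa_lat (k : Type) [Field k] [NumberField k] :
    ∃ R : ℝ, 0 ≤ R ∧ ∀ v : {w : InfinitePlace k // w.IsReal} → ℝ, ∃ t : 𝓞 k,
    ∀ w : {w : InfinitePlace k // w.IsReal}, |(mixedEmbedding k (t : k)).1 w - v w| ≤ R := by
  classical
  refine ⟨∑ i, ‖mixedEmbedding.latticeBasis k i‖, Finset.sum_nonneg fun _ _ => norm_nonneg _,
    fun v => ?_⟩
  set m : mixedEmbedding.mixedSpace k := (v, 0) with hm
  have h1 := ZSpan.norm_fract_le (K := ℝ) (mixedEmbedding.latticeBasis k) m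
  have h2 : ((ZSpan.floor (mixedEmbedding.latticeBasis k) m : Submodule.span ℤ
      (Set.range (mixedEmbedding.latticeBasis k))) : mixedEmbedding.mixedSpace k) ∈
      mixedEmbedding.integerLattice k :=
    (mixedEmbedding.mem_span_latticeBasis k).1 (ZSpan.floor (mixedEmbedding.latticeBasis k) m).2
  obtain ⟨t, ht⟩ := h2
  refine ⟨t, fun w => ?_⟩
  have ht' : mixedEmbedding k (t : k) =
    ((ZSpan.floor (mixedEmbedding.latticeBasis k) m : Submodule.span ℤ
      (Set.range (mixedEmbedding.latticeBasis k))) : mixedEmbedding.mixedSpace k) := ht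
  have h3 : ZSpan.fract (mixedEmbedding.latticeBasis k) m = m - mixedEmbedding k (t : k) := by
    rw [ZSpan.fract_apply, ht']
  rw [h3] at h1
  have h4 : ‖(m - mixedEmbedding k (t : k)).1 w‖ ≤ ‖m - mixedEmbedding k (t : k)‖ :=
    (norm_le_pi_norm _ w).trans (norm_fst_le _)
  have h5 : (m - mixedEmbedding k (t : k)).1 w = v w - (mixedEmbedding k (t : k)).1 w := rfl
  rw [h5, Real.norm_eq_abs, abs_sub_comm] at h4
  exact h4.trans h1

/-- the real place of a real embedding -/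
private theorem wa_place (φ : k →+* ℝ) : ∃ w : {w : InfinitePlace k // w.IsReal},
    ∀ x : k, (mixedEmbedding k x).1 w = φ x := by
  set ψ : k →+* ℂ := Complex.ofRealHom.comp φ with hψ
  have hr : ComplexEmbedding.IsReal ψ := by
    rw [ComplexEmbedding.isReal_iff]
    ext x
    simp [hψ, ComplexEmbedding.conjugate_coe_eq]
  have hw : (InfinitePlace.mk ψ).IsReal := InfinitePlace.isReal_mk_iff.2 hr
  refine ⟨⟨InfinitePlace.mk ψ, hw⟩, fun x => ?_⟩
  rw [mixedEmbedding.mixedEmbedding_apply_isReal]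
  have h1 := InfinitePlace.embedding_of_isReal_apply hw x
  rw [InfinitePlace.embedding_mk_eq_of_isReal hr] at h1
  have h2 : ψ x = ((φ x : ℝ) : ℂ) := rfl
  rw [h2] at h1
  exact_mod_cast h1

private theorem wa_place_unique (w : {w : InfinitePlace k // w.IsReal}) (φ φ' : k →+* ℝ)
    (h : ∀ x : k, (mixedEmbedding k x).1 w = φ x) (h' : ∀ x : k, (mixedEmbedding k x).1 w = φ' x) :
    φ = φ' := by
  ext x
  rw [← h, ← h']

/-- a positive integer divisible by high powers of the primes of `S` -/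
private theorem wa_int (S : Finset (HeightOneSpectrum (𝓞 k))) (n : ℕ) :
    ∃ A : ℕ, 1 ≤ A ∧ ∀ P ∈ S, ∀ t : 𝓞 k, (A : k) * (t : k) = 0 ∨
      (n : ℤ) ≤ ord P ((A : k) * (t : k)) := by
  classical
  refine ⟨∏ P ∈ S, Ideal.absNorm P.asIdeal ^ n, ?_, fun P hP t => ?_⟩
  · refine Finset.one_le_prod' fun P _ => Nat.one_le_pow _ _ ?_
    exact Nat.pos_of_ne_zero (by rw [Ne, Ideal.absNorm_eq_zero_iff]; exact P.ne_bot)
  · have h1 : ((∏ P ∈ S, Ideal.absNorm P.asIdeal ^ n : ℕ) : 𝓞 k) * t ∈ P.asIdeal ^ n := by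
      rw [← Finset.mul_prod_erase S _ hP]
      push_cast
      rw [mul_assoc]
      exact Ideal.mul_mem_right _ _ (Ideal.pow_mem_pow (Ideal.absNorm_mem P.asIdeal) n)
    have h2 := (le_ord_iff P _ n).2 h1
    have h3 : ((((∏ P ∈ S, Ideal.absNorm P.asIdeal ^ n : ℕ) : 𝓞 k) * t : 𝓞 k) : k) =
        ((∏ P ∈ S, Ideal.absNorm P.asIdeal ^ n : ℕ) : k) * (t : k) := by
      rw [← map_natCast (algebraMap (𝓞 k) k)]
      exact map_mul (algebraMap (𝓞 k) k) _ t
    rw [← h3]
    rcases h2 with h | h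
    · left
      rw [h]
      exact map_zero (algebraMap (𝓞 k) k)
    · exact Or.inr h

theorem weak_apx (S : Finset (HeightOneSpectrum (𝓞 k))) (x : HeightOneSpectrum (𝓞 k) → k) (n : ℕ)
    (s : (k →+* ℝ) → Prop) : ∃ a : k, (∀ P ∈ S, a = x P ∨ (n : ℤ) ≤ ord P (a - x P)) ∧
      ∀ φ : k →+* ℝ, φ a ≠ 0 ∧ (0 < φ a ↔ s φ) := by
  classical
  obtain ⟨b, hb⟩ := wa_fin S x n
  obtain ⟨A, hA1, hA⟩ := wa_int S n
  obtain ⟨R, hR0, hR⟩ := wa_lat k
  choose pl hpl using fun φ : k →+* ℝ => wa_place φ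
  have hinj : Function.Injective pl := by
    intro φ φ' h
    refine wa_place_unique (pl φ) φ φ' (hpl φ) ?_
    rw [h]
    exact hpl φ'
  -- the target
  obtain ⟨t, ht⟩ := hR (fun w => if h : ∃ φ, pl φ = w then
    (if s h.choose then 1 else -1) * (R + 1 + |h.choose b|) else 0)
  have ht' : ∀ φ : k →+* ℝ, |φ (t : k) - (if s φ then 1 else -1) * (R + 1 + |φ b|)| ≤ R := by
    intro φ
    have h1 := ht (pl φ)
    have hex : ∃ φ', pl φ' = pl φ := ⟨φ, rfl⟩
    have h2 : hex.choose = φ := hinj hex.choose_spec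
    rw [dif_pos hex, h2, hpl φ] at h1
    exact h1
  have hAr : (1 : ℝ) ≤ A := by exact_mod_cast hA1
  refine ⟨b + (A : k) * (t : k), fun P hP => ?_, fun φ => ?_⟩
  · have h1 := le_ord_add P (n : ℤ) (hb P hP) (hA P hP t)
    have h2 : b - x P + (A : k) * (t : k) = b + (A : k) * (t : k) - x P := by ring
    rw [h2, sub_eq_zero] at h1
    exact h1
  · have h1 := ht' φ
    rw [abs_le] at h1
    rw [map_add, map_mul, map_natCast]
    have hb1 := neg_abs_le (φ b)
    have hb2 := le_abs_self (φ b)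
    by_cases hs : s φ
    · rw [if_pos hs] at h1
      have h2 : 1 + |φ b| ≤ φ (t : k) := by linarith [h1.1]
      have h3 : φ (t : k) ≤ A * φ (t : k) :=
        le_mul_of_one_le_left (by linarith [abs_nonneg (φ b)]) hAr
      have h4 : 0 < φ b + A * φ (t : k) := by linarith
      exact ⟨h4.ne', fun _ => hs, fun _ => h4⟩
    · rw [if_neg hs] at h1
      have h2 : φ (t : k) ≤ -(1 + |φ b|) := by linarith [h1.2]
      have h3 : (A : ℝ) * φ (t : k) ≤ φ (t : k) := by
        nlinarith [abs_nonneg (φ b)]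
      have h4 : φ b + A * φ (t : k) < 0 := by linarith
      exact ⟨h4.ne, fun h => absurd h (not_lt.2 h4.le), fun h => absurd h hs⟩

theorem weak_sq (S : Finset (HeightOneSpectrum (𝓞 k))) (x : HeightOneSpectrum (𝓞 k) → k)
    (hx : ∀ P ∈ S, x P ≠ 0) (s : (k →+* ℝ) → Prop) :
    ∃ a : k, a ≠ 0 ∧ (∀ P ∈ S, LocSq P (a * x P) ∧ ord P a = ord P (x P)) ∧
      ∀ φ : k →+* ℝ, φ a ≠ 0 ∧ (0 < φ a ↔ s φ) := by
  classical
  set n : ℕ := ∑ P ∈ S, (|ord P (x P)| + 2 * |ord P (2 : k)| + 1).toNat with hn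
  have hn' : ∀ P ∈ S, |ord P (x P)| + 2 * |ord P (2 : k)| + 1 ≤ n := by
    intro P hP
    have h1 : (|ord P (x P)| + 2 * |ord P (2 : k)| + 1).toNat ≤ n :=
      Finset.single_le_sum (f := fun P => (|ord P (x P)| + 2 * |ord P (2 : k)| + 1).toNat)
        (fun _ _ => Nat.zero_le _) hP
    exact (Int.self_le_toNat _).trans (by exact_mod_cast h1)
  obtain ⟨a, ha, hφ⟩ := weak_apx S x n s
  have key : ∀ P ∈ S, a ≠ 0 ∧ LocSq P (a * x P) ∧ ord P a = ord P (x P) := by
    intro P hP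
    have hx0 := hx P hP
    have h1 := hn' P hP
    have h2 := le_abs_self (ord P (x P))
    have h3 := le_abs_self (ord P (2 : k))
    have h4 := abs_nonneg (ord P (2 : k))
    have h5 := ha P hP
    rw [← sub_eq_zero] at h5
    have h6 := ord_add_eq P (a := x P) (b := a - x P) hx0
      (by
        rcases h5 with h | h
        · exact Or.inl h
        · exact Or.inr (by omega))
    rw [add_sub_cancel] at h6
    refine ⟨h6.1, ?_, h6.2⟩
    have h7 := sqr_prod P h5 (Or.inr (le_refl (ord P (x P)⁻¹)))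
    rw [ord_inv] at h7
    have h8 : LocSq P (1 + (a - x P) * (x P)⁻¹) :=
      locSq_one_add P (sqr_mono P (by omega) h7)
    have h9 : a * x P = (1 + (a - x P) * (x P)⁻¹) * (x P) ^ 2 := by
      field_simp
      ring
    rw [h9, locSq_mul_sq P hx0]
    exact h8
  by_cases ha0 : a = 0
  · refine ⟨1, one_ne_zero, fun P hP => absurd ha0 (key P hP).1, fun φ => ?_⟩
    exact absurd (by rw [ha0, map_zero]) (hφ φ).1
  · exact ⟨a, ha0, fun P hP => (key P hP).2, hφ⟩

end

end Pool.Agent.H98.MF
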