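import Pool.Agent.H98.MF.L.HerbA

/-!
# Project MK4, block L: approximate Hilbert 90 for a quadratic extension (helper4)
-/

set_option autoImplicit false

open scoped BigOperators Pointwise
open NumberField IsDedekindDomain

namespace Pool.Agent.H98.MF

section

/-- order at least `n`, or zero -/
private def Bg {L : Type} [Field L] [NumberField L] (Q : HeightOneSpectrum (𝓞 L)) (n : ℤ)
    (x : L) : Prop := x = 0 ∨ n ≤ ord Q x

variable {L : Type} [Field L] [NumberField L] {Q : HeightOneSpectrum (𝓞 L)}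

private theorem Bg.add {n : ℤ} {x y : L} (hx : Bg Q n x) (hy : Bg Q n y) : Bg Q n (x + y) :=
  le_ord_add Q n hx hy

private theorem Bg.neg {n : ℤ} {x : L} (hx : Bg Q n x) : Bg Q n (-x) := by
  rcases hx with h | h
  · left; rw [h, neg_zero]
  · right; rwa [ord_neg]

private theorem Bg.sub {n : ℤ} {x y : L} (hx : Bg Q n x) (hy : Bg Q n y) : Bg Q n (x - y) := by
  rw [sub_eq_add_neg]; exact hx.add hy.neg

private theorem Bg.mono {n m : ℤ} {x : L} (hx : Bg Q n x) (h : m ≤ n) : Bg Q m x :=
  hx.imp id fun h' => h.trans h'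

private theorem Bg.mul {n m : ℤ} {x y : L} (hx : Bg Q n x) (hy : Bg Q m y) :
    Bg Q (n + m) (x * y) := by
  rcases hx with h | h
  · left; rw [h, zero_mul]
  rcases hy with h' | h'
  · left; rw [h', mul_zero]
  by_cases hx0 : x = 0
  · left; rw [hx0, zero_mul]
  by_cases hy0 : y = 0
  · left; rw [hy0, mul_zero]
  right
  rw [ord_mul Q hx0 hy0]
  exact add_le_add h h'

private theorem Bg.of_mul {n : ℤ} {x y : L} (hy : y ≠ 0) (h : Bg Q n (x * y)) :
    Bg Q (n - ord Q y) x := by
  by_cases hx0 : x = 0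
  · exact Or.inl hx0
  right
  rcases h with h | h
  · exact absurd h (mul_ne_zero hx0 hy)
  · rw [ord_mul Q hx0 hy] at h
    linarith

private theorem one_add {t : L} (ht : Bg Q 1 t) : 1 + t ≠ 0 ∧ ord Q (1 + t) = 0 := by
  have h := ord_add_eq Q (a := (1 : L)) (b := t) one_ne_zero (by
    rcases ht with h | h
    · exact Or.inl h
    · right
      rw [ord_one]
      linarith)
  rw [ord_one] at h
  exact h

private theorem bg_self (x : L) : Bg Q (ord Q x) x := Or.inr le_rfl

private theorem not_bg_one {n : ℤ} (hn : 1 ≤ n) : ¬ Bg Q n (1 : L) := by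
  rintro (h | h)
  · exact one_ne_zero h
  · rw [ord_one] at h
    linarith

private theorem bg_of_not {n : ℤ} {x : L} (h : ¬ Bg Q (n + 1) x) : x ≠ 0 ∧ ord Q x ≤ n := by
  unfold Bg at h
  push Not at h
  exact ⟨h.1, by linarith [h.2]⟩

end

section

variable {k : Type} [Field k] [NumberField k]

variable {P : HeightOneSpectrum (𝓞 k)} {a : k} {L : Type} [Field L] [NumberField L]
  [Algebra k L] {s : L} {Q : HeightOneSpectrum (𝓞 L)} {e f : ℕ}

/-- the conjugation -/
private theorem exists_conj (h : QuadD P a s Q e f) : ∃ σ : L ≃ₐ[k] L, ∀ x y : k,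
    σ (algebraMap k L x + algebraMap k L y * s) = algebraMap k L x - algebraMap k L y * s := by
  have : Algebra.IsQuadraticExtension k L := ⟨h.deg⟩
  have hcard : Nat.card (L ≃ₐ[k] L) = 2 := by
    rw [IsGalois.card_aut_eq_finrank, h.deg]
  have : Nontrivial (L ≃ₐ[k] L) := by
    rw [← Finite.one_lt_card_iff_nontrivial, hcard]
    norm_num
  obtain ⟨σ, hσ⟩ := exists_ne (1 : L ≃ₐ[k] L)
  have h1 : (σ s - s) * (σ s + s) = 0 := by
    have h2 : σ s ^ 2 = s ^ 2 := by
      rw [← map_pow, h.sq, AlgEquiv.commutes]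
    linear_combination h2
  have h3 : σ s = -s := by
    rcases mul_eq_zero.1 h1 with h4 | h4
    · exfalso
      apply hσ
      ext z
      obtain ⟨x, y, rfl, -⟩ := h.form z
      rw [map_add, map_mul, AlgEquiv.commutes, AlgEquiv.commutes, sub_eq_zero.1 h4]
      rfl
    · exact eq_neg_of_add_eq_zero_left h4
  refine ⟨σ, fun x y => ?_⟩
  rw [map_add, map_mul, AlgEquiv.commutes, AlgEquiv.commutes, h3]
  ring

private theorem e_pos (h : QuadD P a s Q e f) : 1 ≤ e := by
  rcases Nat.eq_zero_or_pos e with h1 | h1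
  · have := h.ef
    rw [h1, zero_mul] at this
    omega
  · exact h1

private theorem ord_two (h : QuadD P a s Q e f) : ord Q (2 : L) = e * ord P (2 : k) := by
  rw [← h.ordm]
  congr 1
  rw [map_ofNat]

private theorem ord_two_nonneg (P : HeightOneSpectrum (𝓞 k)) : 0 ≤ ord P (2 : k) := by
  have := ord_int_nonneg P (2 : 𝓞 k)
  exact_mod_cast this

/-- descend an approximate identity -/
private theorem desc (h : QuadD P a s Q e f) {c x : k} {t w : L}
    (ht : Bg Q (e * (2 * ord P (2 : k) + 1)) t) (hw : Bg Q (e * (2 * ord P (2 : k) + 1)) w)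
    (heq : algebraMap k L (c * x ^ 2) = (1 + t) * (1 + w) ^ 2) : LocSq P c := by
  apply locSq_of_prec P x
  have he := e_pos h
  have hE := ord_two_nonneg P
  have hpos : (0 : ℤ) ≤ e * (2 * ord P (2 : k) + 1) := by positivity
  set n : ℤ := e * (2 * ord P (2 : k) + 1) with hn
  have e1 : algebraMap k L (c * x ^ 2 - 1) = t + (2 * w + w * w) + t * (2 * w + w * w) := by
    rw [map_sub, heq, map_one]
    ring
  have h2 : Bg Q 0 (2 : L) := by
    right
    rw [ord_two h]
    positivity
  have h3 : Bg Q n (2 * w + w * w) := by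
    refine Bg.add ?_ ?_
    · have := h2.mul hw
      rwa [zero_add] at this
    · exact (hw.mul hw).mono (by linarith)
  have h4 : Bg Q n (algebraMap k L (c * x ^ 2 - 1)) := by
    rw [e1]
    exact (ht.add h3).add ((ht.mul h3).mono (by linarith))
  rcases h4 with h5 | h5
  · left
    have h6 := (map_eq_zero (algebraMap k L)).1 h5
    exact sub_eq_zero.1 h6
  · right
    rw [h.ordm, hn] at h5
    exact le_of_mul_le_mul_left h5 (by exact_mod_cast he)

theorem QuadD.down (h : QuadD P a s Q e f) {c : k} (hc : LocSq Q (algebraMap k L c)) :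
    LocSq P c ∨ LocSq P (a * c) := by
  obtain ⟨σ, hσ⟩ := exists_conj h
  have he := e_pos h
  have hE := ord_two_nonneg P
  have h2Q := ord_two h
  have hc0 : algebraMap k L c ≠ 0 := hc.ne_zero
  set e' : ℤ := ord Q (2 : L) with he'
  have he'0 : 0 ≤ e' := by rw [h2Q]; positivity
  set n : ℤ := e * (2 * ord P (2 : k) + 1) with hn
  have hn1 : 1 ≤ n := by
    have h1 : (1 : ℤ) ≤ (e : ℤ) := by exact_mod_cast he
    have h2 : (1 : ℤ) ≤ 2 * ord P (2 : k) + 1 := by linarith
    rw [hn]
    nlinarith
  obtain ⟨z, hz⟩ := hc (n + 2 * e').toNat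
  have hM : (((n + 2 * e').toNat : ℕ) : ℤ) = n + 2 * e' := Int.toNat_of_nonneg (by linarith)
  rw [hM] at hz
  obtain ⟨t, ht⟩ : ∃ t, t = algebraMap k L c * z ^ 2 - 1 := ⟨_, rfl⟩
  have hz' : Bg Q (n + 2 * e') t := by
    rcases hz with h1 | h1
    · left; rw [ht, h1, sub_self]
    · right; rw [ht]; exact h1
  have hct : algebraMap k L c * z ^ 2 = 1 + t := by rw [ht]; ring
  have hz0 : z ≠ 0 := by
    rintro rfl
    have h1 : t = -1 := by rw [ht]; ring
    rw [h1] at hz'
    have h2 := hz'.neg
    rw [neg_neg] at h2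
    exact not_bg_one (by linarith) h2
  obtain ⟨x, y, hxy, -⟩ := h.form z
  have hσz : σ z = algebraMap k L x - algebraMap k L y * s := by rw [hxy, hσ]
  have hσz0 : σ z ≠ 0 := by
    rw [Ne, map_eq_zero]
    exact hz0
  have htσ : Bg Q (n + 2 * e') (σ t) := by
    rcases hz' with h1 | h1
    · left; rw [h1, map_zero]
    · right; rw [h.conj]; exact h1
  have hctσ : algebraMap k L c * σ z ^ 2 = 1 + σ t := by
    have := congrArg σ hct
    rwa [map_mul, map_pow, AlgEquiv.commutes, map_add, map_one] at this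
  have ht1 := (one_add (hz'.mono (by linarith : (1 : ℤ) ≤ n + 2 * e')))
  have htσ1 := (one_add (htσ.mono (by linarith : (1 : ℤ) ≤ n + 2 * e')))
  -- u = z / σ z
  obtain ⟨u, hu⟩ : ∃ u, u = z / σ z := ⟨_, rfl⟩
  have huz : z = u * σ z := by rw [hu, div_mul_cancel₀ _ hσz0]
  have hprod : (u - 1) * (u + 1) * (1 + σ t) = t - σ t := by
    have h1 : u ^ 2 * (1 + σ t) = 1 + t := by
      rw [← hctσ, ← hct, huz, mul_pow, map_mul]
      have h3 : σ (σ z) = z := by
        rw [hσz, map_sub, map_mul, AlgEquiv.commutes, AlgEquiv.commutes]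
        have h4 := hσ 0 1
        rw [map_zero, map_one, zero_add, one_mul, zero_sub] at h4
        rw [h4, hxy]
        ring
      have h5 : σ u * σ (σ z) = σ z := by rw [← map_mul, ← huz]
      rw [h5]
      ring
    linear_combination h1
  have hB : Bg Q (n + 2 * e') ((u - 1) * (u + 1)) := by
    have h1 : Bg Q (n + 2 * e') ((u - 1) * (u + 1) * (1 + σ t)) := by
      rw [hprod]; exact hz'.sub htσ
    have h2 := h1.of_mul htσ1.1
    rwa [htσ1.2, sub_zero] at h2
  have h2ne : (2 : L) ≠ 0 := two_ne_zero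
  -- one factor is small
  have hcase : Bg Q (n + e') (u - 1) ∨ Bg Q (n + e') (u + 1) := by
    by_cases h1 : Bg Q (e' + 1) (u + 1)
    · right
      have h3 : ¬ Bg Q (e' + 1) (u - 1) := by
        intro h4
        have h5 := h1.sub h4
        have h6 : u + 1 - (u - 1) = 2 := by ring
        rw [h6] at h5
        rcases h5 with h7 | h7
        · exact h2ne h7
        · rw [← he'] at h7
          linarith
      obtain ⟨h4, h5⟩ := bg_of_not h3
      rw [mul_comm (u - 1)] at hB
      exact (hB.of_mul h4).mono (by linarith)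
    · left
      obtain ⟨h4, h5⟩ := bg_of_not h1
      exact (hB.of_mul h4).mono (by linarith)
  rcases hcase with h1 | h1
  · left
    -- x is close to σ z
    have hw : Bg Q n ((u - 1) / 2) := by
      have h3 : Bg Q (n + e') ((u - 1) / 2 * 2) := by
        rwa [div_mul_cancel₀ _ h2ne]
      have h4 := h3.of_mul h2ne
      rw [← he'] at h4
      exact h4.mono (by linarith)
    refine desc h (c := c) (x := x) (htσ.mono (by linarith)) hw ?_
    have hx : algebraMap k L x = σ z * (1 + (u - 1) / 2) := by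
      have h3 : z + σ z = 2 * algebraMap k L x := by rw [hσz]; nth_rewrite 1 [hxy]; ring
      have h4 : algebraMap k L x = (z + σ z) / 2 := by rw [h3]; field_simp
      rw [h4]
      nth_rewrite 1 [huz]
      field_simp
      ring
    rw [map_mul, map_pow, hx, mul_pow, ← mul_assoc, hctσ]
  · right
    have hw : Bg Q n (-((u + 1) / 2)) := by
      apply Bg.neg
      have h3 : Bg Q (n + e') ((u + 1) / 2 * 2) := by
        rwa [div_mul_cancel₀ _ h2ne]
      have h4 := h3.of_mul h2ne
      rw [← he'] at h4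
      exact h4.mono (by linarith)
    refine desc h (c := a * c) (x := y) (htσ.mono (by linarith)) hw ?_
    have hy : algebraMap k L y * s = -(σ z * (1 + -((u + 1) / 2))) := by
      have h3 : z - σ z = 2 * (algebraMap k L y * s) := by rw [hσz]; nth_rewrite 1 [hxy]; ring
      have h4 : algebraMap k L y * s = (z - σ z) / 2 := by rw [h3]; field_simp
      rw [h4]
      nth_rewrite 1 [huz]
      field_simp
      ring
    have h5 : algebraMap k L (a * c * y ^ 2) = algebraMap k L c * (algebraMap k L y * s) ^ 2 := by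
      rw [map_mul, map_mul, map_pow, ← h.sq]
      ring
    rw [h5, hy, neg_sq, mul_pow, ← mul_assoc, hctσ]

/-- the basic step of approximate Hilbert 90 -/
private theorem up_aux (h : QuadD P a s Q e f) {σ : L ≃ₐ[k] L}
    (hσ : ∀ x y : k,
      σ (algebraMap k L x + algebraMap k L y * s) = algebraMap k L x - algebraMap k L y * s)
    {t : L} {ε : k} (ht : t * σ t = 1 + algebraMap k L ε)
    (hε : Bg Q (3 * ord Q (2 : L) + 1) (algebraMap k L ε))
    (hw : ¬ Bg Q (ord Q (2 : L) + 1) (1 + t)) :
    LocSq Q (algebraMap k L (Algebra.norm k (1 + t)) * t) := by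
  obtain ⟨hw0, hw1⟩ := bg_of_not hw
  have hnorm : algebraMap k L (Algebra.norm k (1 + t)) = (1 + t) * σ (1 + t) := by
    obtain ⟨x, y, h1, h2⟩ := h.form (1 + t)
    rw [h2, h1, hσ, map_sub, map_mul, map_pow, map_pow, ← h.sq]
    ring
  set w := 1 + t with hwdef
  have hkey : algebraMap k L (Algebra.norm k w) * t =
      (1 + algebraMap k L ε / w) * w ^ 2 := by
    rw [hnorm]
    have h1 : t * σ w = w + algebraMap k L ε := by
      rw [hwdef, map_add, map_one, mul_add, ht]
      ring
    have h2 : w * σ w * t = w * (t * σ w) := by ring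
    rw [h2, h1]
    field_simp
  rw [hkey, locSq_mul_sq Q hw0]
  apply locSq_one_add
  have h3 : Bg Q (3 * ord Q (2 : L) + 1) (algebraMap k L ε / w * w) := by
    rwa [div_mul_cancel₀ _ hw0]
  exact (h3.of_mul hw0).mono (by linarith)

theorem QuadD.up (h : QuadD P a s Q e f) {z : L} (hz : LocSq P (Algebra.norm k z)) :
    ∃ c : k, c ≠ 0 ∧ LocSq Q (algebraMap k L c * z) := by
  obtain ⟨σ, hσ⟩ := exists_conj h
  have he := e_pos h
  have he1 : (1 : ℤ) ≤ (e : ℤ) := by exact_mod_cast he
  have hE := ord_two_nonneg P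
  have h2Q := ord_two h
  have h2ne : (2 : L) ≠ 0 := two_ne_zero
  obtain ⟨d, hd⟩ := hz (3 * ord P (2 : k) + 1).toNat
  have hM : (((3 * ord P (2 : k) + 1).toNat : ℕ) : ℤ) = 3 * ord P (2 : k) + 1 :=
    Int.toNat_of_nonneg (by linarith)
  rw [hM] at hd
  have hd0 : d ≠ 0 := by
    rintro rfl
    rcases hd with h1 | h1
    · simp at h1
    · have h3 : Algebra.norm k z * (0 : k) ^ 2 - 1 = -1 := by ring
      rw [h3, ord_neg, ord_one] at h1
      linarith
  have hnorm : algebraMap k L (Algebra.norm k z) = z * σ z := by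
    obtain ⟨x, y, h1, h2⟩ := h.form z
    rw [h2, h1, hσ, map_sub, map_mul, map_pow, map_pow, ← h.sq]
    ring
  obtain ⟨ε, hεdef⟩ : ∃ ε, ε = Algebra.norm k z * d ^ 2 - 1 := ⟨_, rfl⟩
  have hε : Bg Q (3 * ord Q (2 : L) + 1) (algebraMap k L ε) := by
    rcases hd with h1 | h1
    · left
      rw [hεdef, h1, sub_self, map_zero]
    · right
      rw [h.ordm, hεdef, h2Q]
      have h3 := mul_le_mul_of_nonneg_left h1 (by linarith : (0 : ℤ) ≤ (e : ℤ))
      nlinarith
  obtain ⟨t, htdef⟩ : ∃ t, t = algebraMap k L d * z := ⟨_, rfl⟩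
  have ht : t * σ t = 1 + algebraMap k L ε := by
    rw [htdef, map_mul, AlgEquiv.commutes, hεdef, map_sub, map_mul, map_pow, hnorm, map_one]
    ring
  by_cases hw : Bg Q (ord Q (2 : L) + 1) (1 + t)
  · have hw' : ¬ Bg Q (ord Q (2 : L) + 1) (1 + -t) := by
      intro h1
      have h3 := hw.add h1
      have h4 : 1 + t + (1 + -t) = 2 := by ring
      rw [h4] at h3
      rcases h3 with h5 | h5
      · exact h2ne h5
      · linarith
    have ht' : (-t) * σ (-t) = 1 + algebraMap k L ε := by
      rw [map_neg, neg_mul_neg, ht]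
    have h3 := up_aux h hσ ht' hε hw'
    have hne := h3.ne_zero
    refine ⟨-(Algebra.norm k (1 + -t)) * d, ?_, ?_⟩
    · apply mul_ne_zero _ hd0
      rw [neg_ne_zero]
      rintro h4
      rw [h4, map_zero, zero_mul] at hne
      exact hne rfl
    · have h4 : algebraMap k L (-(Algebra.norm k (1 + -t)) * d) * z =
          algebraMap k L (Algebra.norm k (1 + -t)) * -t := by
        rw [htdef, map_mul, map_neg]
        ring
      rw [h4]
      exact h3
  · have h3 := up_aux h hσ ht hε hw
    have hne := h3.ne_zero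
    refine ⟨Algebra.norm k (1 + t) * d, ?_, ?_⟩
    · apply mul_ne_zero _ hd0
      rintro h4
      rw [h4, map_zero, zero_mul] at hne
      exact hne rfl
    · have h4 : algebraMap k L (Algebra.norm k (1 + t) * d) * z =
          algebraMap k L (Algebra.norm k (1 + t)) * t := by
        rw [htdef, map_mul]
        ring
      rw [h4]
      exact h3

end

end Pool.Agent.H98.MF
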