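import Pool.Agent.H98.MF.L.Sqr

/-!
# Project MK4, block L: norm form, norms and images of local squares
-/

set_option autoImplicit false

open scoped BigOperators Pointwise
open NumberField IsDedekindDomain

namespace Pool.Agent.H98.MF

section

variable {k : Type} [Field k] [NumberField k]

variable {P : HeightOneSpectrum (𝓞 k)} {a : k} {L : Type} [Field L] [NumberField L]
  [Algebra k L] {s : L} {Q : HeightOneSpectrum (𝓞 L)} {e f : ℕ}

private theorem hea_indep (h : QuadD P a s Q e f) : LinearIndependent k ![(1 : L), s] := by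
  rw [LinearIndependent.pair_iff]
  intro x y hxy
  have hy : y = 0 := by
    by_contra hy
    have hs : s = algebraMap k L (-x / y) := by
      rw [Algebra.smul_def, Algebra.smul_def, mul_one] at hxy
      have hy' : algebraMap k L y ≠ 0 := by simpa using hy
      rw [map_div₀, map_neg, eq_div_iff hy']
      linear_combination hxy
    have h1 : (-x / y) ^ 2 = a := by
      apply (algebraMap k L).injective
      rw [map_pow, ← hs, h.sq]
    apply h.ns
    rw [← h1]
    refine locSq_sq P ?_
    rintro h2
    rw [h2, zero_pow two_ne_zero] at h1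
    exact h.ne h1.symm
  rw [hy, zero_smul, add_zero, Algebra.smul_def, mul_one] at hxy
  exact ⟨by simpa using hxy, hy⟩

theorem QuadD.form (h : QuadD P a s Q e f) (z : L) : ∃ x y : k,
    z = algebraMap k L x + algebraMap k L y * s ∧ Algebra.norm k z = x ^ 2 - a * y ^ 2 := by
  classical
  have hc : Fintype.card (Fin 2) = Module.finrank k L := by rw [h.deg]; rfl
  let B := basisOfLinearIndependentOfCardEqFinrank (hea_indep h) hc
  have hB : ∀ i, B i = ![(1 : L), s] i := fun i => by
    simp [B]
  have hB0 : B 0 = 1 := by rw [hB]; rfl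
  have hB1 : B 1 = s := by rw [hB]; rfl
  set x := B.repr z 0 with hx
  set y := B.repr z 1 with hy
  have hz : z = algebraMap k L x + algebraMap k L y * s := by
    have h1 := B.sum_repr z
    rw [Fin.sum_univ_two, hB0, hB1, Algebra.smul_def, Algebra.smul_def, mul_one] at h1
    exact h1.symm
  refine ⟨x, y, hz, ?_⟩
  have hrep : ∀ u v : k, ∀ i, B.repr (algebraMap k L u + algebraMap k L v * s) i = ![u, v] i := by
    intro u v i
    have h1 : algebraMap k L u + algebraMap k L v * s = u • B 0 + v • B 1 := by
      rw [hB0, hB1, Algebra.smul_def, Algebra.smul_def, mul_one]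
    rw [h1, map_add, map_smul, map_smul, B.repr_self, B.repr_self]
    fin_cases i <;> simp
  have h0 : z * B 0 = algebraMap k L x + algebraMap k L y * s := by rw [hB0, mul_one, ← hz]
  have h1 : z * B 1 = algebraMap k L (a * y) + algebraMap k L x * s := by
    rw [hB1]
    nth_rewrite 1 [hz]
    rw [map_mul]
    linear_combination (algebraMap k L y) * h.sq
  rw [Algebra.norm_eq_matrix_det B, Matrix.det_fin_two, Algebra.leftMulMatrix_eq_repr_mul,
    Algebra.leftMulMatrix_eq_repr_mul, Algebra.leftMulMatrix_eq_repr_mul,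
    Algebra.leftMulMatrix_eq_repr_mul, h0, h1, hrep, hrep, hrep, hrep]
  simp only [Matrix.cons_val_zero, Matrix.cons_val_one]
  ring

/-- the conjugation -/
private theorem hea_conj (h : QuadD P a s Q e f) : ∃ σ : L ≃ₐ[k] L, σ s = -s := by
  have : Algebra.IsQuadraticExtension k L := ⟨h.deg⟩
  have hcard : Nat.card (L ≃ₐ[k] L) = 2 := by
    rw [IsGalois.card_aut_eq_finrank, h.deg]
  have : Nontrivial (L ≃ₐ[k] L) := by
    rw [← Finite.one_lt_card_iff_nontrivial, hcard]
    norm_num
  obtain ⟨σ, hσ⟩ := exists_ne (1 : L ≃ₐ[k] L)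
  have h1 : (σ s - s) * (σ s + s) = 0 := by
    have h2 : σ s ^ 2 = s ^ 2 := by
      rw [← map_pow, h.sq, AlgEquiv.commutes]
    linear_combination h2
  refine ⟨σ, ?_⟩
  rcases mul_eq_zero.1 h1 with h4 | h4
  · exfalso
    apply hσ
    ext z
    obtain ⟨x, y, rfl, -⟩ := h.form z
    rw [map_add, map_mul, AlgEquiv.commutes, AlgEquiv.commutes, sub_eq_zero.1 h4]
    rfl
  · exact eq_neg_of_add_eq_zero_left h4

private theorem hea_norm (h : QuadD P a s Q e f) {σ : L ≃ₐ[k] L} (hσ : σ s = -s) (z : L) :
    algebraMap k L (Algebra.norm k z) = z * σ z := by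
  obtain ⟨x, y, hz, hn⟩ := h.form z
  rw [hn, hz, map_add, map_mul, AlgEquiv.commutes, AlgEquiv.commutes, hσ, map_sub, map_mul,
    map_pow, map_pow, ← h.sq]
  ring

private theorem hea_e (h : QuadD P a s Q e f) : e = 1 ∨ e = 2 := by
  have h1 : e ∣ 2 := ⟨f, h.ef.symm⟩
  exact (Nat.dvd_prime Nat.prime_two).1 h1

theorem QuadD.norm (h : QuadD P a s Q e f) {z : L} (hz : LocSq Q z) :
    LocSq P (Algebra.norm k z) := by
  obtain ⟨σ, hσ⟩ := hea_conj h
  intro n
  obtain ⟨w, hw⟩ := hz (2 * n)
  refine ⟨Algebra.norm k w, ?_⟩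
  set t := z * w ^ 2 - 1 with ht
  have ht' : t = 0 ∨ ((2 * n : ℕ) : ℤ) ≤ ord Q t := by
    rcases hw with hw | hw
    · left
      rw [ht, hw, sub_self]
    · right
      exact hw
  have hσt : σ t = 0 ∨ ((2 * n : ℕ) : ℤ) ≤ ord Q (σ t) := by
    rcases ht' with h1 | h1
    · left
      rw [h1, map_zero]
    · right
      rw [h.conj]
      exact h1
  have htt : t * σ t = 0 ∨ ((2 * n : ℕ) : ℤ) ≤ ord Q (t * σ t) := by
    by_cases h1 : t = 0
    · left
      rw [h1, zero_mul]
    · by_cases h2 : σ t = 0
      · left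
        rw [h2, mul_zero]
      · right
        rw [ord_mul Q h1 h2]
        have h3 := ht'.resolve_left h1
        have h4 := hσt.resolve_left h2
        push_cast at h3 h4 ⊢
        omega
  have hsum := le_ord_add Q _ (le_ord_add Q _ ht' hσt) htt
  have heq : t + σ t + t * σ t =
      algebraMap k L (Algebra.norm k z * Algebra.norm k w ^ 2 - 1) := by
    have h1 : Algebra.norm k z * Algebra.norm k w ^ 2 = Algebra.norm k (1 + t) := by
      rw [ht, ← map_pow, ← map_mul]
      congr 1
      ring
    have h2 : algebraMap k L (Algebra.norm k (1 + t)) = (1 + t) * (1 + σ t) := by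
      rw [hea_norm h hσ, map_add σ, map_one σ]
    rw [h1, (algebraMap k L).map_sub, (algebraMap k L).map_one, h2]
    ring
  rw [heq, h.ordm] at hsum
  rcases hsum with h1 | h1
  · left
    rw [map_eq_zero, sub_eq_zero] at h1
    exact h1
  · right
    rcases hea_e h with he | he
    · rw [he] at h1
      push_cast at h1
      omega
    · rw [he] at h1
      push_cast at h1
      omega

theorem QuadD.base (h : QuadD P a s Q e f) {c : k} (hc : LocSq P c) :
    LocSq Q (algebraMap k L c) := by
  intro n
  obtain ⟨d, hd⟩ := hc n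
  refine ⟨algebraMap k L d, ?_⟩
  have heq : algebraMap k L c * algebraMap k L d ^ 2 - 1 = algebraMap k L (c * d ^ 2 - 1) := by
    rw [map_sub, map_one, map_mul, map_pow]
  rcases hd with hd | hd
  · left
    rw [← map_pow, ← map_mul, hd, map_one]
  · right
    rw [heq, h.ordm]
    rcases hea_e h with he | he
    · rw [he]
      push_cast
      omega
    · rw [he]
      push_cast
      omega

end

end Pool.Agent.H98.MF
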