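import Pool.Agent.H98.MF.L.QuadY

/-!
# Project MK4, block L: ramification and the number of primes above `P` in a quadratic extension
-/

set_option autoImplicit false
set_option linter.unusedSectionVars false

open scoped BigOperators Pointwise nonZeroDivisors
open NumberField IsDedekindDomain

namespace Pool.Agent.H98.MF

section

variable {k : Type} [Field k] [NumberField k] {L : Type} [Field L] [NumberField L] [Algebra k L]

/-- residue degree one: every integer is congruent to one of the base field -/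
theorem resid_surj {P : HeightOneSpectrum (𝓞 k)} {Q : HeightOneSpectrum (𝓞 L)} (h : Over P Q)
    (hf : P.asIdeal.inertiaDeg' Q.asIdeal = 1) (z : 𝓞 L) :
    ∃ x : 𝓞 k, z - algebraMap (𝓞 k) (𝓞 L) x ∈ Q.asIdeal := by
  have h0 := h.liesOver
  have hm := P.isMaximal
  have hQ := Q.isPrime
  letI : Field (𝓞 k ⧸ P.asIdeal) := Ideal.Quotient.field P.asIdeal
  rw [Ideal.inertiaDeg'_algebraMap] at hf
  have h1 : (1 : 𝓞 L ⧸ Q.asIdeal) ≠ 0 := by
    have : Nontrivial (𝓞 L ⧸ Q.asIdeal) := Ideal.Quotient.nontrivial_iff.2 hQ.ne_top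
    exact one_ne_zero
  obtain ⟨c, hc⟩ := (finrank_eq_one_iff_of_nonzero' (1 : 𝓞 L ⧸ Q.asIdeal) h1).1 hf
    (Ideal.Quotient.mk Q.asIdeal z)
  obtain ⟨x, rfl⟩ := Ideal.Quotient.mk_surjective c
  refine ⟨x, ?_⟩
  rw [← Ideal.Quotient.eq, ← hc, Algebra.smul_def, mul_one]
  rfl

/-- a split prime is unramified of degree one -/
theorem ef_of_split {P : HeightOneSpectrum (𝓞 k)} {Q Q' : HeightOneSpectrum (𝓞 L)}
    (hL : Module.finrank k L = 2) (h : Over P Q) (h' : Over P Q') (hne : Q' ≠ Q) :
    P.asIdeal.ramificationIdx' Q.asIdeal = 1 ∧ P.asIdeal.inertiaDeg' Q.asIdeal = 1 := by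
  have hm := P.isMaximal
  have h1 := Ideal.sum_ramification_inertia (𝓞 L) k L P.ne_bot
  rw [hL] at h1
  have hle : ∀ R : HeightOneSpectrum (𝓞 L), Over P R →
      1 ≤ P.asIdeal.ramificationIdx' R.asIdeal ∧ 1 ≤ P.asIdeal.inertiaDeg' R.asIdeal := by
    intro R hR
    have := hR.liesOver
    exact ⟨hR.ram_pos, Ideal.inertiaDeg'_pos P.asIdeal R.asIdeal⟩
  have hsub : ({Q.asIdeal, Q'.asIdeal} : Finset (Ideal (𝓞 L))) ⊆
      IsDedekindDomain.primesOverFinset P.asIdeal (𝓞 L) := by
    intro I hI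
    rw [IsDedekindDomain.mem_primesOverFinset_iff P.ne_bot]
    simp only [Finset.mem_insert, Finset.mem_singleton] at hI
    rcases hI with rfl | rfl
    · exact ⟨Q.isPrime, h.liesOver⟩
    · exact ⟨Q'.isPrime, h'.liesOver⟩
  have hne' : Q.asIdeal ≠ Q'.asIdeal := fun h0 => hne (HeightOneSpectrum.ext h0.symm)
  have h2 := Finset.sum_le_sum_of_subset (f := fun I : Ideal (𝓞 L) =>
    P.asIdeal.ramificationIdx' I * P.asIdeal.inertiaDeg' I) hsub
  rw [Finset.sum_pair hne', h1] at h2
  obtain ⟨a1, a2⟩ := hle Q h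
  obtain ⟨b1, b2⟩ := hle Q' h'
  have h3 : 1 ≤ P.asIdeal.ramificationIdx' Q'.asIdeal * P.asIdeal.inertiaDeg' Q'.asIdeal :=
    Nat.mul_pos b1 b2
  have h4 : P.asIdeal.ramificationIdx' Q.asIdeal * P.asIdeal.inertiaDeg' Q.asIdeal ≤ 1 := by
    have h5 : P.asIdeal.ramificationIdx' Q.asIdeal * P.asIdeal.inertiaDeg' Q.asIdeal +
      P.asIdeal.ramificationIdx' Q'.asIdeal * P.asIdeal.inertiaDeg' Q'.asIdeal ≤ 2 := h2
    omega
  constructor
  · nlinarith
  · nlinarith

/-- `P` is unramified if it is not above `2` and the exponent of `a` is even -/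
theorem unram_of_even {a : k} {s : L} (hs : s ^ 2 = algebraMap k L a) (hns : ¬ IsSquare a)
    (hL : Module.finrank k L = 2) (σ : L ≃ₐ[k] L) (hσ : σ s = -s)
    (hall : ∀ τ : L ≃ₐ[k] L, τ = 1 ∨ τ = σ)
    {P : HeightOneSpectrum (𝓞 k)} {Q : HeightOneSpectrum (𝓞 L)} (h : Over P Q)
    (h2 : ord P (2 : k) = 0) (ha : Even (ord P a)) :
    P.asIdeal.ramificationIdx' Q.asIdeal = 1 := by
  by_cases hcj : cj σ Q = Q
  · have hu : ∀ Q' : HeightOneSpectrum (𝓞 L), Over P Q' → Q' = Q := by
      intro Q' h'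
      rcases over_conj hs hns hL σ hσ hall h h' with h1 | h1
      · exact h1
      · rw [h1, hcj]
    have hef := ef_of_unique hL h hu
    have hr := h.ram_pos
    by_contra he
    have hf : P.asIdeal.inertiaDeg' Q.asIdeal = 1 := by
      set e := P.asIdeal.ramificationIdx' Q.asIdeal
      set f := P.asIdeal.inertiaDeg' Q.asIdeal
      have he2 : 2 ≤ e := by omega
      have hf1 : 1 ≤ f := by
        rcases Nat.eq_zero_or_pos f with h0 | h0
        · rw [h0, mul_zero] at hef
          omega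
        · exact h0
      nlinarith
    -- all conjugates are congruent modulo `Q`
    have hcong : ∀ z : 𝓞 L, z - qxR σ z ∈ Q.asIdeal := by
      intro z
      obtain ⟨x, hx⟩ := resid_surj h hf z
      have h1 : qxR σ (z - algebraMap (𝓞 k) (𝓞 L) x) ∈ Q.asIdeal := by
        rw [← mem_cj, hcj]
        exact hx
      rw [map_sub, qxR_algebraMap] at h1
      have h3 := Q.asIdeal.sub_mem hx h1
      have h4 : z - algebraMap (𝓞 k) (𝓞 L) x - (qxR σ z - algebraMap (𝓞 k) (𝓞 L) x) =
        z - qxR σ z := by ring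
      rwa [h4] at h3
    obtain ⟨m, hm⟩ := ha
    obtain ⟨π, hπ⟩ := exists_unif P
    have hπ0 : (π : k) ≠ 0 := by
      intro h0
      rw [h0, ord_zero] at hπ
      omega
    have hs0 : s ≠ 0 := by
      intro h0
      exact qx_not_range hs hns 0 (by rw [h0, map_zero])
    -- a unit at `P`
    obtain ⟨c, hc0, hc⟩ : ∃ c : k, c ≠ 0 ∧ ord P c = -m := by
      refine ⟨(π : k) ^ (-m), zpow_ne_zero _ hπ0, ?_⟩
      rcases le_or_gt 0 m with h0 | h0
      · obtain ⟨n, rfl⟩ := Int.eq_ofNat_of_zero_le h0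
        rw [zpow_neg, ord_inv, zpow_natCast, ord_pow, hπ]
        simp
      · obtain ⟨n, hn⟩ := Int.eq_ofNat_of_zero_le (show 0 ≤ -m by omega)
        rw [hn, zpow_natCast, ord_pow, hπ]
        simp
    set t : L := algebraMap k L c * s with ht
    have ht0 : t ≠ 0 := mul_ne_zero (by simpa using hc0) hs0
    have hordt : ord Q t = 0 := by
      have h3 : t ^ 2 = algebraMap k L (c ^ 2 * a) := by
        rw [ht, mul_pow, hs, map_mul, map_pow]
      have h4 : ord Q (t ^ 2) = 0 := by
        have ha0 : a ≠ 0 := by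
          rintro rfl
          exact hns ⟨0, by simp⟩
        rw [h3, h.ord_map, ord_mul P (pow_ne_zero 2 hc0) ha0, ord_pow, hc, hm]
        push_cast
        ring
      rw [ord_pow] at h4
      push_cast at h4
      linarith
    have hσt : σ t = -t := by
      rw [ht, map_mul, AlgEquiv.commutes, hσ, mul_neg]
    obtain ⟨x, y, hy, hxy⟩ := (ord_nonneg_iff Q t).1 (by rw [hordt])
    -- `x - σ x = t (y + σ y)`
    have h3 : ((x - qxR σ x : 𝓞 L) : L) = t * ((y + qxR σ y : 𝓞 L) : L) := by
      rw [rc_sub, rc_add, qxR_coe, qxR_coe, ← hxy, map_mul, hσt]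
      ring
    have h5 : y + qxR σ y ∈ Q.asIdeal := by
      have h6 := (le_ord_iff Q (x - qxR σ x) 1).2 (by rw [pow_one]; exact hcong x)
      have h7 := (le_ord_iff Q (y + qxR σ y) 1).1 (by
        by_cases h8 : y + qxR σ y = 0
        · left; exact h8
        · right
          have h9 : ((y + qxR σ y : 𝓞 L) : L) ≠ 0 := by
            intro h0
            apply h8
            exact_mod_cast h0
          have h10 := ord_mul Q ht0 h9
          rw [← h3, hordt, zero_add] at h10
          rw [← h10]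
          rcases h6 with h6 | h6
          · exfalso
            rw [h6, rc_zero] at h3
            exact mul_ne_zero ht0 h9 h3.symm
          · exact h6)
      rwa [pow_one] at h7
    have h6 : 2 * y ∈ Q.asIdeal := by
      have h7 := Q.asIdeal.add_mem h5 (hcong y)
      have h8 : y + qxR σ y + (y - qxR σ y) = 2 * y := by ring
      rwa [h8] at h7
    rcases Q.isPrime.mem_or_mem h6 with h7 | h7
    · have h8 := (le_ord_iff Q (2 : 𝓞 L) 1).2 (by rw [pow_one]; exact h7)
      have h9 : ord Q ((2 : 𝓞 L) : L) = 0 := by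
        have h10 := h.ord_map (2 : k)
        rw [h2, mul_zero, map_ofNat] at h10
        rw [rc_two]
        exact h10
      rw [h9] at h8
      rcases h8 with h8 | h8
      · exact two_ne_zero h8
      · norm_num at h8
    · exact hy h7
  · exact (ef_of_split hL h (h.cj σ) hcj).1

end

end Pool.Agent.H98.MF
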