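import Pool.Agent.H98.MF.L.QuadX

/-!
# Project MK4, block L: primes above `P` in a quadratic extension, split or not
-/

set_option autoImplicit false
set_option linter.unusedSectionVars false

open scoped BigOperators Pointwise nonZeroDivisors
open NumberField IsDedekindDomain

namespace Pool.Agent.H98.MF

section

variable {k : Type} [Field k] [NumberField k] {L : Type} [Field L] [NumberField L] [Algebra k L]

theorem rc_mul (x y : 𝓞 L) : ((x * y : 𝓞 L) : L) = (x : L) * (y : L) := rfl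

theorem rc_sub (x y : 𝓞 L) : ((x - y : 𝓞 L) : L) = (x : L) - (y : L) := rfl

theorem rc_add (x y : 𝓞 L) : ((x + y : 𝓞 L) : L) = (x : L) + (y : L) := rfl

theorem rc_neg (x : 𝓞 L) : ((-x : 𝓞 L) : L) = -(x : L) := rfl

theorem rc_zero : ((0 : 𝓞 L) : L) = 0 := rfl

theorem rc_two : ((2 : 𝓞 L) : L) = 2 := by
  have : (2 : 𝓞 L) = 1 + 1 := by norm_num
  rw [this, rc_add]
  have h1 : ((1 : 𝓞 L) : L) = 1 := rfl
  rw [h1]
  norm_num

theorem ideal_eq_of_le {Q Q' : HeightOneSpectrum (𝓞 L)} (h : Q.asIdeal ≤ Q'.asIdeal) : Q = Q' :=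
  HeightOneSpectrum.ext (Q.isMaximal.eq_of_le Q'.isPrime.ne_top h)

/-- any two primes above `P` are conjugate -/
theorem over_conj {a : k} {s : L} (hs : s ^ 2 = algebraMap k L a) (hns : ¬ IsSquare a)
    (hL : Module.finrank k L = 2) (σ : L ≃ₐ[k] L) (hσ : σ s = -s)
    (hall : ∀ τ : L ≃ₐ[k] L, τ = 1 ∨ τ = σ)
    {P : HeightOneSpectrum (𝓞 k)} {Q Q' : HeightOneSpectrum (𝓞 L)} (h : Over P Q)
    (h' : Over P Q') : Q' = Q ∨ Q' = cj σ Q := by
  have h1 : (Q'.asIdeal : Set (𝓞 L)) ⊆ (Q.asIdeal : Set (𝓞 L)) ∪ ((cj σ Q).asIdeal : Set (𝓞 L)) := by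
    intro x hx
    have h2 : algebraMap (𝓞 k) (𝓞 L) (RingOfIntegers.norm k x) = x * qxR σ x := by
      apply RingOfIntegers.ext
      rw [RingOfIntegers.coe_algebraMap_norm, qx_norm hs hns hL σ hσ hall, rc_mul, qxR_coe]
    have h3 : x * qxR σ x ∈ Q'.asIdeal := Q'.asIdeal.mul_mem_right _ hx
    rw [← h2] at h3
    have h4 : RingOfIntegers.norm k x ∈ P.asIdeal := by
      rw [← h']
      exact h3
    rw [← h] at h4
    have h5 : x * qxR σ x ∈ Q.asIdeal := by
      rw [← h2]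
      exact h4
    rcases Q.isPrime.mem_or_mem h5 with h6 | h6
    · left; exact h6
    · right; exact (mem_cj σ Q x).2 h6
  rcases (Ideal.subset_union).1 h1 with h2 | h2
  · left
    exact ideal_eq_of_le h2
  · right
    exact ideal_eq_of_le h2

theorem not_isSquare_of_not_locSq {P : HeightOneSpectrum (𝓞 k)} {a : k} (ha : a ≠ 0)
    (hn : ¬ LocSq P a) : ¬ IsSquare a := by
  rintro ⟨c, rfl⟩
  apply hn
  intro n
  have hc : c ≠ 0 := fun h => ha (by rw [h, mul_zero])
  refine ⟨c⁻¹, Or.inl ?_⟩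
  field_simp

/-- if `a` is a square at `P`, then `P` splits -/
theorem cj_ne_of_locSq {a : k} {s : L} (hs : s ^ 2 = algebraMap k L a) (hns : ¬ IsSquare a)
    (σ : L ≃ₐ[k] L) (hσ : σ s = -s)
    {P : HeightOneSpectrum (𝓞 k)} {Q : HeightOneSpectrum (𝓞 L)} (h : Over P Q)
    (hl : LocSq P a) : cj σ Q ≠ Q := by
  intro hcj
  obtain ⟨c, hc⟩ := hl (2 * (ord Q (2 : L)).toNat + 1)
  have hc1 : a * c ^ 2 ≠ 1 := by
    intro h1
    apply hns
    have hc0 : c ≠ 0 := by
      rintro rfl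
      simp at h1
    refine ⟨c⁻¹, ?_⟩
    field_simp
    exact h1
  have hc2 := hc.resolve_left hc1
  set u : L := algebraMap k L c * s with hu
  have hσu : σ u = -u := by
    rw [hu, map_mul, AlgEquiv.commutes, hσ, mul_neg]
  have hprod : (u - 1) * (u + 1) = algebraMap k L (a * c ^ 2 - 1) := by
    rw [map_sub, map_mul, map_pow, map_one, ← hs, hu]
    ring
  have hne : algebraMap k L (a * c ^ 2 - 1) ≠ 0 := by
    rw [Ne, map_eq_zero, sub_eq_zero]
    exact hc1
  have hu1 : u - 1 ≠ 0 := by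
    intro h0
    rw [h0, zero_mul] at hprod
    exact hne hprod.symm
  have hu2 : u + 1 ≠ 0 := by
    intro h0
    rw [h0, mul_zero] at hprod
    exact hne hprod.symm
  have hord : ord Q (u + 1) = ord Q (u - 1) := by
    have h1 := ord_cj σ Q (u - 1)
    rw [hcj, map_sub, hσu, map_one] at h1
    rw [h1, ← ord_neg Q (-u - 1)]
    congr 1
    ring
  have hsum : 2 * ord Q (u + 1) = (P.asIdeal.ramificationIdx' Q.asIdeal : ℤ) *
      ord P (a * c ^ 2 - 1) := by
    rw [← h.ord_map, ← hprod, ord_mul Q hu1 hu2, hord]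
    ring
  have hr := h.ram_pos
  have h2 : (0 : L) ≠ 2 := by
    have : CharZero L := inferInstance
    exact two_ne_zero.symm
  have h3 := le_ord_add Q (a := u + 1) (b := -(u - 1)) (ord Q (u + 1)) (Or.inr le_rfl)
    (Or.inr (by rw [ord_neg, hord]))
  have h4 : (u + 1) + -(u - 1) = 2 := by ring
  rw [h4] at h3
  have h5 := h3.resolve_left h2.symm
  have h6 : (ord P (a * c ^ 2 - 1)) ≤ (P.asIdeal.ramificationIdx' Q.asIdeal : ℤ) *
      ord P (a * c ^ 2 - 1) := by
    have h7 : (0 : ℤ) ≤ ord P (a * c ^ 2 - 1) := le_trans (by positivity) hc2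
    have h8 : (1 : ℤ) ≤ (P.asIdeal.ramificationIdx' Q.asIdeal : ℤ) := by exact_mod_cast hr
    nlinarith
  have h7 : ord Q (2 : L) ≤ ((ord Q (2 : L)).toNat : ℤ) := Int.self_le_toNat _
  push_cast at hc2
  linarith

/-- if `P` splits then `a` is a square at `P` -/
theorem locSq_of_cj_ne {a : k} {s : L} (hs : s ^ 2 = algebraMap k L a) (hns : ¬ IsSquare a)
    (hL : Module.finrank k L = 2) (σ : L ≃ₐ[k] L) (hσ : σ s = -s)
    {P : HeightOneSpectrum (𝓞 k)} {Q : HeightOneSpectrum (𝓞 L)} (h : Over P Q)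
    (hcj : cj σ Q ≠ Q) : LocSq P a := by
  intro n
  set e := P.asIdeal.ramificationIdx' Q.asIdeal with he
  have hr : 1 ≤ e := h.ram_pos
  have hcop : IsCoprime (Q.asIdeal ^ (e * n)) ((cj σ Q).asIdeal ^ (e * n)) := by
    apply IsCoprime.pow
    rw [Ideal.isCoprime_iff_sup_eq]
    have hm := Q.isMaximal
    by_contra hne
    have h1 : Q.asIdeal ⊔ (cj σ Q).asIdeal = Q.asIdeal :=
      (hm.eq_of_le hne le_sup_left).symm
    have h2 : (cj σ Q).asIdeal ≤ Q.asIdeal := by
      rw [← h1]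
      exact le_sup_right
    exact hcj (ideal_eq_of_le h2)
  rw [Ideal.isCoprime_iff_exists] at hcop
  obtain ⟨u, hu, v, hv, huv⟩ := hcop
  have hs0 : s ≠ 0 := by
    intro h0
    exact qx_not_range hs hns 0 (by rw [h0, map_zero])
  obtain ⟨c, hc⟩ := qx_trace hs hns hL σ hσ ((v : L) * s⁻¹)
  have hv' : qxR σ v ∈ Q.asIdeal ^ (e * n) := (cj_pow σ Q (e * n) v).1 hv
  set w : 𝓞 L := -u - qxR σ v with hw
  have hwQ : w ∈ Q.asIdeal ^ (e * n) := by
    rw [hw]
    exact Ideal.sub_mem _ (neg_mem hu) hv'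
  have huv' : (u : L) + (v : L) = 1 := by
    have := congrArg (fun x : 𝓞 L => (x : L)) huv
    simpa using this
  have hsc : s * algebraMap k L c = 1 + (w : L) := by
    rw [← hc, map_mul, map_inv₀, hσ, hw, rc_sub, rc_neg, qxR_coe]
    field_simp
    linear_combination huv'
  have hfin : algebraMap k L (a * c ^ 2 - 1) = ((w * (w + 2) : 𝓞 L) : L) := by
    rw [map_sub, map_mul, map_pow, map_one, ← hs, rc_mul, rc_add, rc_two]
    linear_combination (s * algebraMap k L c + 1 + (w : L)) * hsc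
  have hmem : w * (w + 2) ∈ Q.asIdeal ^ (e * n) := Ideal.mul_mem_right _ _ hwQ
  have h1 := (le_ord_iff Q (w * (w + 2)) (e * n)).2 hmem
  refine ⟨c, ?_⟩
  rcases h1 with h1 | h1
  · left
    rw [h1, rc_zero] at hfin
    have h2 := (map_eq_zero (algebraMap k L)).1 hfin
    exact sub_eq_zero.1 h2
  · right
    rw [← hfin, h.ord_map, ← he] at h1
    push_cast at h1
    have h2 : (0 : ℤ) < (e : ℤ) := by exact_mod_cast hr
    exact le_of_mul_le_mul_left h1 h2

/-- if only one prime lies above `P`, then `e f = 2` -/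
theorem ef_of_unique (hL : Module.finrank k L = 2)
    {P : HeightOneSpectrum (𝓞 k)} {Q : HeightOneSpectrum (𝓞 L)} (h : Over P Q)
    (hu : ∀ Q' : HeightOneSpectrum (𝓞 L), Over P Q' → Q' = Q) :
    P.asIdeal.ramificationIdx' Q.asIdeal * P.asIdeal.inertiaDeg' Q.asIdeal = 2 := by
  have hm := P.isMaximal
  have h1 := Ideal.sum_ramification_inertia (𝓞 L) k L P.ne_bot
  rw [hL] at h1
  have h2 : IsDedekindDomain.primesOverFinset P.asIdeal (𝓞 L) = {Q.asIdeal} := by
    ext I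
    rw [IsDedekindDomain.mem_primesOverFinset_iff P.ne_bot, Finset.mem_singleton]
    constructor
    · rintro ⟨hI1, hI2⟩
      have hne : I ≠ ⊥ := by
        have := hI2
        exact Ideal.ne_bot_of_liesOver_of_ne_bot P.ne_bot I
      have := hu ⟨I, hI1, hne⟩ hI2.over.symm
      rw [← this]
    · rintro rfl
      exact ⟨Q.isPrime, h.liesOver⟩
  rw [h2, Finset.sum_singleton] at h1
  exact h1

theorem over_absNorm {P : HeightOneSpectrum (𝓞 k)} {Q : HeightOneSpectrum (𝓞 L)}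
    (h : Over P Q) : Ideal.absNorm Q.asIdeal =
      Ideal.absNorm P.asIdeal ^ P.asIdeal.inertiaDeg' Q.asIdeal := by
  have := h.liesOver
  exact Ideal.absNorm_eq_pow_inertiaDeg'_of_liesOver Q.asIdeal P.asIdeal P.isPrime P.ne_bot

end

end Pool.Agent.H98.MF
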