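import Pool.Agent.H98.MF.L.Defs

/-! Project MK4, block L, file Top: the prime `top P`, decomposition groups at finite layers -/

set_option autoImplicit false

open scoped BigOperators Pointwise
open NumberField IsDedekindDomain

namespace Pool.Agent.H98.MF

section

variable {k : Type} [Field k] [NumberField k]

theorem tp_integral (F L : Type) [Field F] [Field L] [Algebra F L] :
    Algebra.IsIntegral (𝓞 F) (𝓞 L) := by
  constructor
  intro x
  have h1 : IsIntegral ℤ (x : L) := x.2
  have h2 : IsIntegral (𝓞 F) (x : L) := h1.tower_top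
  exact (isIntegral_algebraMap_iff (RingOfIntegers.coe_injective)).1 h2

theorem tp_inj (F L : Type) [Field F] [Field L] [Algebra F L] :
    Function.Injective (algebraMap (𝓞 F) (𝓞 L)) := by
  intro x y h
  have h1 : ((algebraMap (𝓞 F) (𝓞 L) x : 𝓞 L) : L) = ((algebraMap (𝓞 F) (𝓞 L) y : 𝓞 L) : L) := by
    rw [h]
  apply RingOfIntegers.coe_injective
  exact (algebraMap F L).injective h1

theorem tp_exists (P : HeightOneSpectrum (𝓞 k)) : ∃ Q : Ideal (𝓞 (Om k)), Q.IsPrime ∧
    Q.comap (algebraMap (𝓞 k) (𝓞 (Om k))) = P.asIdeal := by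
  haveI := tp_integral k (Om k)
  haveI := P.isPrime
  obtain ⟨Q, -, h1, h2⟩ := Ideal.exists_ideal_over_prime_of_isIntegral P.asIdeal
    (⊥ : Ideal (𝓞 (Om k))) (by
      intro x hx
      rw [Ideal.mem_comap, Ideal.mem_bot] at hx
      have : x = 0 := tp_inj k (Om k) (by rw [hx, map_zero])
      rw [this]
      exact P.asIdeal.zero_mem)
  exact ⟨Q, h1, h2⟩

theorem top_spec (P : HeightOneSpectrum (𝓞 k)) : (top P).IsPrime ∧
    (top P).comap (algebraMap (𝓞 k) (𝓞 (Om k))) = P.asIdeal := by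
  unfold top
  rw [dif_pos (tp_exists P)]
  exact (tp_exists P).choose_spec

theorem top_prime (P : HeightOneSpectrum (𝓞 k)) : (top P).IsPrime := (top_spec P).1
theorem top_comap (P : HeightOneSpectrum (𝓞 k)) :
    (top P).comap (algebraMap (𝓞 k) (𝓞 (Om k))) = P.asIdeal := (top_spec P).2
theorem nf_of_fd (K : IntermediateField k (Om k)) [FiniteDimensional k K] : NumberField K := by
  haveI : FiniteDimensional ℚ K := FiniteDimensional.trans ℚ k K
  exact { to_charZero := inferInstance, to_finiteDimensional := this }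
theorem low_prime (P : HeightOneSpectrum (𝓞 k)) (K : IntermediateField k (Om k)) :
    (low P K).IsPrime := by
  haveI := top_prime P
  unfold low
  exact Ideal.comap_isPrime _ _
theorem low_comap (P : HeightOneSpectrum (𝓞 k)) (K : IntermediateField k (Om k)) :
    (low P K).comap (algebraMap (𝓞 k) (𝓞 K)) = P.asIdeal := by
  rw [← top_comap P]
  unfold low
  rw [Ideal.comap_comap]
  rfl
theorem low_ne_bot (P : HeightOneSpectrum (𝓞 k)) (K : IntermediateField k (Om k)) :
    low P K ≠ ⊥ := by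
  intro h
  apply P.ne_bot
  rw [← low_comap P K, h, eq_bot_iff]
  intro x hx
  rw [Ideal.mem_comap, Ideal.mem_bot] at hx
  rw [Ideal.mem_bot]
  exact tp_inj k K (by rw [hx, map_zero])

/-- the action commutes with the embedding of a normal layer -/
theorem tp_res (K : IntermediateField k (Om k)) [Normal k K] (σ : Gm k) (x : 𝓞 K) :
    algebraMap (𝓞 K) (𝓞 (Om k)) (AlgEquiv.restrictNormal σ K • x)
      = σ • algebraMap (𝓞 K) (𝓞 (Om k)) x := by
  apply RingOfIntegers.coe_injective
  exact AlgEquiv.restrictNormal_commutes σ K (x : K)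

theorem tp_mem_low (P : HeightOneSpectrum (𝓞 k)) (K : IntermediateField k (Om k)) (x : 𝓞 K) :
    x ∈ low P K ↔ algebraMap (𝓞 K) (𝓞 (Om k)) x ∈ top P := Iff.rfl

theorem dec_restrict (P : HeightOneSpectrum (𝓞 k)) (K : IntermediateField k (Om k))
    [Normal k K] (σ : Gm k) (hσ : σ ∈ Dec P) :
    AlgEquiv.restrictNormal σ K ∈ MulAction.stabilizer (K ≃ₐ[k] K) (low P K) := by
  have h0 : σ • top P = top P := hσ
  rw [MulAction.mem_stabilizer_iff]
  set g := AlgEquiv.restrictNormal σ K with hg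
  ext x
  have h1 : x ∈ g • low P K ↔ g⁻¹ • x ∈ low P K := Ideal.mem_pointwise_smul_iff_inv_smul_mem
  have h2 : g⁻¹ = AlgEquiv.restrictNormal σ⁻¹ K := by
    have := map_inv (AlgEquiv.restrictNormalHom (F := k) (K₁ := Om k) K) σ
    exact this.symm
  rw [h1, tp_mem_low, tp_mem_low, h2, tp_res]
  rw [← Ideal.mem_pointwise_smul_iff_inv_smul_mem, h0]

theorem tp_cont (F : Type) [Field F] [Algebra F (Om k)] [Algebra.IsIntegral F (Om k)]
    [TopologicalSpace (𝓞 (Om k))] [DiscreteTopology (𝓞 (Om k))] :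
    ContinuousSMul (Om k ≃ₐ[F] Om k) (𝓞 (Om k)) := by
  rw [continuousSMul_iff_stabilizer_isOpen]
  intro x
  have h1 : (MulAction.stabilizer (Om k ≃ₐ[F] Om k) x : Set (Om k ≃ₐ[F] Om k))
      = (MulAction.stabilizer (Om k ≃ₐ[F] Om k) (x : Om k) : Set (Om k ≃ₐ[F] Om k)) := by
    ext σ
    constructor
    · intro h
      have h2 : σ • x = x := h
      have h3 : ((σ • x : 𝓞 (Om k)) : Om k) = x := by rw [h2]
      exact h3
    · intro h
      have h2 : σ (x : Om k) = x := h
      exact RingOfIntegers.coe_injective h2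
  rw [h1]
  exact stabilizer_isOpen_of_isIntegral (x : Om k)

theorem tp_galois (K : IntermediateField k (Om k)) : IsGalois K (Om k) := inferInstance

/-- transitivity on the primes above a prime of a layer -/
theorem tp_trans (K : IntermediateField k (Om k)) (T T' : Ideal (𝓞 (Om k))) (hT : T.IsPrime)
    (hT' : T'.IsPrime) (h : T.comap (algebraMap (𝓞 K) (𝓞 (Om k)))
      = T'.comap (algebraMap (𝓞 K) (𝓞 (Om k)))) :
    ∃ τ : Om k ≃ₐ[K] Om k, T' = τ • T := by
  letI : TopologicalSpace (𝓞 (Om k)) := ⊥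
  haveI : DiscreteTopology (𝓞 (Om k)) := ⟨rfl⟩
  haveI := tp_galois K
  haveI : ContinuousSMul (Om k ≃ₐ[K] Om k) (𝓞 (Om k)) := tp_cont K
  haveI : SMulCommClass (Om k ≃ₐ[K] Om k) (𝓞 K) (𝓞 (Om k)) := by
    constructor
    intro σ a b
    rw [Algebra.smul_def, Algebra.smul_def]
    apply RingOfIntegers.coe_injective
    show σ (algebraMap K (Om k) (a : K) * (b : Om k)) = algebraMap K (Om k) (a : K) * σ (b : Om k)
    rw [map_mul, σ.commutes]
  haveI : Algebra.IsInvariant (𝓞 K) (𝓞 (Om k)) (Om k ≃ₐ[K] Om k) := by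
    constructor
    intro b hb
    have h1 : (b : Om k) ∈ Set.range (algebraMap K (Om k)) := by
      rw [InfiniteGalois.mem_range_algebraMap_iff_fixed]
      intro σ
      have h2 : ((σ • b : 𝓞 (Om k)) : Om k) = b := by rw [hb σ]
      exact h2
    obtain ⟨a, ha⟩ := h1
    have h2 : IsIntegral ℤ a := by
      have h3 : IsIntegral ℤ (algebraMap K (Om k) a) := by rw [ha]; exact b.2
      exact (isIntegral_algebraMap_iff (algebraMap K (Om k)).injective).1 h3
    refine ⟨⟨a, h2⟩, ?_⟩
    exact RingOfIntegers.coe_injective ha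
  exact Algebra.IsInvariant.exists_smul_of_under_eq_of_profinite (A := 𝓞 K) T T' h

theorem dec_surj (P : HeightOneSpectrum (𝓞 k)) (K : IntermediateField k (Om k))
    [FiniteDimensional k K] [Normal k K] (g : K ≃ₐ[k] K)
    (hg : g ∈ MulAction.stabilizer (K ≃ₐ[k] K) (low P K)) :
    ∃ σ ∈ Dec P, AlgEquiv.restrictNormal σ K = g := by
  obtain ⟨σ', hσ'⟩ := AlgEquiv.restrictNormalHom_surjective (F := k) (K₁ := K) (Om k) g
  have hσ : AlgEquiv.restrictNormal σ' K = g := hσ'
  haveI hT := top_prime P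
  have hT' : (σ'⁻¹ • top P).IsPrime := Ideal.IsPrime.smul _
  have hcomap : (top P).comap (algebraMap (𝓞 K) (𝓞 (Om k)))
      = (σ'⁻¹ • top P).comap (algebraMap (𝓞 K) (𝓞 (Om k))) := by
    have h1 : g • low P K = low P K := hg
    ext x
    rw [Ideal.mem_comap, Ideal.mem_comap, Ideal.mem_pointwise_smul_iff_inv_smul_mem, inv_inv,
      ← tp_res, hσ]
    have h2 : algebraMap (𝓞 K) (𝓞 (Om k)) (g • x) ∈ top P ↔ g • x ∈ low P K := Iff.rfl
    have h3 : algebraMap (𝓞 K) (𝓞 (Om k)) x ∈ top P ↔ x ∈ low P K := Iff.rfl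
    rw [h2, h3]
    conv_rhs => rw [← h1]
    exact Ideal.smul_mem_pointwise_smul_iff.symm
  obtain ⟨τ, hτ⟩ := tp_trans K (top P) (σ'⁻¹ • top P) hT hT' hcomap
  set τ' : Gm k := τ.restrictScalars k with hτ'
  have h4 : τ' • top P = τ • top P := rfl
  refine ⟨σ' * τ', ?_, ?_⟩
  · show (σ' * τ') • top P = top P
    rw [mul_smul, h4, ← hτ, smul_inv_smul]
  · have h5 : AlgEquiv.restrictNormal τ' K = 1 := by
      ext x
      have h6 := AlgEquiv.restrictNormal_commutes τ' K x
      have h7 : τ' (algebraMap K (Om k) x) = algebraMap K (Om k) x := τ.commutes x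
      rw [h7] at h6
      exact h6
    have h8 := map_mul (AlgEquiv.restrictNormalHom (F := k) (K₁ := Om k) K) σ' τ'
    have h9 : AlgEquiv.restrictNormal (σ' * τ') K
        = AlgEquiv.restrictNormal σ' K * AlgEquiv.restrictNormal τ' K := h8
    rw [h9, h5, mul_one, hσ]

theorem dec_closed (P : HeightOneSpectrum (𝓞 k)) : IsClosed (Dec P : Set (Gm k)) := by
  letI : TopologicalSpace (𝓞 (Om k)) := ⊥
  haveI : DiscreteTopology (𝓞 (Om k)) := ⟨rfl⟩
  haveI : ContinuousSMul (Gm k) (𝓞 (Om k)) := tp_cont k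
  have h1 : (Dec P : Set (Gm k)) = ⋂ x : 𝓞 (Om k),
      (fun σ : Gm k => σ⁻¹ • x) ⁻¹' {y | y ∈ top P ↔ x ∈ top P} := by
    ext σ
    simp only [Set.mem_iInter, Set.mem_preimage, Set.mem_ofPred_eq]
    constructor
    · intro h x
      have h0 : σ • top P = top P := h
      rw [← Ideal.mem_pointwise_smul_iff_inv_smul_mem, h0]
    · intro h
      show σ • top P = top P
      ext x
      rw [Ideal.mem_pointwise_smul_iff_inv_smul_mem]
      exact h x
  rw [h1]
  refine isClosed_iInter fun x => ?_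
  refine (isClosed_discrete _).preimage ?_
  exact (continuous_inv.smul continuous_const)

end

end Pool.Agent.H98.MF
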