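import Pool.Agent.H98.MF.L.Ord

/-!
# Project MK4, block L: local squares
-/

set_option autoImplicit false

open scoped BigOperators Pointwise
open NumberField IsDedekindDomain

namespace Pool.Agent.H98.MF

section

variable {k : Type} [Field k] [NumberField k]

theorem sqr_prod (P : HeightOneSpectrum (𝓞 k)) {x y : k} {n m : ℤ}
    (hx : x = 0 ∨ n ≤ ord P x) (hy : y = 0 ∨ m ≤ ord P y) :
    x * y = 0 ∨ n + m ≤ ord P (x * y) := by
  rcases hx with hx | hx
  · left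
    rw [hx, zero_mul]
  rcases hy with hy | hy
  · left
    rw [hy, mul_zero]
  by_cases h1 : x = 0
  · left
    rw [h1, zero_mul]
  by_cases h2 : y = 0
  · left
    rw [h2, mul_zero]
  right
  rw [ord_mul P h1 h2]
  omega

theorem sqr_mono (P : HeightOneSpectrum (𝓞 k)) {x : k} {n m : ℤ} (hnm : m ≤ n)
    (hx : x = 0 ∨ n ≤ ord P x) : x = 0 ∨ m ≤ ord P x := by
  rcases hx with hx | hx
  · exact Or.inl hx
  · exact Or.inr (hnm.trans hx)

theorem sqr_iff (P : HeightOneSpectrum (𝓞 k)) (x : k) (n : ℤ) :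
    (x = 1 ∨ n ≤ ord P (x - 1)) ↔ (x - 1 = 0 ∨ n ≤ ord P (x - 1)) := by
  rw [sub_eq_zero]

theorem sqr_unit (P : HeightOneSpectrum (𝓞 k)) {x : k} {n : ℤ} (hn : 0 < n)
    (hx : x = 1 ∨ n ≤ ord P (x - 1)) : x ≠ 0 ∧ ord P x = 0 := by
  have h := ord_add_eq P (a := (1 : k)) (b := x - 1) one_ne_zero
    (by
      rcases hx with hx | hx
      · exact Or.inl (sub_eq_zero.2 hx)
      · right
        rw [ord_one]
        omega)
  rw [add_sub_cancel, ord_one] at h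
  exact h

theorem LocSq.ne_zero {P : HeightOneSpectrum (𝓞 k)} {a : k} (h : LocSq P a) : a ≠ 0 := by
  intro ha
  obtain ⟨c, hc⟩ := h 1
  have h1 := (sqr_unit P (by norm_num) hc).1
  exact h1 (by rw [ha, zero_mul])

theorem locSq_sq (P : HeightOneSpectrum (𝓞 k)) {c : k} (hc : c ≠ 0) : LocSq P (c ^ 2) := by
  intro n
  refine ⟨c⁻¹, Or.inl ?_⟩
  rw [inv_pow]
  exact mul_inv_cancel₀ (pow_ne_zero _ hc)

theorem LocSq.mul {P : HeightOneSpectrum (𝓞 k)} {a b : k} (ha : LocSq P a) (hb : LocSq P b) :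
    LocSq P (a * b) := by
  intro n
  obtain ⟨c, hc⟩ := ha n
  obtain ⟨d, hd⟩ := hb n
  rw [sqr_iff] at hc hd
  refine ⟨c * d, ?_⟩
  rw [sqr_iff]
  have h0 : b * d ^ 2 = 0 ∨ (0 : ℤ) ≤ ord P (b * d ^ 2) := by
    have h1 := le_ord_add P (a := b * d ^ 2 - 1) (b := 1) 0
      (sqr_mono P (by omega) hd) (Or.inr (by rw [ord_one]))
    rw [sub_add_cancel] at h1
    exact h1
  have h2 := sqr_prod P hc h0
  rw [add_zero] at h2
  have h3 := le_ord_add P (n : ℤ) h2 hd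
  have h4 : (a * c ^ 2 - 1) * (b * d ^ 2) + (b * d ^ 2 - 1) = a * b * (c * d) ^ 2 - 1 := by ring
  rw [h4] at h3
  exact h3

theorem LocSq.inv {P : HeightOneSpectrum (𝓞 k)} {a : k} (ha : LocSq P a) : LocSq P a⁻¹ := by
  intro n
  obtain ⟨c, hc⟩ := ha n
  refine ⟨a * c, ?_⟩
  have h0 : a ≠ 0 := ha.ne_zero
  have h : a⁻¹ * (a * c) ^ 2 = a * c ^ 2 := by
    field_simp
  rw [h]
  exact hc

theorem LocSq.mul_iff {P : HeightOneSpectrum (𝓞 k)} {a : k} (ha : LocSq P a) (b : k) :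
    LocSq P (a * b) ↔ LocSq P b := by
  constructor
  · intro h
    have h1 := ha.inv.mul h
    rwa [inv_mul_cancel_left₀ ha.ne_zero] at h1
  · intro h
    exact ha.mul h

theorem locSq_mul_sq (P : HeightOneSpectrum (𝓞 k)) {c : k} (hc : c ≠ 0) (a : k) :
    LocSq P (a * c ^ 2) ↔ LocSq P a := by
  rw [mul_comm]
  exact (locSq_sq P hc).mul_iff a

theorem LocSq.even {P : HeightOneSpectrum (𝓞 k)} {a : k} (h : LocSq P a) : Even (ord P a) := by
  obtain ⟨c, hc⟩ := h 1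
  obtain ⟨h1, h2⟩ := sqr_unit P (by norm_num) hc
  have h3 : c ≠ 0 := by
    intro h4
    exact h1 (by rw [h4]; ring)
  rw [ord_mul P h.ne_zero (pow_ne_zero _ h3), ord_pow] at h2
  push_cast at h2
  exact ⟨- ord P c, by omega⟩

theorem locSq_of_prec (P : HeightOneSpectrum (𝓞 k)) {a : k} (c : k)
    (h : a * c ^ 2 = 1 ∨ 2 * ord P (2 : k) + 1 ≤ ord P (a * c ^ 2 - 1)) : LocSq P a := by
  have he : 0 ≤ ord P (2 : k) := by
    have e0 : ((2 : 𝓞 k) : k) = 2 := map_ofNat (algebraMap (𝓞 k) k) 2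
    have h1 := ord_int_nonneg P (2 : 𝓞 k)
    rwa [e0] at h1
  have h3 : (-3 : k) = 0 ∨ (0 : ℤ) ≤ ord P (-3 : k) := by
    right
    have e0 : ((3 : 𝓞 k) : k) = 3 := map_ofNat (algebraMap (𝓞 k) k) 3
    have h1 := ord_int_nonneg P (3 : 𝓞 k)
    rwa [e0, ← ord_neg] at h1
  have key : ∀ j : ℕ, ∃ c : k, a * c ^ 2 - 1 = 0 ∨
      2 * ord P (2 : k) + 1 + (j : ℤ) ≤ ord P (a * c ^ 2 - 1) := by
    intro j
    induction j with
    | zero =>
      refine ⟨c, ?_⟩
      rw [sqr_iff] at h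
      exact sqr_mono P (by push_cast; omega) h
    | succ j ih =>
      obtain ⟨d, hd⟩ := ih
      set t : k := a * d ^ 2 - 1 with ht
      refine ⟨d * (1 - t / 2), ?_⟩
      have e1 : a * (d * (1 - t / 2)) ^ 2 - 1 = -3 * (t * t * 4⁻¹) + t * (t * t * 4⁻¹) := by
        have e2 : a * (d * (1 - t / 2)) ^ 2 = (1 + t) * (1 - t / 2) ^ 2 := by
          rw [ht]
          ring
        rw [e2]
        ring
      rw [e1]
      have h4 : ((4 : k)⁻¹ : k) = 0 ∨ -(2 * ord P (2 : k)) ≤ ord P ((4 : k)⁻¹) := by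
        right
        have e3 : (4 : k) = 2 ^ 2 := by norm_num
        rw [ord_inv, e3, ord_pow]
        push_cast
        exact le_refl _
      have h5 := sqr_prod P (sqr_prod P hd hd) h4
      have h6 := sqr_prod P h3 h5
      have h7 := sqr_prod P hd h5
      push_cast
      exact le_ord_add P _ (sqr_mono P (by omega) h6) (sqr_mono P (by omega) h7)
  intro n
  obtain ⟨d, hd⟩ := key n
  refine ⟨d, ?_⟩
  rw [sqr_iff]
  exact sqr_mono P (by omega) hd

theorem locSq_one_add (P : HeightOneSpectrum (𝓞 k)) {t : k}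
    (ht : t = 0 ∨ 2 * ord P (2 : k) + 1 ≤ ord P t) : LocSq P (1 + t) := by
  refine locSq_of_prec P 1 ?_
  rw [sqr_iff]
  have h : (1 + t) * 1 ^ 2 - 1 = t := by ring
  rw [h]
  exact ht

end

end Pool.Agent.H98.MF
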