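import Pool.Agent.H98.MF.Base

/-!
# Project MK4, block L: fixed fields of open subgroups (port of MK/FldBasic.lean)
-/

set_option autoImplicit false

open scoped BigOperators Pointwise
open NumberField IsDedekindDomain

namespace Pool.Agent.H98.MF

section

variable {k : Type} [Field k] [NumberField k]

instance omK_galois : IsGalois k (Om k) := by
  have : CharZero k := inferInstance
  exact IsAlgClosure.isGalois k (AlgebraicClosure k)

theorem gmK_compact : CompactSpace (Gm k) := inferInstance

theorem fldK_fixing (U : Subgroup (Gm k)) (hU : IsOpen (U : Set (Gm k))) :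
    (fld k U).fixingSubgroup = U :=
  InfiniteGalois.fixingSubgroup_fixedField ⟨U, Subgroup.isClosed_of_isOpen U hU⟩

theorem fldK_finite (U : Subgroup (Gm k)) (hU : IsOpen (U : Set (Gm k))) :
    FiniteDimensional k (fld k U) := by
  refine (InfiniteGalois.isOpen_iff_finite (fld k U)).1 ?_
  rw [fldK_fixing U hU]
  exact hU

theorem fldK_finrank (U : Subgroup (Gm k)) (hU : IsOpen (U : Set (Gm k))) :
    Module.finrank k (fld k U) = U.index := by
  have h := IntermediateField.finrank_eq_fixingSubgroup_index (Om k) (fld k U)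
  rwa [fldK_fixing U hU] at h

theorem fldK_galois (U : Subgroup (Gm k)) [U.Normal] (hU : IsOpen (U : Set (Gm k))) :
    IsGalois k (fld k U) := by
  refine (InfiniteGalois.normal_iff_isGalois (fld k U)).1 ?_
  rw [fldK_fixing U hU]
  infer_instance

theorem fldK_mono {U W : Subgroup (Gm k)} (h : U ≤ W) : fld k W ≤ fld k U := by
  intro x hx
  exact (IntermediateField.mem_fixedField_iff U x).2 fun f hf =>
    (IntermediateField.mem_fixedField_iff W x).1 hx f (h hf)

theorem fldK_nf (U : Subgroup (Gm k)) (hU : IsOpen (U : Set (Gm k))) :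
    NumberField (fld k U) := by
  have h1 := fldK_finite U hU
  have h2 : FiniteDimensional ℚ (fld k U) := Module.Finite.trans (R := ℚ) k (fld k U)
  exact { to_charZero := inferInstance, to_finiteDimensional := h2 }

theorem fixing_openK (K : IntermediateField k (Om k)) [FiniteDimensional k K] :
    IsOpen (K.fixingSubgroup : Set (Gm k)) := IntermediateField.fixingSubgroup_isOpen K

theorem fldK_fixed (K : IntermediateField k (Om k)) : fld k K.fixingSubgroup = K :=
  InfiniteGalois.fixedField_fixingSubgroup K

theorem index_ne_zeroK (U : Subgroup (Gm k)) (hU : IsOpen (U : Set (Gm k))) : U.index ≠ 0 := by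
  rw [← fldK_finrank U hU]
  have := fldK_finite U hU
  exact (Module.finrank_pos).ne'

/-- surjection to the finite level -/
theorem exists_resK (U : Subgroup (Gm k)) [U.Normal] (hU : IsOpen (U : Set (Gm k))) :
    ∃ π : Gm k →* ((fld k U) ≃ₐ[k] (fld k U)), Function.Surjective π ∧ π.ker = U ∧
      ∀ (σ : Gm k) (x : fld k U), ((π σ x : fld k U) : Om k) = σ (x : Om k) := by
  have := fldK_galois U hU
  have hc : ∀ (σ : Gm k) (x : fld k U),
      ((AlgEquiv.restrictNormalHom (fld k U) σ x : fld k U) : Om k) = σ (x : Om k) :=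
    fun σ x => AlgEquiv.restrictNormal_commutes σ (fld k U) x
  refine ⟨AlgEquiv.restrictNormalHom (fld k U),
    AlgEquiv.restrictNormalHom_surjective (Om k), ?_, hc⟩
  conv_rhs => rw [← fldK_fixing U hU]
  ext σ
  rw [MonoidHom.mem_ker, IntermediateField.mem_fixingSubgroup_iff]
  constructor
  · intro h x hx
    have h1 := hc σ ⟨x, hx⟩
    rw [h] at h1
    exact h1.symm
  · intro h
    apply AlgEquiv.ext
    intro x
    apply Subtype.ext
    rw [hc σ x, h x x.2]
    rfl

theorem ker_openK {H : Type} [Group H] (ρ : Gm k →* H) (h : IsLocallyConstant ρ) :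
    IsOpen (ρ.ker : Set (Gm k)) := h {1}

theorem lc_of_ker_openK {H : Type} [Group H] (ρ : Gm k →* H)
    (h : IsOpen (ρ.ker : Set (Gm k))) : IsLocallyConstant ρ := by
  rw [IsLocallyConstant.iff_exists_open]
  intro x
  refine ⟨(fun y => x⁻¹ * y) ⁻¹' (ρ.ker : Set (Gm k)), h.preimage (continuous_const_mul x⁻¹),
    ?_, ?_⟩
  · simp
  · intro y hy
    have h1 : x⁻¹ * y ∈ ρ.ker := hy
    rw [MonoidHom.mem_ker, map_mul, map_inv, inv_mul_eq_one] at h1
    exact h1.symm

end

end Pool.Agent.H98.MF
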