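import Pool.Agent.H98.MF.L.Ord

/-!
# Project MK4, block L: primes in a quadratic extension (helper file for Quad and C3b)
-/

set_option autoImplicit false

open scoped BigOperators Pointwise nonZeroDivisors
open NumberField IsDedekindDomain

namespace Pool.Agent.H98.MF

section field

variable {k : Type} [Field k] {L : Type} [Field L] [Algebra k L]

theorem qx_not_range {a : k} {s : L} (hs : s ^ 2 = algebraMap k L a) (hns : ¬ IsSquare a) (c : k) :
    s ≠ algebraMap k L c := by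
  intro h
  apply hns
  refine ⟨c, ?_⟩
  apply (algebraMap k L).injective
  rw [← hs, h, map_mul, pow_two]

/-- every element is `x + y s` -/
theorem qx_repr {a : k} {s : L} (hs : s ^ 2 = algebraMap k L a) (hns : ¬ IsSquare a)
    (hL : Module.finrank k L = 2) (z : L) :
    ∃ x y : k, z = algebraMap k L x + algebraMap k L y * s := by
  have : Module.Finite k L := Module.finite_of_finrank_pos (by omega)
  have hli : LinearIndependent k ![(1 : L), s] := by
    rw [LinearIndependent.pair_iff]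
    intro x y h
    by_cases hy : y = 0
    · subst hy
      rw [zero_smul, add_zero, Algebra.smul_def, mul_one] at h
      exact ⟨(algebraMap k L).injective (by rw [h, map_zero]), rfl⟩
    · exfalso
      apply qx_not_range hs hns (-(x / y))
      rw [Algebra.smul_def, Algebra.smul_def, mul_one] at h
      have hy' : algebraMap k L y ≠ 0 := by simpa using hy
      rw [map_neg, map_div₀]
      field_simp
      linear_combination h
  have hsp : Submodule.span k (Set.range ![(1 : L), s]) = ⊤ :=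
    hli.span_eq_top_of_card_eq_finrank' (by simp [hL])
  have hz : z ∈ Submodule.span k (Set.range ![(1 : L), s]) := by rw [hsp]; trivial
  rw [Matrix.range_cons, Matrix.range_cons, Matrix.range_empty, Set.union_empty,
    Set.singleton_union] at hz
  rw [Submodule.mem_span_pair] at hz
  obtain ⟨x, y, h⟩ := hz
  refine ⟨x, y, ?_⟩
  rw [← h, Algebra.smul_def, Algebra.smul_def, mul_one]

/-- the conjugation -/
theorem qx_conj [CharZero k] {a : k} {s : L} (hs : s ^ 2 = algebraMap k L a) (hns : ¬ IsSquare a)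
    (hL : Module.finrank k L = 2) :
    ∃ σ : L ≃ₐ[k] L, σ s = -s ∧ (∀ z, σ (σ z) = z) ∧ ∀ τ : L ≃ₐ[k] L, τ = 1 ∨ τ = σ := by
  have : Algebra.IsQuadraticExtension k L := { finrank_eq_two' := hL }
  have : FiniteDimensional k L := inferInstance
  have hcard : Nat.card (L ≃ₐ[k] L) = 2 := by
    rw [IsGalois.card_aut_eq_finrank k L, hL]
  obtain ⟨u, v, huv, huniv⟩ := Nat.card_eq_two_iff.1 hcard
  have hall : ∀ τ : L ≃ₐ[k] L, τ = u ∨ τ = v := by
    intro τ
    have : τ ∈ ({u, v} : Set (L ≃ₐ[k] L)) := by rw [huniv]; trivial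
    simpa using this
  obtain ⟨σ, hσ1, hσ⟩ : ∃ σ : L ≃ₐ[k] L, σ ≠ 1 ∧ ∀ τ : L ≃ₐ[k] L, τ = 1 ∨ τ = σ := by
    rcases hall 1 with h | h
    · exact ⟨v, fun h2 => huv (h.symm.trans h2.symm), fun τ => by
        rcases hall τ with h3 | h3
        · left; rw [h3, ← h]
        · right; exact h3⟩
    · exact ⟨u, fun h2 => huv (h2.trans h), fun τ => by
        rcases hall τ with h3 | h3
        · right; exact h3
        · left; rw [h3, ← h]⟩
  refine ⟨σ, ?_, ?_, hσ⟩
  · have h1 : (σ s) ^ 2 = s ^ 2 := by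
      rw [← map_pow, hs, AlgEquiv.commutes]
    rcases sq_eq_sq_iff_eq_or_eq_neg.1 h1 with h2 | h2
    · exfalso
      apply hσ1
      ext z
      obtain ⟨x, y, rfl⟩ := qx_repr hs hns hL z
      simp [h2]
    · exact h2
  · intro z
    rcases hσ (σ * σ) with h | h
    · have := congrArg (fun f : L ≃ₐ[k] L => f z) h
      simpa using this
    · exfalso
      apply hσ1
      have h3 : σ * σ = σ * 1 := by rw [h, mul_one]
      exact mul_left_cancel h3

theorem qx_norm [CharZero k] {a : k} {s : L} (hs : s ^ 2 = algebraMap k L a) (hns : ¬ IsSquare a)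
    (hL : Module.finrank k L = 2) (σ : L ≃ₐ[k] L) (hσ : σ s = -s)
    (hall : ∀ τ : L ≃ₐ[k] L, τ = 1 ∨ τ = σ) (z : L) :
    algebraMap k L (Algebra.norm k z) = z * σ z := by
  classical
  have : Algebra.IsQuadraticExtension k L := { finrank_eq_two' := hL }
  have : FiniteDimensional k L := inferInstance
  rw [Algebra.norm_eq_prod_automorphisms]
  have hne : (1 : L ≃ₐ[k] L) ≠ σ := by
    rintro rfl
    have h2 : s = -s := by simpa using hσ
    have h3 : s = 0 := by
      have : CharZero L := charZero_of_injective_algebraMap (algebraMap k L).injective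
      exact self_eq_neg.1 h2
    exact qx_not_range hs hns 0 (by rw [h3, map_zero])
  have hu : (Finset.univ : Finset (L ≃ₐ[k] L)) = {1, σ} := by
    ext τ
    simpa using hall τ
  rw [hu, Finset.prod_pair hne]
  rfl

theorem qx_norm_form [CharZero k] {a : k} {s : L} (hs : s ^ 2 = algebraMap k L a)
    (hns : ¬ IsSquare a) (hL : Module.finrank k L = 2) (x y : k) :
    Algebra.norm k (algebraMap k L x + algebraMap k L y * s) = x ^ 2 - a * y ^ 2 := by
  obtain ⟨σ, hσ, _, hall⟩ := qx_conj hs hns hL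
  apply (algebraMap k L).injective
  rw [qx_norm hs hns hL σ hσ hall]
  simp only [map_add, map_mul, hσ, AlgEquiv.commutes, map_sub, map_pow]
  linear_combination (-(algebraMap k L y) ^ 2) * hs

theorem qx_trace {a : k} {s : L} (hs : s ^ 2 = algebraMap k L a) (hns : ¬ IsSquare a)
    (hL : Module.finrank k L = 2) (σ : L ≃ₐ[k] L) (hσ : σ s = -s) (z : L) :
    ∃ c : k, z + σ z = algebraMap k L c := by
  obtain ⟨x, y, rfl⟩ := qx_repr hs hns hL z
  refine ⟨2 * x, ?_⟩
  simp only [map_add, map_mul, hσ, AlgEquiv.commutes, map_ofNat]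
  ring

end field

section integers

variable {k : Type} [Field k] [NumberField k] {L : Type} [Field L] [NumberField L] [Algebra k L]

/-- the automorphism of the ring of integers -/
noncomputable def qxR (σ : L ≃ₐ[k] L) : 𝓞 L ≃+* 𝓞 L :=
  RingOfIntegers.mapRingEquiv σ.toRingEquiv

theorem qxR_coe (σ : L ≃ₐ[k] L) (x : 𝓞 L) : ((qxR σ x : 𝓞 L) : L) = σ (x : L) := rfl

theorem qxR_algebraMap (σ : L ≃ₐ[k] L) (x : 𝓞 k) :
    qxR σ (algebraMap (𝓞 k) (𝓞 L) x) = algebraMap (𝓞 k) (𝓞 L) x := by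
  apply RingOfIntegers.ext
  rw [qxR_coe]
  exact σ.commutes (x : k)

/-- the conjugate prime -/
noncomputable def cj (σ : L ≃ₐ[k] L) (Q : HeightOneSpectrum (𝓞 L)) : HeightOneSpectrum (𝓞 L) where
  asIdeal := Q.asIdeal.comap (qxR σ)
  isPrime := Ideal.comap_isPrime (qxR σ) Q.asIdeal
  ne_bot := by
    intro h
    apply Q.ne_bot
    rw [eq_bot_iff]
    intro x hx
    have h1 : (qxR σ).symm x ∈ Q.asIdeal.comap (qxR σ) := by
      rw [Ideal.mem_comap]
      simpa using hx
    rw [h, Ideal.mem_bot] at h1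
    rw [Ideal.mem_bot]
    simpa using h1

theorem mem_cj (σ : L ≃ₐ[k] L) (Q : HeightOneSpectrum (𝓞 L)) (x : 𝓞 L) :
    x ∈ (cj σ Q).asIdeal ↔ qxR σ x ∈ Q.asIdeal := Iff.rfl

theorem cj_pow (σ : L ≃ₐ[k] L) (Q : HeightOneSpectrum (𝓞 L)) (n : ℕ) (x : 𝓞 L) :
    x ∈ (cj σ Q).asIdeal ^ n ↔ qxR σ x ∈ Q.asIdeal ^ n := by
  have h : (cj σ Q).asIdeal = Q.asIdeal.map (qxR σ).symm := by
    show Q.asIdeal.comap (qxR σ) = _
    rw [Ideal.map_symm]
  rw [h, ← Ideal.map_pow, Ideal.map_symm, Ideal.mem_comap]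

theorem ord_cj_int (σ : L ≃ₐ[k] L) (Q : HeightOneSpectrum (𝓞 L)) (x : 𝓞 L) :
    ord (cj σ Q) (x : L) = ord Q (σ (x : L)) := by
  by_cases hx : x = 0
  · subst hx
    simp [ord_zero]
  have hx' : qxR σ x ≠ 0 := by simpa using hx
  have h : ∀ n : ℕ, (n : ℤ) ≤ ord (cj σ Q) (x : L) ↔ (n : ℤ) ≤ ord Q (σ (x : L)) := by
    intro n
    have h1 := le_ord_iff (cj σ Q) x n
    have h2 := le_ord_iff Q (qxR σ x) n
    rw [cj_pow, ← h2, qxR_coe] at h1
    simpa [hx, hx'] using h1
  have h3 := ord_int_nonneg (cj σ Q) x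
  have h4 := ord_int_nonneg Q (qxR σ x)
  rw [qxR_coe] at h4
  apply le_antisymm
  · have := (h (ord (cj σ Q) (x : L)).toNat).1 (by rw [Int.toNat_of_nonneg h3])
    rwa [Int.toNat_of_nonneg h3] at this
  · have := (h (ord Q (σ (x : L))).toNat).2 (by rw [Int.toNat_of_nonneg h4])
    rwa [Int.toNat_of_nonneg h4] at this

theorem ord_cj (σ : L ≃ₐ[k] L) (Q : HeightOneSpectrum (𝓞 L)) (z : L) :
    ord (cj σ Q) z = ord Q (σ z) := by
  by_cases hz : z = 0
  · subst hz
    simp [ord_zero]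
  obtain ⟨x, y, hy, rfl⟩ := IsFractionRing.div_surjective (A := 𝓞 L) z
  have hy1 : (algebraMap (𝓞 L) L y) ≠ 0 := by
    simpa using nonZeroDivisors.ne_zero hy
  have hx1 : (algebraMap (𝓞 L) L x) ≠ 0 := by
    intro h
    exact hz (by rw [h, zero_div])
  have hx2 : σ (algebraMap (𝓞 L) L x) ≠ 0 := by simpa using hx1
  have hy2 : σ (algebraMap (𝓞 L) L y) ≠ 0 := by simpa using hy1
  rw [ord_div _ hx1 hy1, map_div₀, ord_div _ hx2 hy2]
  have h1 := ord_cj_int σ Q x
  have h2 := ord_cj_int σ Q y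
  rw [← h1, ← h2]

/-- `Q` lies over `P` -/
def Over (P : HeightOneSpectrum (𝓞 k)) (Q : HeightOneSpectrum (𝓞 L)) : Prop :=
  Q.asIdeal.comap (algebraMap (𝓞 k) (𝓞 L)) = P.asIdeal

theorem Over.liesOver {P : HeightOneSpectrum (𝓞 k)} {Q : HeightOneSpectrum (𝓞 L)}
    (h : Over P Q) : Q.asIdeal.LiesOver P.asIdeal := ⟨h.symm⟩

theorem Over.cj {P : HeightOneSpectrum (𝓞 k)} {Q : HeightOneSpectrum (𝓞 L)}
    (h : Over P Q) (σ : L ≃ₐ[k] L) : Over P (cj σ Q) := by
  unfold Over at h ⊢
  ext x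
  rw [← h, Ideal.mem_comap, mem_cj, qxR_algebraMap, Ideal.mem_comap]

theorem exists_over (P : HeightOneSpectrum (𝓞 k)) :
    ∃ Q : HeightOneSpectrum (𝓞 L), Over P Q := by
  obtain ⟨Q, hQ1, hQ2⟩ := Ideal.exists_ideal_over_prime_of_isIntegral P.asIdeal
    (⊥ : Ideal (𝓞 L)) (by
      intro x hx
      rw [Ideal.mem_comap, Ideal.mem_bot] at hx
      have : x = 0 := (FaithfulSMul.algebraMap_injective (𝓞 k) (𝓞 L)) (by rw [hx, map_zero])
      rw [this]
      exact P.asIdeal.zero_mem)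
  refine ⟨⟨Q, hQ2.1, ?_⟩, hQ2.2⟩
  rintro rfl
  apply P.ne_bot
  rw [eq_bot_iff, ← hQ2.2]
  intro x hx
  rw [Ideal.mem_comap, Ideal.mem_bot] at hx
  rw [Ideal.mem_bot]
  exact (FaithfulSMul.algebraMap_injective (𝓞 k) (𝓞 L)) (by rw [hx, map_zero])

/-- the exponents at a prime above `P` -/
theorem Over.ord_map {P : HeightOneSpectrum (𝓞 k)} {Q : HeightOneSpectrum (𝓞 L)}
    (h : Over P Q) (x : k) :
    ord Q (algebraMap k L x) = (P.asIdeal.ramificationIdx' Q.asIdeal : ℤ) * ord P x := by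
  have := h.liesOver
  by_cases hx : x = 0
  · simp [hx, ord_zero]
  have hx' : algebraMap k L x ≠ 0 := by simpa using hx
  have h1 := HeightOneSpectrum.valuation_liesOver (A := 𝓞 k) (K := k) L (B := 𝓞 L) P Q x
  rw [valuation_eq P hx, valuation_eq Q hx', ← WithZero.exp_nsmul] at h1
  have h2 := WithZero.exp_injective h1
  simp only [smul_neg, nsmul_eq_mul, neg_inj] at h2
  exact h2.symm

theorem Over.ram_pos {P : HeightOneSpectrum (𝓞 k)} {Q : HeightOneSpectrum (𝓞 L)}
    (h : Over P Q) : 1 ≤ P.asIdeal.ramificationIdx' Q.asIdeal := by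
  have := h.liesOver
  exact Nat.one_le_iff_ne_zero.2
    (Ideal.IsDedekindDomain.ramificationIdx'_ne_zero_of_liesOver Q.asIdeal P.ne_bot)

end integers

end Pool.Agent.H98.MF
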