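import Pool.Agent.H98.MF.L.Defs

/-!
# Project MK4, block L, file Ord: basic properties of the exponent of a prime
-/

set_option autoImplicit false

open scoped BigOperators Pointwise nonZeroDivisors
open NumberField IsDedekindDomain

namespace Pool.Agent.H98.MF

section

variable {k : Type} [Field k] [NumberField k]

theorem ord_zero (P : HeightOneSpectrum (𝓞 k)) : ord P (0 : k) = 0 := by
  unfold ord
  rw [FractionalIdeal.spanSingleton_zero]
  exact FractionalIdeal.count_zero k P

theorem ord_one (P : HeightOneSpectrum (𝓞 k)) : ord P (1 : k) = 0 := by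
  unfold ord
  rw [FractionalIdeal.spanSingleton_one]
  exact FractionalIdeal.count_one k P

theorem ord_mul (P : HeightOneSpectrum (𝓞 k)) {a b : k} (ha : a ≠ 0) (hb : b ≠ 0) :
    ord P (a * b) = ord P a + ord P b := by
  unfold ord
  rw [← FractionalIdeal.spanSingleton_mul_spanSingleton]
  exact FractionalIdeal.count_mul k P (FractionalIdeal.spanSingleton_ne_zero_iff.2 ha)
    (FractionalIdeal.spanSingleton_ne_zero_iff.2 hb)

theorem ord_inv (P : HeightOneSpectrum (𝓞 k)) (a : k) : ord P a⁻¹ = - ord P a := by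
  unfold ord
  rw [← FractionalIdeal.spanSingleton_inv]
  exact FractionalIdeal.count_inv k P _

theorem ord_pow (P : HeightOneSpectrum (𝓞 k)) (a : k) (n : ℕ) :
    ord P (a ^ n) = n * ord P a := by
  unfold ord
  rw [← FractionalIdeal.spanSingleton_pow]
  exact FractionalIdeal.count_pow k P n _

theorem ord_neg (P : HeightOneSpectrum (𝓞 k)) (a : k) : ord P (-a) = ord P a := by
  by_cases ha : a = 0
  · rw [ha, neg_zero]
  have h := ord_pow P (-1 : k) 2
  rw [neg_one_sq, ord_one] at h
  push_cast at h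
  have h1 : ord P (-1 : k) = 0 := by linarith
  rw [← neg_one_mul, ord_mul P (neg_ne_zero.2 one_ne_zero) ha, h1, zero_add]

theorem ord_div (P : HeightOneSpectrum (𝓞 k)) {a b : k} (ha : a ≠ 0) (hb : b ≠ 0) :
    ord P (a / b) = ord P a - ord P b := by
  rw [div_eq_mul_inv, ord_mul P ha (inv_ne_zero hb), ord_inv]
  ring

/-- the exponent of an integer through the factorization of the principal ideal -/
theorem ord_coe_eq (P : HeightOneSpectrum (𝓞 k)) {a : 𝓞 k} (ha : a ≠ 0) :
    ord P (a : k) = ((Associates.mk P.asIdeal).count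
      (Associates.mk (Ideal.span {a} : Ideal (𝓞 k))).factors : ℤ) := by
  unfold ord
  have h1 : (Ideal.span {a} : Ideal (𝓞 k)) ≠ 0 := by
    rw [Ideal.zero_eq_bot, Ne, Ideal.span_singleton_eq_bot]
    exact ha
  have h2 := FractionalIdeal.count_coe k P h1
  rw [FractionalIdeal.coeIdeal_span_singleton] at h2
  exact h2

theorem intValuation_eq (P : HeightOneSpectrum (𝓞 k)) {a : 𝓞 k} (ha : a ≠ 0) :
    P.intValuation a = WithZero.exp (-(ord P (a : k))) := by
  rw [HeightOneSpectrum.intValuation_if_neg P ha, ord_coe_eq P ha]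

theorem valuation_eq (P : HeightOneSpectrum (𝓞 k)) {a : k} (ha : a ≠ 0) :
    P.valuation k a = WithZero.exp (-(ord P a)) := by
  obtain ⟨x, y, hy, rfl⟩ := IsFractionRing.div_surjective (A := 𝓞 k) a
  have hy0 : y ≠ 0 := nonZeroDivisors.ne_zero hy
  have hx0 : x ≠ 0 := by
    rintro rfl
    exact ha (by simp)
  have hx1 : (algebraMap (𝓞 k) k x) ≠ 0 := by simpa using hx0
  have hy1 : (algebraMap (𝓞 k) k y) ≠ 0 := by simpa using hy0
  rw [map_div₀, HeightOneSpectrum.valuation_of_algebraMap, HeightOneSpectrum.valuation_of_algebraMap,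
    intValuation_eq P hx0, intValuation_eq P hy0, ord_div P hx1 hy1, ← WithZero.exp_sub]
  congr 1
  ring

theorem le_ord_iff_valuation (P : HeightOneSpectrum (𝓞 k)) (a : k) (n : ℤ) :
    (a = 0 ∨ n ≤ ord P a) ↔ P.valuation k a ≤ WithZero.exp (-n) := by
  by_cases ha : a = 0
  · simp [ha]
  · rw [valuation_eq P ha, WithZero.exp_le_exp]
    simp only [ha, false_or, neg_le_neg_iff]

theorem le_ord_add (P : HeightOneSpectrum (𝓞 k)) {a b : k} (n : ℤ) (ha : a = 0 ∨ n ≤ ord P a)
    (hb : b = 0 ∨ n ≤ ord P b) : a + b = 0 ∨ n ≤ ord P (a + b) := by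
  rw [le_ord_iff_valuation] at ha hb ⊢
  exact (Valuation.map_add _ _ _).trans (max_le ha hb)

theorem ord_add_eq (P : HeightOneSpectrum (𝓞 k)) {a b : k} (ha : a ≠ 0)
    (hb : b = 0 ∨ ord P a < ord P b) : a + b ≠ 0 ∧ ord P (a + b) = ord P a := by
  by_cases hb0 : b = 0
  · rw [hb0, add_zero]
    exact ⟨ha, rfl⟩
  have hb1 : ord P a < ord P b := hb.resolve_left hb0
  have hlt : P.valuation k b < P.valuation k a := by
    rw [valuation_eq P ha, valuation_eq P hb0, WithZero.exp_lt_exp]
    linarith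
  have h1 : P.valuation k (a + b) = P.valuation k a := Valuation.map_add_eq_of_lt_left _ hlt
  have h2 : a + b ≠ 0 := by
    intro h
    rw [h, map_zero] at h1
    exact ha ((map_eq_zero (P.valuation k)).1 h1.symm)
  refine ⟨h2, ?_⟩
  rw [valuation_eq P ha, valuation_eq P h2] at h1
  have h3 := WithZero.exp_injective h1
  linarith

theorem le_ord_iff (P : HeightOneSpectrum (𝓞 k)) (a : 𝓞 k) (n : ℕ) :
    (a = 0 ∨ (n : ℤ) ≤ ord P (a : k)) ↔ a ∈ P.asIdeal ^ n := by
  rw [← HeightOneSpectrum.intValuation_le_pow_iff_mem]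
  by_cases ha : a = 0
  · simp [ha]
  · rw [intValuation_eq P ha, WithZero.exp_le_exp]
    simp only [ha, false_or, neg_le_neg_iff]

theorem ord_int_nonneg (P : HeightOneSpectrum (𝓞 k)) (a : 𝓞 k) : 0 ≤ ord P (a : k) := by
  by_cases ha : a = 0
  · rw [ha]
    have : ((0 : 𝓞 k) : k) = 0 := by simp
    rw [this, ord_zero]
  · have h := (le_ord_iff P a 0).2 (by simp)
    simpa [ha] using h

theorem ord_unit (P : HeightOneSpectrum (𝓞 k)) {y : 𝓞 k} (hy : y ∉ P.asIdeal) :
    ord P (y : k) = 0 := by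
  have hy0 : y ≠ 0 := fun h => hy (h ▸ P.asIdeal.zero_mem)
  refine le_antisymm ?_ (ord_int_nonneg P y)
  by_contra h
  push Not at h
  have h1 := (le_ord_iff P y 1).1 (Or.inr (by exact_mod_cast h))
  rw [pow_one] at h1
  exact hy h1

theorem ord_nonneg_iff (P : HeightOneSpectrum (𝓞 k)) (a : k) :
    0 ≤ ord P a ↔ ∃ x y : 𝓞 k, y ∉ P.asIdeal ∧ a * (y : k) = (x : k) := by
  constructor
  · intro h
    have h1 : P.valuation k a ≤ 1 := by
      have := (le_ord_iff_valuation P a 0).1 (Or.inr h)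
      simpa using this
    obtain ⟨n, d, hd⟩ := P.exists_primeCompl_mul_eq_of_integer (K := k) a h1
    exact ⟨n, d.1, d.2, hd⟩
  · rintro ⟨x, y, hy, h⟩
    by_cases ha : a = 0
    · rw [ha, ord_zero]
    have hy0 : (y : k) ≠ 0 := by
      intro h0
      have : y = 0 := by exact_mod_cast h0
      exact hy (this ▸ P.asIdeal.zero_mem)
    have h1 := ord_mul P ha hy0
    rw [h, ord_unit P hy, add_zero] at h1
    rw [← h1]
    exact ord_int_nonneg P x

theorem exists_unif (P : HeightOneSpectrum (𝓞 k)) : ∃ π : 𝓞 k, ord P (π : k) = 1 := by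
  obtain ⟨π, hπ⟩ := P.intValuation_exists_uniformizer
  refine ⟨π, ?_⟩
  have h0 : π ≠ 0 := by
    rintro rfl
    rw [map_zero] at hπ
    exact WithZero.exp_ne_zero hπ.symm
  rw [intValuation_eq P h0] at hπ
  have := WithZero.exp_injective hπ
  linarith

theorem ord_apx (P : HeightOneSpectrum (𝓞 k)) {a : k} (ha : 0 ≤ ord P a) (n : ℕ) :
    ∃ b : 𝓞 k, a = (b : k) ∨ (n : ℤ) ≤ ord P (a - b) := by
  have h1 : P.valuation k a ≤ 1 := by
    have := (le_ord_iff_valuation P a 0).1 (Or.inr ha)
    simpa using this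
  obtain ⟨b, hb⟩ := P.exists_valuation_sub_lt_of_integer (K := k) h1
    (Units.mk0 (WithZero.exp (-(n : ℤ))) WithZero.exp_ne_zero)
  refine ⟨b, ?_⟩
  rw [Units.val_mk0, Valuation.map_sub_swap] at hb
  have h2 := (le_ord_iff_valuation P (a - (b : k)) n).2 hb.le
  rwa [sub_eq_zero] at h2

/-- only finitely many primes occur in an element -/
theorem ord_finite {a : k} (ha : a ≠ 0) :
    {P : HeightOneSpectrum (𝓞 k) | ord P a ≠ 0}.Finite := by
  have h := FractionalIdeal.finite_factors
    (FractionalIdeal.spanSingleton (𝓞 k)⁰ a)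
  simpa [ord, Filter.eventually_cofinite] using h

end

end Pool.Agent.H98.MF
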