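import Pool.Agent.H98.MF.L.Defs
import Pool.Agent.H98.MF.L.Fld

/-!
# Project MK4, block L: Kummer theory for homomorphisms on a subgroup
-/

set_option autoImplicit false

open scoped BigOperators Pointwise
open NumberField IsDedekindDomain

namespace Pool.Agent.H98.MF

section

/-- signs in a field -/
noncomputable def kse {F : Type} [Field F] (c : ZMod 2) : F := if c = 0 then 1 else -1

theorem kse_zero {F : Type} [Field F] : (kse 0 : F) = 1 := if_pos rfl

theorem kse_one {F : Type} [Field F] : (kse 1 : F) = -1 := if_neg (by decide)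

theorem kse_cases (c : ZMod 2) : c = 0 ∨ c = 1 := by
  fin_cases c
  · exact Or.inl rfl
  · exact Or.inr rfl

theorem kse_add {F : Type} [Field F] (c d : ZMod 2) : (kse (c + d) : F) = kse c * kse d := by
  rcases kse_cases c with rfl | rfl <;> rcases kse_cases d with rfl | rfl
  · rw [zero_add, kse_zero, one_mul]
  · rw [zero_add, kse_zero, one_mul]
  · rw [add_zero, kse_zero, mul_one]
  · have : (1 : ZMod 2) + 1 = 0 := by decide
    rw [this, kse_zero, kse_one]
    ring

theorem kse_mul_self {F : Type} [Field F] (c : ZMod 2) : (kse c : F) * kse c = 1 := by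
  rcases kse_cases c with rfl | rfl
  · rw [kse_zero, one_mul]
  · rw [kse_one]
    ring

theorem kse_ne {F : Type} [Field F] (c : ZMod 2) : (kse c : F) ≠ 0 := by
  intro h
  have := kse_mul_self (F := F) c
  rw [h, zero_mul] at this
  exact zero_ne_one this

theorem kse_map {F E : Type} [Field F] [Field E] (σ : F →+* E) (c : ZMod 2) :
    σ (kse c) = kse c := by
  rcases kse_cases c with rfl | rfl
  · rw [kse_zero, kse_zero, map_one]
  · rw [kse_one, kse_one, map_neg, map_one]

end

section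

variable {k : Type} [Field k] [NumberField k]

/-- a locally constant function is constant on the cosets of the group fixing a finite normal
extension -/
theorem lc_unifE {X : Type} (f : Gm k → X) (hf : IsLocallyConstant f) :
    ∃ E : IntermediateField k (Om k), FiniteDimensional k E ∧ Normal k E ∧
      ∀ σ, ∀ u ∈ E.fixingSubgroup, f (σ * u) = f σ := by
  classical
  have hc : CompactSpace (Gm k) := gmK_compact
  have h1 : ∀ σ : Gm k, ∃ E : IntermediateField k (Om k), FiniteDimensional k E ∧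
      ∀ u ∈ E.fixingSubgroup, f (σ * u) = f σ := by
    intro σ
    have h2 : {τ : Gm k | f (σ * τ) = f σ} ∈ nhds (1 : Gm k) := by
      have h3 : Filter.Tendsto (fun τ : Gm k => σ * τ) (nhds 1) (nhds σ) := by
        have h4 : Continuous fun τ : Gm k => σ * τ := continuous_const.mul continuous_id
        have h5 := h4.tendsto 1
        simpa using h5
      exact h3 ((IsLocallyConstant.iff_eventually_eq f).1 hf σ)
    rw [krullTopology_mem_nhds_one_iff] at h2
    obtain ⟨E, hE, hE'⟩ := h2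
    exact ⟨E, hE, fun u hu => hE' hu⟩
  choose E hE hE' using h1
  have hopen : ∀ σ : Gm k, IsOpen ((fun τ : Gm k => σ⁻¹ * τ) ⁻¹' ((E σ).fixingSubgroup : Set (Gm k))) := by
    intro σ
    have := hE σ
    exact (IntermediateField.fixingSubgroup_isOpen (E σ)).preimage
      (continuous_const.mul continuous_id)
  obtain ⟨t, ht⟩ := isCompact_univ.elim_finite_subcover
    (fun σ : Gm k => (fun τ : Gm k => σ⁻¹ * τ) ⁻¹' ((E σ).fixingSubgroup : Set (Gm k)))
    hopen (by
      intro σ _
      rw [Set.mem_iUnion]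
      refine ⟨σ, ?_⟩
      show σ⁻¹ * σ ∈ ((E σ).fixingSubgroup : Set (Gm k))
      rw [inv_mul_cancel]
      exact one_mem _)
  have hfd : FiniteDimensional k (⨆ σ ∈ t, E σ : IntermediateField k (Om k)) := by
    have : ∀ σ ∈ t, FiniteDimensional k (E σ) := fun σ _ => hE σ
    exact IntermediateField.finiteDimensional_iSup_of_finset' this
  let M : IntermediateField k (Om k) := IntermediateField.normalClosure k (⨆ σ ∈ t, E σ : IntermediateField k (Om k)) (Om k)
  have hle : (⨆ σ ∈ t, E σ : IntermediateField k (Om k)) ≤ M :=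
    IntermediateField.le_normalClosure _
  refine ⟨M, ?_, ?_, ?_⟩
  · exact normalClosure.is_finiteDimensional k _ _
  · exact normalClosure.normal k _ _
  · intro σ u hu
    obtain ⟨τ, hτ, hmem⟩ : ∃ τ ∈ t, τ⁻¹ * σ ∈ (E τ).fixingSubgroup := by
      have := ht (Set.mem_univ σ)
      simp only [Set.mem_iUnion] at this
      obtain ⟨τ, hτ, h⟩ := this
      exact ⟨τ, hτ, h⟩
    have hu' : u ∈ (E τ).fixingSubgroup := by
      refine IntermediateField.fixingSubgroup_le ?_ hu
      exact le_trans (le_trans (le_iSup₂_of_le τ hτ le_rfl) le_rfl) hle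
    have e1 : f σ = f τ := by
      have := hE' τ (τ⁻¹ * σ) hmem
      rwa [mul_inv_cancel_left] at this
    have e2 : f (σ * u) = f τ := by
      have := hE' τ (τ⁻¹ * σ * u) (mul_mem hmem hu')
      rwa [mul_assoc, mul_inv_cancel_left] at this
    rw [e1, e2]

theorem kum_dec (D : Subgroup (Gm k)) (h : Gm k → ZMod 2) (hc : IsLocallyConstant h)
    (hh : ∀ σ ∈ D, ∀ τ ∈ D, h (σ * τ) = h σ + h τ) :
    ∃ s : Om k, s ≠ 0 ∧ FixD D (s ^ 2) ∧ ∀ σ ∈ D, (h σ = 0 → σ s = s) ∧ (h σ = 1 → σ s = -s) := by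
  classical
  obtain ⟨E, hE, hN, hE'⟩ := lc_unifE h hc
  let r : Gm k →* (E ≃ₐ[k] E) := AlgEquiv.restrictNormalHom E
  have hr : ∀ (σ : Gm k) (x : E), ((r σ x : E) : Om k) = σ (x : Om k) := fun σ x =>
    AlgEquiv.restrictNormal_commutes σ E x
  have hker : ∀ σ : Gm k, r σ = 1 → σ ∈ E.fixingSubgroup := by
    intro σ hσ
    rw [IntermediateField.mem_fixingSubgroup_iff]
    intro x hx
    have := hr σ ⟨x, hx⟩
    rw [hσ] at this
    exact this.symm
  have hfin : Finite (E ≃ₐ[k] E) := inferInstance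
  have hft : Fintype (D.map r) := Fintype.ofFinite _
  have hlift : ∀ τ : D.map r, ∃ σ : Gm k, σ ∈ D ∧ r σ = τ.1 := by
    rintro ⟨τ, hτ⟩
    obtain ⟨σ, h1, h2⟩ := Subgroup.mem_map.1 hτ
    exact ⟨σ, h1, h2⟩
  choose l hlD hlr using hlift
  let c : D.map r → ZMod 2 := fun τ => h (l τ)
  have hcs : ∀ (σ : Gm k) (hσ : σ ∈ D) (τ : D.map r),
      c (⟨r σ, Subgroup.mem_map_of_mem r hσ⟩ * τ) = h σ + c τ := by
    intro σ hσ τ
    set τ' : D.map r := ⟨r σ, Subgroup.mem_map_of_mem r hσ⟩ * τ with hτ'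
    have h1 : r ((σ * l τ)⁻¹ * l τ') = 1 := by
      rw [map_mul, map_inv, map_mul, hlr, hlr, hτ']
      exact inv_mul_cancel (r σ * τ.1)
    have h2 := hE' (σ * l τ) _ (hker _ h1)
    rw [mul_inv_cancel_left] at h2
    show h (l τ') = h σ + h (l τ)
    rw [h2, hh σ hσ _ (hlD τ)]
  -- independence of characters
  have hind : LinearIndependent E (fun τ : D.map r => ((τ.1 : E →* E) : E → E)) := by
    have h1 := linearIndependent_monoidHom E E
    refine h1.comp (fun τ : D.map r => (τ.1 : E →* E)) ?_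
    intro τ τ' heq
    apply Subtype.ext
    apply AlgEquiv.ext
    intro x
    exact DFunLike.congr_fun heq x
  obtain ⟨θ, hθ⟩ : ∃ θ : E, ∑ τ : D.map r, (kse (c τ) : E) * (τ.1 θ) ≠ 0 := by
    by_contra hcon
    push Not at hcon
    have h1 := (Fintype.linearIndependent_iff.1 hind) (fun τ => kse (c τ)) (by
      funext θ
      simp only [Finset.sum_apply, Pi.smul_apply, smul_eq_mul, Pi.zero_apply]
      exact hcon θ)
    exact kse_ne _ (h1 1)
  set s : E := ∑ τ : D.map r, (kse (c τ) : E) * (τ.1 θ) with hs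
  have hact : ∀ σ ∈ D, r σ s = kse (h σ) * s := by
    intro σ hσ
    rw [hs, map_sum, Finset.mul_sum]
    refine Fintype.sum_equiv (Equiv.mulLeft (⟨r σ, Subgroup.mem_map_of_mem r hσ⟩ : D.map r)) _ _ ?_
    intro τ
    rw [Equiv.coe_mulLeft, hcs σ hσ τ, kse_add, map_mul]
    have h1 : r σ (kse (c τ)) = kse (c τ) := kse_map ((r σ : E ≃ₐ[k] E) : E →+* E) (c τ)
    have h2 := kse_mul_self (F := E) (h σ)
    rw [h1]
    show kse (c τ) * (r σ) (τ.1 θ) = kse (h σ) * (kse (h σ) * kse (c τ) * (r σ * τ.1) θ)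
    rw [AlgEquiv.mul_apply]
    calc kse (c τ) * (r σ) (τ.1 θ) = 1 * (kse (c τ) * (r σ) (τ.1 θ)) := (one_mul _).symm
      _ = _ := by rw [← h2]; ring
  have hact' : ∀ σ ∈ D, σ (s : Om k) = kse (h σ) * (s : Om k) := by
    intro σ hσ
    rw [← hr σ s, hact σ hσ]
    have h1 : ((kse (h σ) : E) : Om k) = kse (h σ) := kse_map (algebraMap E (Om k)) (h σ)
    rw [← h1]
    rfl
  refine ⟨(s : Om k), fun h0 => hθ (by exact_mod_cast h0), ?_, ?_⟩
  · intro σ hσ
    rw [map_pow, hact' σ hσ, mul_pow, pow_two (kse (h σ)), kse_mul_self, one_mul]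
  · intro σ hσ
    refine ⟨fun h0 => ?_, fun h1 => ?_⟩
    · rw [hact' σ hσ, h0, kse_zero, one_mul]
    · rw [hact' σ hσ, h1, kse_one, neg_one_mul]

end

end Pool.Agent.H98.MF
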