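import Pool.Agent.H98.MF.L.ChiB

/-! Project MK4, block L, file CobN: norms give coboundaries -/

set_option autoImplicit false

open scoped BigOperators Pointwise
open NumberField IsDedekindDomain Filter Topology

namespace Pool.Agent.H98.MF

section

variable {k : Type} [Field k] [NumberField k]

/-- the sign -/
private noncomputable def cnSg (x : ZMod 2) : Om k := if x = 0 then 1 else -1

private theorem cn_ne (x : ZMod 2) (h : x ≠ 0) : x = 1 := by
  revert x
  decide

private theorem cn_add (x y : ZMod 2) :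
    (cnSg (x + y) : Om k) = cnSg x * cnSg y := by
  have h10 : ¬ ((1 : ZMod 2) = 0) := by decide
  have h11 : (1 : ZMod 2) + 1 = 0 := by decide
  unfold cnSg
  by_cases hx : x = 0 <;> by_cases hy : y = 0
  · simp [hx, hy]
  · rw [hx, cn_ne y hy]
    simp
  · rw [hy, cn_ne x hx]
    simp
  · rw [cn_ne x hx, cn_ne y hy, h11]
    simp

private theorem cn_map (σ : Gm k) (x : ZMod 2) : σ (cnSg x : Om k) = cnSg x := by
  unfold cnSg
  split_ifs
  · exact map_one σ
  · rw [map_neg, map_one]

private theorem cn_inj {x y : ZMod 2} {c : Om k} (hc : c ≠ 0)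
    (h : (cnSg x : Om k) * c = cnSg y * c) : x = y := by
  have h1 : (cnSg x : Om k) = cnSg y := mul_right_cancel₀ hc h
  have h2 : (1 : Om k) ≠ -1 := by
    intro h
    have h3 : (2 : Om k) = 0 := by linear_combination h
    exact two_ne_zero h3
  by_cases hx : x = 0 <;> by_cases hy : y = 0
  · rw [hx, hy]
  · exfalso
    unfold cnSg at h1
    rw [if_pos hx, if_neg hy] at h1
    exact h2 h1
  · exfalso
    unfold cnSg at h1
    rw [if_neg hx, if_pos hy] at h1
    exact h2 h1.symm
  · rw [cn_ne x hx, cn_ne y hy]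

private theorem cn_sq (x : ZMod 2) : (cnSg x : Om k) * cnSg x = 1 := by
  rw [← cn_add]
  have : ∀ x : ZMod 2, x + x = 0 := by decide
  rw [this]
  unfold cnSg
  simp

private theorem cn_chi {a : k} (ha : a ≠ 0) (σ : Gm k) : σ (sq a) = cnSg (chi a σ) * sq a := by
  unfold cnSg
  split_ifs with h
  · rw [(chi_eq_zero_iff (sq_sq a) σ).1 h, one_mul]
  · rw [(chi_eq_one_iff ha (sq_sq a) σ).1 (cn_ne _ h), neg_one_mul]

/-- evaluation is locally constant -/
theorem cn_ev (x : Om k) : IsLocallyConstant (fun σ : Gm k => σ x) := by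
  rw [IsLocallyConstant.iff_eventually_eq]
  intro σ
  have hint : IsIntegral k x := Algebra.IsIntegral.isIntegral _
  have hfin : FiniteDimensional k (IntermediateField.adjoin k ({x} : Set (Om k))) :=
    IntermediateField.adjoin.finiteDimensional hint
  have hopen : IsOpen ((IntermediateField.adjoin k ({x} : Set (Om k))).fixingSubgroup :
      Set (Gm k)) := IntermediateField.fixingSubgroup_isOpen _
  have h1 : IsOpen ((fun τ : Gm k => σ⁻¹ * τ) ⁻¹'
      ((IntermediateField.adjoin k ({x} : Set (Om k))).fixingSubgroup : Set (Gm k))) :=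
    hopen.preimage (continuous_const.mul continuous_id)
  have h2 : σ ∈ (fun τ : Gm k => σ⁻¹ * τ) ⁻¹'
      ((IntermediateField.adjoin k ({x} : Set (Om k))).fixingSubgroup : Set (Gm k)) := by
    rw [Set.mem_preimage, inv_mul_cancel]
    exact one_mem _
  filter_upwards [h1.mem_nhds h2] with τ hτ
  have h3 : (σ⁻¹ * τ) x = x := by
    have h4 : σ⁻¹ * τ ∈ (IntermediateField.adjoin k ({x} : Set (Om k))).fixingSubgroup := hτ
    rw [IntermediateField.mem_fixingSubgroup_iff] at h4
    exact h4 _ (IntermediateField.mem_adjoin_simple_self k x)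
  have h6 : τ = σ * (σ⁻¹ * τ) := by rw [mul_inv_cancel_left]
  rw [h6, AlgEquiv.mul_apply, h3]

theorem cob_swap (D : Subgroup (Gm k)) (a b : k) : Cob D a b ↔ Cob D b a := by
  have key : ∀ c d : k, Cob D c d → Cob D d c := by
    rintro c d ⟨f, hf, h⟩
    refine ⟨fun σ => f σ + chi c σ * chi d σ, hf.add ((chi_lc c).mul (chi_lc d)), ?_⟩
    intro σ hσ τ hτ
    show f (σ * τ) + chi c (σ * τ) * chi d (σ * τ) = f σ + chi c σ * chi d σ +
      (f τ + chi c τ * chi d τ) + chi d σ * chi c τ
    rw [h σ hσ τ hτ, chi_hom, chi_hom]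
    generalize f σ = x1
    generalize f τ = x2
    generalize chi c σ = x3
    generalize chi d σ = x4
    generalize chi c τ = x5
    generalize chi d τ = x6
    revert x1 x2 x3 x4 x5 x6
    decide
  exact ⟨key a b, key b a⟩

theorem cob_of_norm (D : Subgroup (Gm k)) {a b : k} (ha : a ≠ 0) (hb : b ≠ 0) {x y : Om k}
    (hx : FixD D x) (hy : FixD D y)
    (h : algebraMap k (Om k) b = x ^ 2 - algebraMap k (Om k) a * y ^ 2) : Cob D a b := by
  classical
  rw [cob_swap]
  set s : Om k := sq a with hs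
  set t : Om k := sq b with ht
  have hs2 : s ^ 2 = algebraMap k (Om k) a := sq_sq a
  have ht2 : t ^ 2 = algebraMap k (Om k) b := sq_sq b
  have hb0 : algebraMap k (Om k) b ≠ 0 := (map_ne_zero _).2 hb
  have ht0 : t ≠ 0 := by
    intro h0
    rw [h0, zero_pow two_ne_zero] at ht2
    exact hb0 ht2.symm
  set α : Om k := x + y * s with hα
  set α' : Om k := x - y * s with hα'
  have hprod : α * α' = t ^ 2 := by
    rw [ht2, h, ← hs2, hα, hα']
    ring
  have hα0 : α ≠ 0 := by
    intro h0
    rw [h0, zero_mul] at hprod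
    exact pow_ne_zero 2 ht0 hprod.symm
  obtain ⟨θ, hθ⟩ := IsAlgClosed.exists_pow_nat_eq α (n := 2) two_pos
  have hθ0 : θ ≠ 0 := by
    intro h0
    rw [h0, zero_pow two_ne_zero] at hθ
    exact hα0 hθ.symm
  set θ' : Om k := t / θ with hθ'
  have hθ'0 : θ' ≠ 0 := div_ne_zero ht0 hθ0
  have hθ'2 : θ' ^ 2 = α' := by
    rw [hθ', div_pow, hθ, ← hprod]
    field_simp
  -- the two conjugates
  set V : ZMod 2 → Om k := fun e => if e = 0 then θ else θ' with hV
  have hV0 : ∀ e, V e ≠ 0 := by
    intro e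
    rw [hV]
    simp only
    split_ifs
    · exact hθ0
    · exact hθ'0
  -- the values on the decomposition group
  have hex : ∀ σ ∈ D, ∃ e : ZMod 2, σ θ = cnSg e * V (chi a σ) := by
    intro σ hσ
    have h1 : (σ θ) ^ 2 = V (chi a σ) ^ 2 := by
      rw [← map_pow, hθ, hα, map_add, map_mul, hx σ hσ, hy σ hσ, cn_chi ha σ, hV]
      by_cases h0 : chi a σ = 0
      · simp only [h0, if_true]
        rw [hθ]
        simp [cnSg, hα, hs]
      · have h1 := cn_ne _ h0
        simp only [h0, if_false]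
        rw [hθ'2, h1]
        simp [cnSg, hα']
        ring
    rcases sq_eq_sq_iff_eq_or_eq_neg.mp h1 with h2 | h2
    · exact ⟨0, by rw [h2]; simp [cnSg]⟩
    · exact ⟨1, by rw [h2]; simp [cnSg]⟩
  let f : Gm k → ZMod 2 := fun σ => if σ θ = V (chi a σ) then 0 else 1
  have hf : ∀ σ ∈ D, σ θ = cnSg (f σ) * V (chi a σ) := by
    intro σ hσ
    obtain ⟨e, he⟩ := hex σ hσ
    have h1 : f σ = e := by
      show (if σ θ = V (chi a σ) then (0 : ZMod 2) else 1) = e
      split_ifs with h2
      · rw [he] at h2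
        have h3 : (cnSg e : Om k) * V (chi a σ) = cnSg 0 * V (chi a σ) := by
          rw [h2]
          simp [cnSg]
        exact (cn_inj (hV0 _) h3).symm
      · by_contra hne
        apply h2
        have h3 : e = 0 := by
          by_contra h4
          exact hne (cn_ne e h4).symm
        rw [he, h3]
        simp [cnSg]
    rw [h1]
    exact he
  have hlc : IsLocallyConstant f := by
    have h1 : IsLocallyConstant (fun σ : Gm k => (σ θ, chi a σ)) :=
      (cn_ev θ).prodMk (chi_lc a)
    exact h1.comp (fun p : Om k × ZMod 2 => if p.1 = V p.2 then (0 : ZMod 2) else 1)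
  -- the value on the other conjugate
  have hf' : ∀ σ ∈ D, σ θ' = cnSg (chi b σ + f σ) * V (chi a σ + 1) := by
    intro σ hσ
    have h1 : σ θ' = σ t / σ θ := by rw [hθ', map_div₀]
    have h2 : t / V (chi a σ) = V (chi a σ + 1) := by
      rw [hV]
      by_cases h0 : chi a σ = 0
      · have h10 : ¬ ((0 : ZMod 2) + 1 = 0) := by decide
        simp only [h0, if_true, h10, if_false]
        rw [hθ']
      · have h3 := cn_ne _ h0
        have h11 : (1 : ZMod 2) + 1 = 0 := by decide
        have h10 : ¬ ((1 : ZMod 2) = 0) := by decide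
        simp only [h3, h11, if_true, h10, if_false]
        rw [hθ']
        field_simp
    have h4 : (cnSg (f σ) : Om k) ≠ 0 := by
      intro h0
      have := cn_sq (k := k) (f σ)
      rw [h0, zero_mul] at this
      exact zero_ne_one this
    rw [h1, hf σ hσ, cn_chi hb σ, ← h2, cn_add]
    have h5 : (cnSg (f σ) : Om k) * cnSg (f σ) = 1 := cn_sq _
    have hV1 := hV0 (chi a σ)
    rw [div_eq_iff (mul_ne_zero h4 hV1)]
    have h6 : (cnSg (chi b σ) : Om k) * cnSg (f σ) * (t / V (chi a σ)) *
        (cnSg (f σ) * V (chi a σ))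
        = cnSg (chi b σ) * (cnSg (f σ) * cnSg (f σ)) * (t / V (chi a σ) * V (chi a σ)) := by ring
    rw [h6, h5, mul_one, div_mul_cancel₀ _ hV1]
  refine ⟨f, hlc, fun σ hσ τ hτ => ?_⟩
  have hστ := hf (σ * τ) (D.mul_mem hσ hτ)
  rw [AlgEquiv.mul_apply, hf τ hτ, map_mul, cn_map, chi_hom] at hστ
  by_cases h0 : chi a τ = 0
  · rw [h0, add_zero] at hστ
    have h1 : V 0 = θ := by rw [hV]; simp
    rw [h1, hf σ hσ, ← mul_assoc, ← cn_add] at hστ
    have h2 := cn_inj (hV0 _) hστ
    rw [h0, mul_zero, add_zero, ← h2, add_comm]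
  · have h1 := cn_ne _ h0
    rw [h1] at hστ
    have h2 : V 1 = θ' := by rw [hV]; simp
    rw [h2, hf' σ hσ, ← mul_assoc, ← cn_add] at hστ
    have h3 := cn_inj (hV0 _) hστ
    rw [h1, mul_one, ← h3]
    ring

end

end Pool.Agent.H98.MF
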