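import Pool.Agent.H98.MF.L.InV

/-! Project MK4, block L, file Apx: elements fixed by the decomposition group are approximated by
elements of the base field (after Pool/Agent/H98/MK/DecApx.lean of helper40) -/

set_option autoImplicit false

open scoped BigOperators Pointwise
open NumberField IsDedekindDomain

namespace Pool.Agent.H98.MF

section

variable {k : Type} [Field k] [NumberField k] {K : Type} [Field K] [NumberField K] [Algebra k K]

/-- Elements with `c = 1` mod `P^M` and `c ∈ (σP)^M` for the other conjugates. -/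
private theorem crt (P : Ideal (𝓞 K)) [hP : P.IsPrime] (h0 : P ≠ ⊥) (M : ℕ) :
    ∃ c : 𝓞 K, c - 1 ∈ P ^ M ∧
      ∀ σ : K ≃ₐ[k] K, σ ∉ MulAction.stabilizer (K ≃ₐ[k] K) P → c ∈ (σ • P) ^ M := by
  classical
  set J : Ideal (𝓞 K) := ∏ σ ∈ (Finset.univ : Finset (K ≃ₐ[k] K)).filter
    (fun σ => σ ∉ MulAction.stabilizer (K ≃ₐ[k] K) P), (σ • P) ^ M with hJ
  have hmax : ∀ σ : K ≃ₐ[k] K, (σ • P).IsMaximal := by
    intro σ
    have hne : σ • P ≠ ⊥ := by
      intro h
      apply h0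
      have h1 : σ⁻¹ • σ • P = σ⁻¹ • (⊥ : Ideal (𝓞 K)) := by rw [h]
      rw [inv_smul_smul] at h1
      rw [h1, Ideal.pointwise_smul_def, Ideal.map_bot]
    exact (Ideal.IsPrime.smul σ).isMaximal hne
  have hPmax : P.IsMaximal := hP.isMaximal h0
  have hco : IsCoprime (P ^ M) J := by
    rw [hJ]
    refine IsCoprime.prod_right fun σ hσ => ?_
    rw [Finset.mem_filter, MulAction.mem_stabilizer_iff] at hσ
    refine IsCoprime.pow ?_
    rw [Ideal.isCoprime_iff_sup_eq]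
    exact hPmax.coprime_of_ne (hmax σ) (Ne.symm hσ.2)
  obtain ⟨a, ha, c, hc, hac⟩ := Ideal.isCoprime_iff_exists.1 hco
  refine ⟨c, ?_, fun σ hσ => ?_⟩
  · have : c - 1 = -a := by rw [← hac]; ring
    rw [this]
    exact (P ^ M).neg_mem ha
  · have hle : J ≤ (σ • P) ^ M := by
      rw [hJ]
      exact Ideal.le_of_dvd (Finset.dvd_prod_of_mem _ (by
        rw [Finset.mem_filter]
        exact ⟨Finset.mem_univ σ, hσ⟩))
    exact hle hc

/-- `σ` maps `(τ P)^M` to `(σ τ P)^M`. -/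
private theorem smul_mem_pow (P : Ideal (𝓞 K)) (M : ℕ) (σ : K ≃ₐ[k] K) {x : 𝓞 K}
    (hx : x ∈ P ^ M) : σ • x ∈ (σ • P) ^ M := by
  have h1 : (P ^ M).map (MulSemiringAction.toRingHom (K ≃ₐ[k] K) (𝓞 K) σ) = (σ • P) ^ M := by
    rw [Ideal.map_pow, ← Ideal.pointwise_smul_def]
  rw [← h1]
  exact Ideal.mem_map_of_mem (MulSemiringAction.toRingHom (K ≃ₐ[k] K) (𝓞 K) σ) hx

/-- An invariant version. -/
private theorem crt_inv (P : Ideal (𝓞 K)) [hP : P.IsPrime] (h0 : P ≠ ⊥) (M : ℕ) :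
    ∃ d : 𝓞 K, d - 1 ∈ P ^ M ∧
      (∀ σ : K ≃ₐ[k] K, σ ∉ MulAction.stabilizer (K ≃ₐ[k] K) P → d ∈ (σ • P) ^ M) ∧
      ∀ ρ ∈ MulAction.stabilizer (K ≃ₐ[k] K) P, ρ • d = d := by
  classical
  obtain ⟨c, hc1, hc⟩ := crt (k := k) P h0 M
  let Df : Finset (K ≃ₐ[k] K) := Finset.univ.filter
    (fun σ => σ ∈ MulAction.stabilizer (K ≃ₐ[k] K) P)
  have hmem : ∀ τ, τ ∈ Df ↔ τ ∈ MulAction.stabilizer (K ≃ₐ[k] K) P := fun τ => by
    simp only [Df, Finset.mem_filter, Finset.mem_univ, true_and]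
  refine ⟨∏ τ ∈ Df, τ • c, ?_, fun σ hσ => ?_, fun ρ hρ => ?_⟩
  · rw [← Ideal.Quotient.eq, map_prod, map_one]
    refine Finset.prod_eq_one fun τ hτ => ?_
    rw [← map_one (Ideal.Quotient.mk (P ^ M)), Ideal.Quotient.eq]
    have h1 := smul_mem_pow P M τ hc1
    rw [smul_sub, smul_one] at h1
    have h2 : τ • P = P := (hmem τ).1 hτ
    rwa [h2] at h1
  · have h1 : (1 : K ≃ₐ[k] K) ∈ Df := (hmem 1).2 (Subgroup.one_mem _)
    rw [← Finset.mul_prod_erase Df _ h1, one_smul]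
    exact Ideal.mul_mem_right _ _ (hc σ hσ)
  · rw [Finset.smul_prod']
    refine Finset.prod_bij (fun τ _ => ρ * τ) (fun τ hτ => ?_) (fun τ _ τ' _ h => ?_)
      (fun τ hτ => ?_) (fun τ _ => ?_)
    · exact (hmem _).2 (Subgroup.mul_mem _ hρ ((hmem τ).1 hτ))
    · exact mul_left_cancel h
    · exact ⟨ρ⁻¹ * τ, (hmem _).2 (Subgroup.mul_mem _ (Subgroup.inv_mem _ hρ) ((hmem τ).1 hτ)),
        mul_inv_cancel_left ρ τ⟩
    · exact (mul_smul ρ τ c).symm

private theorem isInv [IsGalois k K] : Algebra.IsInvariant (𝓞 k) (𝓞 K) (K ≃ₐ[k] K) := by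
  constructor
  intro b hb
  have h1 : (b : K) ∈ (⊥ : IntermediateField k K) := by
    rw [IsGalois.mem_bot_iff_fixed]
    intro σ
    have h2 : ((σ • b : 𝓞 K) : K) = b := by rw [hb σ]
    exact h2
  obtain ⟨a, ha⟩ := IntermediateField.mem_bot.1 h1
  have h2 : IsIntegral ℤ a := by
    have h3 : IsIntegral ℤ (algebraMap k K a) := by rw [ha]; exact b.2
    exact (isIntegral_algebraMap_iff (algebraMap k K).injective).1 h3
  refine ⟨⟨a, h2⟩, ?_⟩
  exact RingOfIntegers.coe_injective ha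

/-- Elements fixed by the decomposition group are approximated by integers of the base. -/
theorem ax_approx [IsGalois k K] (P : Ideal (𝓞 K)) [hP : P.IsPrime] (h0 : P ≠ ⊥) (M : ℕ)
    (g : 𝓞 K) (hg : ∀ ρ ∈ MulAction.stabilizer (K ≃ₐ[k] K) P, ρ • g = g) :
    ∃ b : 𝓞 k, g - algebraMap (𝓞 k) (𝓞 K) b ∈ P ^ M := by
  classical
  obtain ⟨d, hd1, hd, hdinv⟩ := crt_inv (k := k) P h0 M
  set y : 𝓞 K := g * d with hy
  have hyinv : ∀ ρ ∈ MulAction.stabilizer (K ≃ₐ[k] K) P, ρ • y = y := by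
    intro ρ hρ
    rw [hy, smul_mul', hg ρ hρ, hdinv ρ hρ]
  have hy1 : y - g ∈ P ^ M := by
    have : y - g = g * (d - 1) := by rw [hy]; ring
    rw [this]
    exact Ideal.mul_mem_left _ _ hd1
  have hyσ : ∀ σ : K ≃ₐ[k] K, σ ∉ MulAction.stabilizer (K ≃ₐ[k] K) P → σ • y ∈ P ^ M := by
    intro σ hσ
    have h1 : σ⁻¹ ∉ MulAction.stabilizer (K ≃ₐ[k] K) P := by
      intro h
      exact hσ (by simpa using Subgroup.inv_mem _ h)
    have h2 : y ∈ (σ⁻¹ • P) ^ M := Ideal.mul_mem_left _ _ (hd _ h1)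
    have h3 := smul_mem_pow (σ⁻¹ • P) M σ h2
    rwa [smul_inv_smul] at h3
  let F : (K ≃ₐ[k] K) ⧸ MulAction.stabilizer (K ≃ₐ[k] K) P → 𝓞 K :=
    Quotient.lift (fun σ : K ≃ₐ[k] K => σ • y) (by
      intro σ τ hst
      have h1 : σ⁻¹ * τ ∈ MulAction.stabilizer (K ≃ₐ[k] K) P := QuotientGroup.leftRel_apply.1 hst
      have h2 := hyinv _ h1
      calc σ • y = σ • (σ⁻¹ * τ) • y := by rw [h2]
        _ = τ • y := by rw [← mul_smul, mul_inv_cancel_left])
  have hF : ∀ σ : K ≃ₐ[k] K, F (QuotientGroup.mk σ) = σ • y := fun _ => rfl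
  have hinv : ∀ ρ : K ≃ₐ[k] K, ρ • (∑ q, F q) = ∑ q, F q := by
    intro ρ
    rw [Finset.smul_sum]
    refine Fintype.sum_equiv (MulAction.toPerm ρ) _ _ fun q => ?_
    induction q using QuotientGroup.induction_on with
    | H σ =>
      rw [hF, ← mul_smul]
      rfl
  haveI := isInv (k := k) (K := K)
  obtain ⟨b, hb⟩ := Algebra.IsInvariant.isInvariant (A := 𝓞 k) (∑ q, F q) hinv
  refine ⟨b, ?_⟩
  rw [hb, ← Finset.add_sum_erase Finset.univ F
    (Finset.mem_univ (QuotientGroup.mk (1 : K ≃ₐ[k] K))), hF, one_smul]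
  have h5 : ∑ q ∈ Finset.univ.erase (QuotientGroup.mk (1 : K ≃ₐ[k] K)), F q ∈ P ^ M := by
    refine Ideal.sum_mem _ fun q hq => ?_
    induction q using QuotientGroup.induction_on with
    | H σ =>
      rw [hF]
      refine hyσ σ fun h => ?_
      apply (Finset.mem_erase.1 hq).1
      rw [QuotientGroup.eq, mul_one]
      exact Subgroup.inv_mem _ h
  have h6 : g - (y + ∑ q ∈ Finset.univ.erase (QuotientGroup.mk (1 : K ≃ₐ[k] K)), F q) =
      -(y - g) - ∑ q ∈ Finset.univ.erase (QuotientGroup.mk (1 : K ≃ₐ[k] K)), F q := by ring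
  rw [h6]
  exact (P ^ M).sub_mem ((P ^ M).neg_mem hy1) h5

end

section

variable {k : Type} [Field k] [NumberField k]

theorem dec_apx (P : HeightOneSpectrum (𝓞 k)) {x : Om k} (hx : x ≠ 0) (hfix : FixD (Dec P) x)
    (n : ℕ) : ∃ c d : k, c ≠ 0 ∧ d ≠ 0 ∧ (n : ℤ) ≤ ord P d ∧
      InV P ((x / algebraMap k (Om k) c - 1) / algebraMap k (Om k) d) := by
  -- the layer
  have hint : IsIntegral k x := Algebra.IsIntegral.isIntegral x
  haveI : FiniteDimensional k (IntermediateField.adjoin k {x}) :=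
    IntermediateField.adjoin.finiteDimensional hint
  set K : IntermediateField k (Om k) :=
    IntermediateField.normalClosure k (IntermediateField.adjoin k {x}) (Om k) with hK
  haveI : FiniteDimensional k K := inferInstance
  haveI : Normal k K := inferInstance
  haveI : IsGalois k K := { }
  haveI := nf_of_fd K
  have hmem : x ∈ K :=
    (IntermediateField.le_normalClosure _) (IntermediateField.mem_adjoin_simple_self k x)
  obtain ⟨Q, hQ⟩ := iv_low P K
  have hQ' : ∀ y : 𝓞 K, algebraMap (𝓞 K) (𝓞 (Om k)) y ∈ top P ↔ y ∈ Q.asIdeal := fun y => by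
    rw [hQ]
    exact Iff.rfl
  -- clear denominators
  set xK : K := ⟨x, hmem⟩ with hxK
  have hxK0 : xK ≠ 0 := fun h => hx (congrArg Subtype.val h)
  have hxa : IsAlgebraic ℤ xK :=
    (IsFractionRing.isAlgebraic_iff ℤ ℚ K).2 (Algebra.IsAlgebraic.isAlgebraic xK)
  obtain ⟨m, hm, hmint⟩ := hxa.exists_integral_multiple
  set g : 𝓞 K := ⟨m • xK, hmint⟩ with hg
  have hgv : (g : K) = m • xK := rfl
  have hmK : ((m : ℤ) : K) ≠ 0 := Int.cast_ne_zero.2 hm
  have hmk : ((m : ℤ) : k) ≠ 0 := Int.cast_ne_zero.2 hm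
  have hg0 : (g : K) ≠ 0 := by
    rw [hgv, zsmul_eq_mul]
    exact mul_ne_zero hmK hxK0
  -- invariance
  have hginv : ∀ ρ ∈ MulAction.stabilizer (K ≃ₐ[k] K) Q.asIdeal, ρ • g = g := by
    intro ρ hρ
    rw [hQ] at hρ
    obtain ⟨σ, hσ, rfl⟩ := dec_surj P K ρ hρ
    apply RingOfIntegers.coe_injective
    show (AlgEquiv.restrictNormal σ K) (m • xK) = m • xK
    rw [map_zsmul]
    congr 1
    apply Subtype.ext
    have h1 := AlgEquiv.restrictNormal_commutes σ K xK
    have h2 : σ (algebraMap K (Om k) xK) = x := hfix σ hσ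
    rw [h2] at h1
    exact h1
  obtain ⟨π, hπ⟩ := exists_unif P
  have hπ0 : (π : k) ≠ 0 := by
    intro h
    rw [h, ord_zero] at hπ
    exact zero_ne_one hπ
  set d : k := (π : k) ^ n with hd
  have hd0 : d ≠ 0 := pow_ne_zero _ hπ0
  have hdord : (n : ℤ) ≤ ord P d := by rw [hd, ord_pow, hπ, mul_one]
  set M : ℕ := (|ord Q (g : K)| + |ord Q (algebraMap k K d)| + 1).toNat with hM
  have hMge : ord Q (g : K) + ord Q (algebraMap k K d) < M ∧ ord Q (g : K) < M := by
    have h1 := Int.self_le_toNat (|ord Q (g : K)| + |ord Q (algebraMap k K d)| + 1)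
    have h2 := le_abs_self (ord Q (g : K))
    have h3 := le_abs_self (ord Q (algebraMap k K d))
    have h4 := abs_nonneg (ord Q (algebraMap k K d))
    rw [← hM] at h1
    constructor <;> linarith
  haveI : Q.asIdeal.IsPrime := Q.isPrime
  obtain ⟨b, hb⟩ := ax_approx (k := k) Q.asIdeal Q.ne_bot M g hginv
  set bK : 𝓞 K := algebraMap (𝓞 k) (𝓞 K) b with hbK
  have hbKv : (bK : K) = algebraMap k K (b : k) := rfl
  have hsub : ((g - bK : 𝓞 K) : K) = (g : K) - (bK : K) := by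
    have h1 : g - bK = g + -bK := sub_eq_add_neg g bK
    rw [h1, iv_cadd, iv_cneg, sub_eq_add_neg]
  have hdiff : (g : K) - (bK : K) = 0 ∨ (M : ℤ) ≤ ord Q ((g : K) - (bK : K)) := by
    rcases (le_ord_iff Q (g - bK) M).2 hb with h | h
    · left
      rw [← hsub, h, iv_czero]
    · right
      rwa [hsub] at h
  have hb1 : (bK : K) ≠ 0 ∧ ord Q (bK : K) = ord Q (g : K) := by
    have h1 := ord_add_eq Q (a := (g : K)) (b := -((g : K) - (bK : K))) hg0 (by
      rcases hdiff with h | h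
      · left
        rw [h, neg_zero]
      · right
        rw [ord_neg]
        linarith [hMge.2])
    have h2 : (g : K) + -((g : K) - (bK : K)) = (bK : K) := by ring
    rwa [h2] at h1
  have hbk0 : (b : k) ≠ 0 := by
    intro h
    apply hb1.1
    rw [hbKv, h, map_zero]
  refine ⟨(b : k) / m, d, div_ne_zero hbk0 hmk, hd0, hdord, ?_⟩
  have hdK0 : algebraMap k K d ≠ 0 := (map_ne_zero _).2 hd0
  have hval : (x / algebraMap k (Om k) ((b : k) / m) - 1) / algebraMap k (Om k) d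
      = algebraMap K (Om k) (((g : K) - (bK : K)) / ((bK : K) * algebraMap k K d)) := by
    have e1 : algebraMap k (Om k) ((b : k) / m) = algebraMap K (Om k) ((bK : K) / m) := by
      rw [map_div₀, map_div₀, map_intCast, map_intCast, hbKv]
      rfl
    have e2 : algebraMap k (Om k) d = algebraMap K (Om k) (algebraMap k K d) := rfl
    have e3 : x = algebraMap K (Om k) xK := rfl
    rw [e1, e2, e3, ← map_div₀, ← map_one (algebraMap K (Om k)), ← map_sub, ← map_div₀]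
    congr 1
    have hbK0 := hb1.1
    rw [hgv, zsmul_eq_mul]
    field_simp
  rw [hval, iv_gen K Q hQ']
  rcases hdiff with h | h
  · rw [h, zero_div, ord_zero]
  · by_cases h0 : (g : K) - (bK : K) = 0
    · rw [h0, zero_div, ord_zero]
    · rw [div_eq_mul_inv, ord_mul Q h0 (inv_ne_zero (mul_ne_zero hb1.1 hdK0)), ord_inv,
        ord_mul Q hb1.1 hdK0, hb1.2]
      linarith [hMge.1]

end

end Pool.Agent.H98.MF
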