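import Pool.Agent.H98.MF.Base

/-!
# Project MK4, block L: definitions of the local theory
-/

set_option autoImplicit false

open scoped BigOperators Pointwise
open NumberField IsDedekindDomain

namespace Pool.Agent.H98.MF

section

variable {k : Type} [Field k] [NumberField k]

/-- integrality at the chosen prime above `P` -/
def InV (P : HeightOneSpectrum (𝓞 k)) (x : Om k) : Prop :=
  ∃ a b : 𝓞 (Om k), b ∉ top P ∧ x * (b : Om k) = (a : Om k)

/-- fixed by a subgroup -/
def FixD (D : Subgroup (Gm k)) (x : Om k) : Prop := ∀ σ ∈ D, σ x = x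

/-- the prime of a subfield below `top P` -/
noncomputable def low (P : HeightOneSpectrum (𝓞 k)) (K : IntermediateField k (Om k)) :
    Ideal (𝓞 K) := (top P).comap (algebraMap (𝓞 K) (𝓞 (Om k)))

/-- data of a quadratic extension not split at `P` -/
structure QuadD (P : HeightOneSpectrum (𝓞 k)) (a : k) {L : Type} [Field L] [NumberField L]
    [Algebra k L] (s : L) (Q : HeightOneSpectrum (𝓞 L)) (e f : ℕ) : Prop where
  sq : s ^ 2 = algebraMap k L a
  deg : Module.finrank k L = 2
  ne : a ≠ 0
  ns : ¬ LocSq P a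
  ef : e * f = 2
  ordm : ∀ x : k, ord Q (algebraMap k L x) = e * ord P x
  nrm : Ideal.absNorm Q.asIdeal = Ideal.absNorm P.asIdeal ^ f
  conj : ∀ (σ : L ≃ₐ[k] L) (z : L), ord Q (σ z) = ord Q z

/-- the cup product of two quadratic characters is a coboundary on `D` -/
def Cob (D : Subgroup (Gm k)) (a b : k) : Prop :=
  ∃ f : Gm k → ZMod 2, IsLocallyConstant f ∧ ∀ σ ∈ D, ∀ τ ∈ D,
    f (σ * τ) = f σ + f τ + chi a σ * chi b τ

end

end Pool.Agent.H98.MF
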