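import Pool.Agent.H98.MF.L.QuadY

/-!
# Project MK4, block L, file Quad: the prime of a quadratic extension not split at `P`
-/

set_option autoImplicit false

open scoped BigOperators Pointwise
open NumberField IsDedekindDomain

namespace Pool.Agent.H98.MF

section

variable {k : Type} [Field k] [NumberField k]

/-- if `a` is not a square at `P`, then exactly one prime of the field of the root of `a` lies
above `P`, with `e f = 2` -/
theorem quad_prime (P : HeightOneSpectrum (𝓞 k)) {a : k} {L : Type} [Field L] [NumberField L]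
    [Algebra k L] {s : L} (hs : s ^ 2 = algebraMap k L a) (hL : Module.finrank k L = 2)
    (ha : a ≠ 0) (hn : ¬ LocSq P a) :
    ∃ (Q : HeightOneSpectrum (𝓞 L)) (e f : ℕ), QuadD P a s Q e f := by
  have hns := not_isSquare_of_not_locSq ha hn
  obtain ⟨σ, hσ, hσσ, hall⟩ := qx_conj hs hns hL
  obtain ⟨Q, hQ⟩ := exists_over (L := L) P
  have hcj : cj σ Q = Q := by
    by_contra h
    exact hn (locSq_of_cj_ne hs hns hL σ hσ hQ h)
  have hu : ∀ Q' : HeightOneSpectrum (𝓞 L), Over P Q' → Q' = Q := by
    intro Q' h'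
    rcases over_conj hs hns hL σ hσ hall hQ h' with h | h
    · exact h
    · rw [h, hcj]
  refine ⟨Q, _, _, ⟨hs, hL, ha, hn, ef_of_unique hL hQ hu, hQ.ord_map, over_absNorm hQ, ?_⟩⟩
  intro τ z
  rcases hall τ with rfl | rfl
  · rfl
  · rw [← ord_cj, hcj]

end

end Pool.Agent.H98.MF
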