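import Pool.Agent.H98.MF.L.Sqr

/-!
# Project MK4, block L: square roots of one modulo an odd power of a prime (helper95)
-/

set_option autoImplicit false

open scoped BigOperators Pointwise
open NumberField IsDedekindDomain

namespace Pool.Agent.H98.MF

section

variable {k : Type} [Field k] [NumberField k]

theorem cnt_two_mem (P : HeightOneSpectrum (𝓞 k)) {e : ℕ} (he : ord P (2 : k) = e) (n : ℕ) :
    (2 : 𝓞 k) ∈ P.asIdeal ^ n ↔ n ≤ e := by
  rw [← le_ord_iff]
  have e0 : ((2 : 𝓞 k) : k) = 2 := map_ofNat (algebraMap (𝓞 k) k) 2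
  rw [e0, he]
  have h2 : (2 : 𝓞 k) ≠ 0 := two_ne_zero
  simp only [h2, false_or]
  exact_mod_cast Iff.rfl

/-- the dichotomy for square roots of one -/
theorem cnt_dich (P : HeightOneSpectrum (𝓞 k)) {e : ℕ} (he : ord P (2 : k) = e) {r : 𝓞 k}
    (h : r * r - 1 ∈ P.asIdeal ^ (2 * e + 1)) :
    r - 1 ∈ P.asIdeal ^ (e + 1) ∨ r + 1 ∈ P.asIdeal ^ (e + 1) := by
  by_contra hcon
  push Not at hcon
  obtain ⟨h1, h2⟩ := hcon
  have hr1 : r - 1 ≠ 0 := fun h0 => h1 (by rw [h0]; exact zero_mem _)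
  have hr2 : r + 1 ≠ 0 := fun h0 => h2 (by rw [h0]; exact zero_mem _)
  rw [← le_ord_iff] at h h1 h2
  push Not at h1 h2
  have hne : r * r - 1 ≠ 0 := by
    have : r * r - 1 = (r - 1) * (r + 1) := by ring
    rw [this]
    exact mul_ne_zero hr1 hr2
  have h3 := h.resolve_left hne
  have h4 : ((r * r - 1 : 𝓞 k) : k) = ((r - 1 : 𝓞 k) : k) * ((r + 1 : 𝓞 k) : k) := by
    rw [← map_mul]
    congr 1
    ring
  have c1 : ((r - 1 : 𝓞 k) : k) ≠ 0 := by
    intro h0
    exact hr1 (by exact_mod_cast h0)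
  have c2 : ((r + 1 : 𝓞 k) : k) ≠ 0 := by
    intro h0
    exact hr2 (by exact_mod_cast h0)
  rw [h4, ord_mul P c1 c2] at h3
  have h5 := h1.2
  have h6 := h2.2
  push_cast at h3 h5 h6
  omega

theorem cnt_card_J (P : HeightOneSpectrum (𝓞 k)) (e : ℕ)
    (hle : P.asIdeal ^ (2 * e + 1) ≤ P.asIdeal ^ (e + 1)) :
    Nat.card (RingHom.ker (Ideal.Quotient.factor hle)) = Ideal.absNorm P.asIdeal ^ e := by
  have hq : Ideal.absNorm P.asIdeal ≠ 0 := by
    intro h
    rw [Ideal.absNorm_eq_zero_iff] at h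
    exact P.ne_bot h
  have h1 : Nat.card ((𝓞 k) ⧸ P.asIdeal ^ (2 * e + 1)) =
      Ideal.absNorm P.asIdeal ^ (2 * e + 1) := by
    rw [← map_pow, Ideal.absNorm_apply, Submodule.cardQuot_apply]
  have h2 : Nat.card ((𝓞 k) ⧸ P.asIdeal ^ (e + 1)) = Ideal.absNorm P.asIdeal ^ (e + 1) := by
    rw [← map_pow, Ideal.absNorm_apply, Submodule.cardQuot_apply]
  set f := Ideal.Quotient.factor hle with hf
  have h3 : Nat.card f.toAddMonoidHom.ker * f.toAddMonoidHom.ker.index =
      Nat.card ((𝓞 k) ⧸ P.asIdeal ^ (2 * e + 1)) := AddSubgroup.card_mul_index _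
  have h4 : f.toAddMonoidHom.ker.index = Nat.card ((𝓞 k) ⧸ P.asIdeal ^ (e + 1)) := by
    rw [AddSubgroup.index_ker]
    have h5 : f.toAddMonoidHom.range = ⊤ := by
      rw [AddMonoidHom.range_eq_top]
      exact Ideal.Quotient.factor_surjective hle
    rw [h5]
    exact Nat.card_congr (AddSubgroup.topEquiv).toEquiv
  have h6 : Nat.card f.toAddMonoidHom.ker = Nat.card (RingHom.ker f) := rfl
  rw [h4, h1, h2, h6] at h3
  have h7 : Ideal.absNorm P.asIdeal ^ (2 * e + 1) =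
      Ideal.absNorm P.asIdeal ^ e * Ideal.absNorm P.asIdeal ^ (e + 1) := by
    rw [← pow_add]
    congr 1
    omega
  rw [h7] at h3
  exact Nat.eq_of_mul_eq_mul_right (pow_pos (Nat.pos_of_ne_zero hq) _) h3

theorem cnt_sqrt_one (P : HeightOneSpectrum (𝓞 k)) {e : ℕ} (he : ord P (2 : k) = e) :
    Nat.card {b : (𝓞 k) ⧸ P.asIdeal ^ (2 * e + 1) // b * b = 1} =
      2 * Ideal.absNorm P.asIdeal ^ e := by
  have hle : P.asIdeal ^ (2 * e + 1) ≤ P.asIdeal ^ (e + 1) := Ideal.pow_le_pow_right (by omega)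
  rw [← cnt_card_J P e hle]
  have htwo := cnt_two_mem P he
  have hdich := fun r => cnt_dich P he (r := r)
  generalize P.asIdeal = I at hle htwo hdich ⊢
  set f := Ideal.Quotient.factor hle with hf
  have hmk : ∀ r : 𝓞 k, Ideal.Quotient.mk (I ^ (2 * e + 1)) r ∈ RingHom.ker f ↔
      r ∈ I ^ (e + 1) := by
    intro r
    rw [RingHom.mem_ker, hf, Ideal.Quotient.factor_mk, Ideal.Quotient.eq_zero_iff_mem]
  have h2e : (2 : 𝓞 k) ∈ I ^ e := (htwo e).2 le_rfl
  have h2n : (2 : 𝓞 k) ∉ I ^ (e + 1) := fun h => by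
    have := (htwo (e + 1)).1 h
    omega
  -- the squares
  have hsq : ∀ (s : 𝓞 k) (j : RingHom.ker f), s * s = 1 →
      (Ideal.Quotient.mk (I ^ (2 * e + 1)) s + (j : (𝓞 k) ⧸ I ^ (2 * e + 1))) *
      (Ideal.Quotient.mk (I ^ (2 * e + 1)) s + (j : (𝓞 k) ⧸ I ^ (2 * e + 1))) = 1 := by
    rintro s ⟨j, hj⟩ hs
    obtain ⟨r, rfl⟩ := Ideal.Quotient.mk_surjective j
    rw [hmk] at hj
    have h1 : (s + r) * (s + r) - 1 ∈ I ^ (2 * e + 1) := by
      have h3 : (s + r) * (s + r) - 1 = 2 * r * s + r * r := by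
        linear_combination hs
      rw [h3]
      refine Ideal.add_mem _ (Ideal.mul_mem_right _ _ ?_) ?_
      · have h4 := Ideal.mul_mem_mul h2e hj
        rw [← pow_add] at h4
        have h5 : e + (e + 1) = 2 * e + 1 := by omega
        rwa [h5] at h4
      · have h4 := Ideal.mul_mem_mul hj hj
        rw [← pow_add] at h4
        exact Ideal.pow_le_pow_right (by omega) h4
    have h2 := (Ideal.Quotient.eq (I := I ^ (2 * e + 1)) (x := (s + r) * (s + r)) (y := 1)).2 h1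
    rw [map_mul, map_add, map_one] at h2
    exact h2
  let sg : Bool → 𝓞 k := fun b => if b then 1 else -1
  have hsg : ∀ b, sg b * sg b = 1 := by
    intro b
    cases b <;> simp [sg]
  have hcard : Nat.card (Bool × RingHom.ker f) =
      Nat.card {b : (𝓞 k) ⧸ I ^ (2 * e + 1) // b * b = 1} := by
    refine Nat.card_congr (Equiv.ofBijective (fun p =>
      ⟨Ideal.Quotient.mk (I ^ (2 * e + 1)) (sg p.1) + (p.2 : (𝓞 k) ⧸ I ^ (2 * e + 1)),
        hsq (sg p.1) p.2 (hsg p.1)⟩) ⟨?_, ?_⟩)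
    · rintro ⟨b, j⟩ ⟨b', j'⟩ h
      have h1 : Ideal.Quotient.mk (I ^ (2 * e + 1)) (sg b) + (j : (𝓞 k) ⧸ I ^ (2 * e + 1)) =
          Ideal.Quotient.mk (I ^ (2 * e + 1)) (sg b') + (j' : (𝓞 k) ⧸ I ^ (2 * e + 1)) :=
        congrArg Subtype.val h
      have h2 : Ideal.Quotient.mk (I ^ (2 * e + 1)) (sg b - sg b') ∈ RingHom.ker f := by
        rw [map_sub]
        have h3 : Ideal.Quotient.mk (I ^ (2 * e + 1)) (sg b) -
            Ideal.Quotient.mk (I ^ (2 * e + 1)) (sg b') =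
            (j' : (𝓞 k) ⧸ I ^ (2 * e + 1)) - (j : (𝓞 k) ⧸ I ^ (2 * e + 1)) := by
          linear_combination h1
        rw [h3]
        exact Ideal.sub_mem _ j'.2 j.2
      rw [hmk] at h2
      have hb : b = b' := by
        cases b <;> cases b'
        · rfl
        · exfalso
          apply h2n
          have h4 : sg false - sg true = -2 := by
            simp only [sg]
            norm_num
          rw [h4] at h2
          have h5 := Ideal.mul_mem_left _ (-1) h2
          have h6 : (-1 : 𝓞 k) * -2 = 2 := by ring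
          rwa [h6] at h5
        · exfalso
          apply h2n
          have h4 : sg true - sg false = 2 := by
            simp only [sg]
            norm_num
          rwa [h4] at h2
        · rfl
      subst hb
      have h3 : j = j' := Subtype.ext (add_left_cancel h1)
      rw [h3]
    · rintro ⟨b, hb⟩
      obtain ⟨r, rfl⟩ := Ideal.Quotient.mk_surjective b
      have h1 : r * r - 1 ∈ I ^ (2 * e + 1) := by
        rw [← Ideal.Quotient.eq, map_mul, map_one]
        exact hb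
      rcases hdich _ h1 with h2 | h2
      · refine ⟨(true, ⟨Ideal.Quotient.mk _ (r - 1), (hmk _).2 h2⟩), ?_⟩
        apply Subtype.ext
        show Ideal.Quotient.mk (I ^ (2 * e + 1)) (sg true) + Ideal.Quotient.mk _ (r - 1) = _
        rw [← map_add]
        congr 1
        simp [sg]
      · refine ⟨(false, ⟨Ideal.Quotient.mk _ (r + 1), (hmk _).2 h2⟩), ?_⟩
        apply Subtype.ext
        show Ideal.Quotient.mk (I ^ (2 * e + 1)) (sg false) + Ideal.Quotient.mk _ (r + 1) = _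
        rw [← map_add]
        congr 1
        simp [sg]
  rw [← hcard, Nat.card_prod]
  simp

theorem cnt_ker (P : HeightOneSpectrum (𝓞 k)) {e : ℕ} (he : ord P (2 : k) = e) :
    Nat.card (powMonoidHom 2 : ((𝓞 k) ⧸ P.asIdeal ^ (2 * e + 1))ˣ →*
      ((𝓞 k) ⧸ P.asIdeal ^ (2 * e + 1))ˣ).ker = 2 * Ideal.absNorm P.asIdeal ^ e := by
  rw [← cnt_sqrt_one P he]
  refine Nat.card_congr ⟨fun x => ⟨((x : ((𝓞 k) ⧸ P.asIdeal ^ (2 * e + 1))ˣ) :
      (𝓞 k) ⧸ P.asIdeal ^ (2 * e + 1)), ?_⟩, fun b => ⟨⟨b.1, b.1, b.2, b.2⟩, ?_⟩, ?_, ?_⟩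
  · have h := x.2
    rw [MonoidHom.mem_ker, powMonoidHom_apply, pow_two] at h
    have h1 := congrArg (fun u : ((𝓞 k) ⧸ P.asIdeal ^ (2 * e + 1))ˣ =>
      (u : (𝓞 k) ⧸ P.asIdeal ^ (2 * e + 1))) h
    simpa using h1
  · rw [MonoidHom.mem_ker, powMonoidHom_apply, pow_two]
    apply Units.ext
    show b.1 * b.1 = 1
    exact b.2
  · intro x
    apply Subtype.ext
    apply Units.ext
    rfl
  · intro b
    rfl

end

end Pool.Agent.H98.MF
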