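import Pool.Agent.H98.MF.L.Cnt
import Pool.Agent.H98.MF.L.Nm
import Pool.Agent.H98.MF.L.Quad
import Pool.Agent.H98.MF.L.Herb

/-!
# Project MK4, block L: the local index is two (helper4)
-/

set_option autoImplicit false

open scoped BigOperators Pointwise
open NumberField IsDedekindDomain

namespace Pool.Agent.H98.MF

section

variable {k : Type} [Field k] [NumberField k]

/-- a quadratic extension with a square root of `a` -/
private theorem exists_quad {a : k} (ha : ¬ IsSquare a) : ∃ (L : Type) (_ : Field L)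
    (_ : NumberField L) (_ : Algebra k L) (s : L), s ^ 2 = algebraMap k L a ∧
      Module.finrank k L = 2 := by
  have hirr : Irreducible (Polynomial.X ^ 2 - Polynomial.C a) := by
    apply X_pow_sub_C_irreducible_of_prime Nat.prime_two
    intro b hb
    exact ha ⟨b, by rw [← hb, pow_two]⟩
  have : Fact (Irreducible (Polynomial.X ^ 2 - Polynomial.C a)) := ⟨hirr⟩
  have hfin : Module.Finite k (AdjoinRoot (Polynomial.X ^ 2 - Polynomial.C a)) :=
    (AdjoinRoot.powerBasis hirr.ne_zero).finite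
  refine ⟨AdjoinRoot (Polynomial.X ^ 2 - Polynomial.C a), inferInstance,
    NumberField.of_module_finite k _, inferInstance, AdjoinRoot.root _, ?_, ?_⟩
  · have h := AdjoinRoot.eval₂_root (Polynomial.X ^ 2 - Polynomial.C a)
    rw [Polynomial.eval₂_sub, Polynomial.eval₂_pow, Polynomial.eval₂_X, Polynomial.eval₂_C,
      sub_eq_zero] at h
    exact h
  · rw [(AdjoinRoot.powerBasis hirr.ne_zero).finrank, AdjoinRoot.powerBasis_dim,
      Polynomial.natDegree_X_pow_sub_C]

section

variable {P : HeightOneSpectrum (𝓞 k)} {a : k} {L : Type} [Field L] [NumberField L]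
  [Algebra k L] {s : L} {Q : HeightOneSpectrum (𝓞 L)} {e f : ℕ}

private theorem exists_norm (h : QuadD P a s Q e f) (ha : ¬ IsSquare a) (x y : k) :
    ∃ z : L, Algebra.norm k z = x ^ 2 - a * y ^ 2 := by
  obtain ⟨x', y', h1, h2⟩ := h.form (algebraMap k L x + algebraMap k L y * s)
  refine ⟨_, h2.trans ?_⟩
  have h3 : algebraMap k L (x - x') = algebraMap k L (y' - y) * s := by
    rw [map_sub, map_sub]
    linear_combination h1
  have hy : y' - y = 0 := by
    by_contra hne
    apply ha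
    refine ⟨(x - x') / (y' - y), ?_⟩
    apply (algebraMap k L).injective
    have hne' : algebraMap k L (y' - y) ≠ 0 := by rwa [Ne, map_eq_zero]
    rw [map_mul, map_div₀, h3, mul_div_cancel_left₀ _ hne', ← pow_two, h.sq]
  rw [hy, map_zero, zero_mul, map_eq_zero] at h3
  rw [sub_eq_zero.1 h3, sub_eq_zero.1 hy]

/-- the norm on units -/
private noncomputable def nuU (k L : Type) [Field k] [Field L] [Algebra k L] : Lˣ →* kˣ :=
  Units.map (Algebra.norm k : L →* k)

private noncomputable def ioU (k L : Type) [Field k] [Field L] [Algebra k L] : kˣ →* Lˣ :=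
  Units.map ((algebraMap k L : k →+* L) : k →* L)

private theorem norm_base (h : QuadD P a s Q e f) (c : k) :
    Algebra.norm k (algebraMap k L c) = c ^ 2 := by
  rw [Algebra.norm_algebraMap, h.deg]

private theorem index_norm (h : QuadD P a s Q e f) :
    ((nuU k L).range ⊔ LS (Sum.inl P)).index = 2 := by
  set N := Ideal.absNorm P.asIdeal with hN
  set E := (ord P (2 : k)).toNat with hE
  have hE0 : 0 ≤ ord P (2 : k) := by
    have := ord_int_nonneg P (2 : 𝓞 k)
    exact_mod_cast this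
  have hEc : ((E : ℕ) : ℤ) = ord P (2 : k) := Int.toNat_of_nonneg hE0
  have hN0 : N ≠ 0 := by
    intro h0
    exact P.ne_bot (Ideal.absNorm_eq_zero_iff.1 h0)
  have hidxP : (LS (Sum.inl P) : Subgroup kˣ).index = 4 * N ^ E := LS_index P
  have hidxQ : (LS (Sum.inl Q) : Subgroup Lˣ).index = 4 * N ^ (2 * E) := by
    rw [LS_index Q, h.nrm, ← pow_mul]
    have h2 : ord Q (2 : L) = e * ord P (2 : k) := by
      rw [← h.ordm]
      congr 1
      rw [map_ofNat]
    rw [h2, ← hEc, ← Nat.cast_mul, Int.toNat_natCast, ← mul_assoc, mul_comm f e, h.ef]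
  -- the kernel of the norm modulo local squares
  have hK : (LS (Sum.inl P)).comap (nuU k L) = (ioU k L).range ⊔ LS (Sum.inl Q) := by
    apply le_antisymm
    · intro z hz
      rw [Subgroup.mem_comap, mem_LS] at hz
      obtain ⟨c, hc0, hc⟩ := h.up (z := (z : L)) hz
      have h1 : (ioU k L (Units.mk0 c hc0)) * z ∈ (LS (Sum.inl Q) : Subgroup Lˣ) := by
        rw [mem_LS]
        exact hc
      have h2 : z = (ioU k L (Units.mk0 c hc0))⁻¹ * ((ioU k L (Units.mk0 c hc0)) * z) := by
        rw [inv_mul_cancel_left]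
      rw [h2]
      exact Subgroup.mul_mem_sup (Subgroup.inv_mem _ ⟨_, rfl⟩) h1
    · rw [sup_le_iff]
      constructor
      · rintro _ ⟨c, rfl⟩
        rw [Subgroup.mem_comap, mem_LS]
        have h1 : ((nuU k L (ioU k L c) : kˣ) : k) = (c : k) ^ 2 := norm_base h (c : k)
        rw [h1]
        exact locSq_sq P c.ne_zero
      · intro z hz
        rw [mem_LS] at hz
        rw [Subgroup.mem_comap, mem_LS]
        exact h.norm hz
  -- the elements of `k` that are local squares in `L`
  set D := (LS (Sum.inl Q) : Subgroup Lˣ).comap (ioU k L) with hD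
  have hPD : LS (Sum.inl P) ≤ D := by
    intro c hc
    rw [mem_LS] at hc
    rw [hD, Subgroup.mem_comap, mem_LS]
    exact h.base hc
  have hau : ((Units.mk0 a h.ne : kˣ) : k) = a := rfl
  have haD : Units.mk0 a h.ne ∈ D := by
    rw [hD, Subgroup.mem_comap, mem_LS]
    have h1 : ((ioU k L (Units.mk0 a h.ne) : Lˣ) : L) = s ^ 2 := h.sq.symm
    rw [h1]
    apply locSq_sq
    intro h0
    have h2 := h.sq
    rw [h0, zero_pow two_ne_zero] at h2
    exact h.ne ((map_eq_zero (algebraMap k L)).1 h2.symm)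
  have hrel : (LS (Sum.inl P) : Subgroup kˣ).relIndex D = 2 := by
    rw [Subgroup.relIndex, Subgroup.index_eq_two_iff]
    refine ⟨⟨Units.mk0 a h.ne, haD⟩, fun b => ?_⟩
    rw [Subgroup.mem_subgroupOf, Subgroup.mem_subgroupOf, mem_LS, mem_LS]
    have hb : LocSq Q (algebraMap k L ((b : kˣ) : k)) := by
      have h1 : ioU k L (b : kˣ) ∈ (LS (Sum.inl Q) : Subgroup Lˣ) := b.2
      rw [mem_LS] at h1
      exact h1
    have h1 : (((b * ⟨Units.mk0 a h.ne, haD⟩ : D) : kˣ) : k) = a * ((b : kˣ) : k) := by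
      rw [mul_comm]
      rfl
    rw [h1]
    rcases h.down hb with h2 | h2
    · right
      refine ⟨h2, fun h3 => h.ns ?_⟩
      rw [mul_comm] at h3
      exact (h2.mul_iff a).1 h3
    · left
      refine ⟨h2, fun h3 => h.ns ?_⟩
      rw [mul_comm] at h2
      exact (h3.mul_iff a).1 h2
  have h1 := Subgroup.relIndex_mul_index hPD
  rw [hrel, hidxP] at h1
  have hDidx : D.index = 2 * N ^ E := by omega
  have hle : LS (Sum.inl Q) ≤ (ioU k L).range ⊔ LS (Sum.inl Q) := le_sup_right
  have h2 := Subgroup.relIndex_mul_index hle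
  rw [Subgroup.relIndex_sup_right, ← Subgroup.index_comap, ← hD, hDidx, hidxQ, ← hK,
    Subgroup.index_comap] at h2
  have hle2 : LS (Sum.inl P) ≤ (nuU k L).range ⊔ LS (Sum.inl P) := le_sup_right
  have h3 := Subgroup.relIndex_mul_index hle2
  rw [Subgroup.relIndex_sup_right, hidxP] at h3
  have hNE : 0 < N ^ E := pow_pos (Nat.pos_of_ne_zero hN0) E
  have h4 : (LS (Sum.inl P)).relIndex (nuU k L).range = 2 * N ^ E := by
    have h5 : 2 * N ^ E * (LS (Sum.inl P)).relIndex (nuU k L).range =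
        2 * N ^ E * (2 * N ^ E) := by
      rw [h2, two_mul E, pow_add]
      ring
    exact Nat.eq_of_mul_eq_mul_left (by positivity) h5
  rw [h4] at h3
  have h6 : 2 * N ^ E * ((nuU k L).range ⊔ LS (Sum.inl P)).index = 2 * N ^ E * 2 := by
    rw [h3]
    ring
  exact Nat.eq_of_mul_eq_mul_left (by positivity) h6

private theorem locNm_iff_mem (h : QuadD P a s Q e f) (ha : ¬ IsSquare a) (b : kˣ) :
    LocNm P a (b : k) ↔ b ∈ (nuU k L).range ⊔ LS (Sum.inl P) := by
  rw [locNm_iff]
  constructor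
  · rintro ⟨x, y, hxy⟩
    obtain ⟨z, hz⟩ := exists_norm h ha x y
    have hz0 : z ≠ 0 := by
      rintro rfl
      have hn0 : Algebra.norm k (0 : L) = 0 := Algebra.norm_zero
      rw [hn0] at hz
      rw [← hz, mul_zero] at hxy
      exact hxy.ne_zero rfl
    have h1 : b * nuU k L (Units.mk0 z hz0) ∈ (LS (Sum.inl P) : Subgroup kˣ) := by
      rw [mem_LS]
      have h2 : ((b * nuU k L (Units.mk0 z hz0) : kˣ) : k) = b * Algebra.norm k z := rfl
      rw [h2, hz]
      exact hxy
    have h2 : b = (nuU k L (Units.mk0 z hz0))⁻¹ * (b * nuU k L (Units.mk0 z hz0)) := by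
      rw [mul_comm b, inv_mul_cancel_left]
    rw [h2]
    exact Subgroup.mul_mem_sup (Subgroup.inv_mem _ ⟨_, rfl⟩) h1
  · intro hb
    obtain ⟨_, ⟨z, rfl⟩, l, hl, rfl⟩ := Subgroup.mem_sup.1 hb
    rw [mem_LS] at hl
    obtain ⟨x, y, -, h2⟩ := h.form ((z⁻¹ : Lˣ) : L)
    refine ⟨x, y, ?_⟩
    have h3 : ((nuU k L z * l : kˣ) : k) * (x ^ 2 - a * y ^ 2) = l := by
      rw [← h2]
      have h4 : ((nuU k L z * l : kˣ) : k) = Algebra.norm k (z : L) * l := rfl
      rw [h4, mul_assoc, mul_comm (l : k), ← mul_assoc, ← map_mul, Units.mul_inv, map_one, one_mul]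
    rw [h3]
    exact hl

end

theorem loc_index (P : HeightOneSpectrum (𝓞 k)) {a : k} (ha : a ≠ 0) (hn : ¬ LocSq P a) :
    (∃ b : k, b ≠ 0 ∧ ¬ LocNm P a b) ∧
      ∀ b c : k, b ≠ 0 → c ≠ 0 → ¬ LocNm P a b → ¬ LocNm P a c → LocNm P a (b * c) := by
  have hsq : ¬ IsSquare a := by
    rintro ⟨c, rfl⟩
    apply hn
    have hc : c ≠ 0 := by
      rintro rfl
      exact ha (mul_zero 0)
    rw [← pow_two]
    exact locSq_sq P hc
  obtain ⟨L, _, _, _, s, hs, hL⟩ := exists_quad hsq
  obtain ⟨Q, e, f, h⟩ := quad_prime P hs hL ha hn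
  have hidx := index_norm h
  constructor
  · have h1 : (nuU k L).range ⊔ LS (Sum.inl P) ≠ ⊤ := by
      intro h2
      rw [h2, Subgroup.index_top] at hidx
      exact absurd hidx (by norm_num)
    obtain ⟨b, hb⟩ : ∃ b, b ∉ (nuU k L).range ⊔ LS (Sum.inl P) := by
      by_contra h3
      push Not at h3
      exact h1 (eq_top_iff.2 fun x _ => h3 x)
    refine ⟨b, b.ne_zero, fun h3 => hb ((locNm_iff_mem h hsq b).1 h3)⟩
  · intro b c hb hc h1 h2
    have h3 := locNm_iff_mem h hsq (Units.mk0 b hb)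
    have h4 := locNm_iff_mem h hsq (Units.mk0 c hc)
    have h5 := locNm_iff_mem h hsq (Units.mk0 b hb * Units.mk0 c hc)
    have h6 : ((Units.mk0 b hb * Units.mk0 c hc : kˣ) : k) = b * c := rfl
    rw [h6] at h5
    rw [h5, Subgroup.mul_mem_iff_of_index_two hidx]
    constructor
    · intro h7
      exact absurd (h3.2 h7) h1
    · intro h7
      exact absurd (h4.2 h7) h2

end

end Pool.Agent.H98.MF
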