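import Pool.Agent.H98.MF.L.Ord
import Pool.Agent.H98.MF.L.Top

/-! Project MK4, block L, file InV: the valuation ring at `top P` -/

set_option autoImplicit false

open scoped BigOperators Pointwise
open NumberField IsDedekindDomain

namespace Pool.Agent.H98.MF

section

variable {k : Type} [Field k] [NumberField k]

variable {P : HeightOneSpectrum (𝓞 k)}

theorem iv_cmul {L : Type} [Field L] (a b : 𝓞 L) : ((a * b : 𝓞 L) : L) = (a : L) * (b : L) :=
  map_mul (algebraMap (𝓞 L) L) a b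
theorem iv_cadd {L : Type} [Field L] (a b : 𝓞 L) : ((a + b : 𝓞 L) : L) = (a : L) + (b : L) :=
  map_add (algebraMap (𝓞 L) L) a b
theorem iv_cneg {L : Type} [Field L] (a : 𝓞 L) : ((-a : 𝓞 L) : L) = -(a : L) :=
  map_neg (algebraMap (𝓞 L) L) a
theorem iv_czero {L : Type} [Field L] : ((0 : 𝓞 L) : L) = 0 := map_zero (algebraMap (𝓞 L) L)
theorem iv_cone {L : Type} [Field L] : ((1 : 𝓞 L) : L) = 1 := map_one (algebraMap (𝓞 L) L)

theorem iv_one_notMem (P : HeightOneSpectrum (𝓞 k)) : (1 : 𝓞 (Om k)) ∉ top P := by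
  intro h
  exact (top_prime P).ne_top ((Ideal.eq_top_iff_one _).2 h)

theorem iv_mul_notMem {b d : 𝓞 (Om k)} (hb : b ∉ top P) (hd : d ∉ top P) : b * d ∉ top P := by
  intro h
  rcases (top_prime P).mem_or_mem h with h | h
  · exact hb h
  · exact hd h

theorem InV.int (P : HeightOneSpectrum (𝓞 k)) (a : 𝓞 (Om k)) : InV P (a : Om k) :=
  ⟨a, 1, iv_one_notMem P, by rw [iv_cone, mul_one]⟩
theorem InV.zero (P : HeightOneSpectrum (𝓞 k)) : InV P 0 := by
  have := InV.int P (0 : 𝓞 (Om k))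
  rwa [iv_czero] at this
theorem InV.one (P : HeightOneSpectrum (𝓞 k)) : InV P 1 := by
  have := InV.int P (1 : 𝓞 (Om k))
  rwa [iv_cone] at this
theorem InV.add {x y : Om k} (hx : InV P x) (hy : InV P y) : InV P (x + y) := by
  obtain ⟨a, b, hb, h1⟩ := hx
  obtain ⟨c, d, hd, h2⟩ := hy
  refine ⟨a * d + c * b, b * d, iv_mul_notMem hb hd, ?_⟩
  rw [iv_cadd, iv_cmul, iv_cmul, iv_cmul, ← h1, ← h2]
  ring
theorem InV.neg {x : Om k} (hx : InV P x) : InV P (-x) := by
  obtain ⟨a, b, hb, h1⟩ := hx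
  refine ⟨-a, b, hb, ?_⟩
  rw [iv_cneg, ← h1]
  ring
theorem InV.sub {x y : Om k} (hx : InV P x) (hy : InV P y) : InV P (x - y) := by
  rw [sub_eq_add_neg]
  exact hx.add hy.neg
theorem InV.mul {x y : Om k} (hx : InV P x) (hy : InV P y) : InV P (x * y) := by
  obtain ⟨a, b, hb, h1⟩ := hx
  obtain ⟨c, d, hd, h2⟩ := hy
  refine ⟨a * c, b * d, iv_mul_notMem hb hd, ?_⟩
  rw [iv_cmul, iv_cmul, ← h1, ← h2]
  ring

theorem inV_mem {a : 𝓞 (Om k)} (ha : a ∈ top P) (h : InV P ((a : Om k))⁻¹) : a = 0 := by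
  by_contra h0
  obtain ⟨c, b, hb, h1⟩ := h
  have h2 : (a : Om k) ≠ 0 := fun h => h0 (RingOfIntegers.coe_injective (h.trans iv_czero.symm))
  have h3 : (b : Om k) = ((a * c : 𝓞 (Om k)) : Om k) := by
    rw [iv_cmul, ← h1, mul_comm (a : Om k)⁻¹, mul_left_comm, mul_inv_cancel₀ h2, mul_one]
  have h4 : b = a * c := RingOfIntegers.coe_injective h3
  exact hb (by rw [h4]; exact (top P).mul_mem_right _ ha)

/-- comparison with the exponent at a prime of a number field below `top P` -/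
theorem iv_gen (F : Type) [Field F] [NumberField F] [Algebra F (Om k)]
    (Q : HeightOneSpectrum (𝓞 F))
    (hQ : ∀ y : 𝓞 F, algebraMap (𝓞 F) (𝓞 (Om k)) y ∈ top P ↔ y ∈ Q.asIdeal) (x : F) :
    InV P (algebraMap F (Om k) x) ↔ 0 ≤ ord Q x := by
  constructor
  · intro h
    by_contra hneg
    push Not at hneg
    have hx0 : x ≠ 0 := by
      rintro rfl
      rw [ord_zero] at hneg
      exact lt_irrefl _ hneg
    have h1 : 0 < ord Q x⁻¹ := by rw [ord_inv]; linarith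
    obtain ⟨a, b, hb, h2⟩ := (ord_nonneg_iff Q x⁻¹).1 h1.le
    have hb0 : b ≠ 0 := fun h => hb (by rw [h]; exact Q.asIdeal.zero_mem)
    have hbF : (b : F) ≠ 0 := fun h => hb0 (RingOfIntegers.coe_injective (h.trans iv_czero.symm))
    have hord : ord Q (b : F) = 0 := by
      by_contra h3
      have h4 : ((1 : ℕ) : ℤ) ≤ ord Q (b : F) := by
        have := ord_int_nonneg Q b
        push_cast
        omega
      have h5 := (le_ord_iff Q b 1).1 (Or.inr h4)
      rw [pow_one] at h5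
      exact hb h5
    have ha : a ∈ Q.asIdeal := by
      have h3 : ((1 : ℕ) : ℤ) ≤ ord Q (a : F) := by
        rw [← h2, ord_mul Q (inv_ne_zero hx0) hbF, hord]
        push_cast
        omega
      have h5 := (le_ord_iff Q a 1).1 (Or.inr h3)
      rwa [pow_one] at h5
    -- the quotient `a / b` is in the maximal ideal
    have ha0 : a ≠ 0 := by
      rintro rfl
      rw [iv_czero] at h2
      exact (mul_ne_zero (inv_ne_zero hx0) hbF) h2
    have h6 : algebraMap (𝓞 F) (𝓞 (Om k)) a ∈ top P := (hQ a).2 ha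
    have h7 : InV P ((algebraMap (𝓞 F) (𝓞 (Om k)) a : 𝓞 (Om k)) : Om k)⁻¹ := by
      have h8 : ((algebraMap (𝓞 F) (𝓞 (Om k)) a : 𝓞 (Om k)) : Om k)
          = (algebraMap F (Om k) x)⁻¹ * ((algebraMap (𝓞 F) (𝓞 (Om k)) b : 𝓞 (Om k)) : Om k) := by
        show algebraMap F (Om k) (a : F) = (algebraMap F (Om k) x)⁻¹ * algebraMap F (Om k) (b : F)
        rw [← h2, map_mul, map_inv₀]
      obtain ⟨c, d, hd, h9⟩ := h
      refine ⟨c, algebraMap (𝓞 F) (𝓞 (Om k)) b * d, iv_mul_notMem (fun h => hb ((hQ b).1 h)) hd, ?_⟩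
      rw [h8, iv_cmul, ← h9]
      have hbo : ((algebraMap (𝓞 F) (𝓞 (Om k)) b : 𝓞 (Om k)) : Om k) ≠ 0 := by
        show algebraMap F (Om k) (b : F) ≠ 0
        exact (map_ne_zero _).2 hbF
      rw [mul_inv, inv_inv]
      field_simp
    have h10 := inV_mem h6 h7
    exact ha0 (tp_inj F (Om k) (by rw [h10, map_zero]))
  · intro h
    obtain ⟨a, b, hb, h2⟩ := (ord_nonneg_iff Q x).1 h
    refine ⟨algebraMap (𝓞 F) (𝓞 (Om k)) a, algebraMap (𝓞 F) (𝓞 (Om k)) b,
      fun h => hb ((hQ b).1 h), ?_⟩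
    show algebraMap F (Om k) x * algebraMap F (Om k) (b : F) = algebraMap F (Om k) (a : F)
    rw [← map_mul, h2]

/-- the prime of a finite layer -/
theorem iv_low (P : HeightOneSpectrum (𝓞 k)) (K : IntermediateField k (Om k)) :
    ∃ Q : HeightOneSpectrum (𝓞 K), Q.asIdeal = low P K :=
  ⟨⟨low P K, low_prime P K, low_ne_bot P K⟩, rfl⟩

theorem InV.total (P : HeightOneSpectrum (𝓞 k)) {x : Om k} (hx : x ≠ 0) :
    InV P x ∨ InV P x⁻¹ := by
  have hint : IsIntegral k x := Algebra.IsIntegral.isIntegral x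
  haveI : FiniteDimensional k (IntermediateField.adjoin k {x}) :=
    IntermediateField.adjoin.finiteDimensional hint
  set K := IntermediateField.adjoin k {x} with hK
  haveI := nf_of_fd K
  obtain ⟨Q, hQ⟩ := iv_low P K
  have hQ' : ∀ y : 𝓞 K, algebraMap (𝓞 K) (𝓞 (Om k)) y ∈ top P ↔ y ∈ Q.asIdeal := fun y => by
    rw [hQ]
    exact Iff.rfl
  have hmem : x ∈ K := IntermediateField.mem_adjoin_simple_self k x
  have h1 := iv_gen K Q hQ' ⟨x, hmem⟩
  have h2 := iv_gen K Q hQ' (⟨x, hmem⟩)⁻¹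
  rcases le_total 0 (ord Q (⟨x, hmem⟩ : K)) with h | h
  · left
    exact h1.2 h
  · right
    have h3 : 0 ≤ ord Q (⟨x, hmem⟩ : K)⁻¹ := by rw [ord_inv]; linarith
    have h4 := h2.2 h3
    rw [map_inv₀] at h4
    exact h4

theorem inV_base {a : k} : InV P (algebraMap k (Om k) a) ↔ 0 ≤ ord P a := by
  refine iv_gen k P (fun y => ?_) a
  have := top_comap P
  rw [← this]
  exact Iff.rfl

theorem inV_dec {σ : Gm k} (hσ : σ ∈ Dec P) (x : Om k) : InV P (σ x) ↔ InV P x := by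
  have key : ∀ (τ : Gm k), τ ∈ Dec P → ∀ y : Om k, InV P y → InV P (τ y) := by
    intro τ hτ y hy
    obtain ⟨a, b, hb, h1⟩ := hy
    refine ⟨τ • a, τ • b, ?_, ?_⟩
    · intro h
      have h0 : τ • top P = top P := hτ
      rw [← h0] at h
      exact hb (Ideal.smul_mem_pointwise_smul_iff.1 h)
    · show τ y * τ (b : Om k) = τ (a : Om k)
      rw [← map_mul, h1]
  refine ⟨fun h => ?_, key σ hσ x⟩
  have h1 := key σ⁻¹ ((Dec P).inv_mem hσ) _ h
  have h2 : σ⁻¹ (σ x) = x := σ.symm_apply_apply x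
  rwa [h2] at h1

theorem inV_bdd (P : HeightOneSpectrum (𝓞 k)) (x : Om k) :
    ∃ c : k, c ≠ 0 ∧ InV P (x * algebraMap k (Om k) c) := by
  have h1 : IsAlgebraic ℤ x := by
    have h2 : IsAlgebraic ℚ x := by
      have h3 : IsAlgebraic k x := Algebra.IsAlgebraic.isAlgebraic x
      exact h3.restrictScalars ℚ
    exact (IsFractionRing.isAlgebraic_iff ℤ ℚ (Om k)).2 h2
  obtain ⟨y, hy, hint⟩ := h1.exists_integral_multiple
  refine ⟨(y : k), Int.cast_ne_zero.2 hy, ?_⟩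
  have h4 := InV.int P (⟨y • x, hint⟩ : 𝓞 (Om k))
  have h5 : x * algebraMap k (Om k) (y : k) = y • x := by
    rw [map_intCast, zsmul_eq_mul, mul_comm]
  rw [h5]
  exact h4

theorem inV_low (K : IntermediateField k (Om k)) [FiniteDimensional k K] (x : K) : InV P (x : Om k) ↔
    ∃ a b : 𝓞 K, b ∉ low P K ∧ x * (b : K) = (a : K) := by
  haveI := nf_of_fd K
  obtain ⟨Q, hQ⟩ := iv_low P K
  have hQ' : ∀ y : 𝓞 K, algebraMap (𝓞 K) (𝓞 (Om k)) y ∈ top P ↔ y ∈ Q.asIdeal := fun y => by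
    rw [hQ]
    exact Iff.rfl
  have h1 := iv_gen K Q hQ' x
  have h2 := ord_nonneg_iff Q x
  rw [hQ] at h2
  exact h1.trans h2

theorem inV_pow {x : Om k} {n : ℕ} (hn : n ≠ 0) (h : InV P (x ^ n)) : InV P x := by
  by_cases hx : x = 0
  · rw [hx]
    exact InV.zero P
  rcases InV.total P hx with h1 | h1
  · exact h1
  · have hpow : ∀ m : ℕ, InV P (x⁻¹ ^ m) := by
      intro m
      induction m with
      | zero => rw [pow_zero]; exact InV.one P
      | succ m ih => rw [pow_succ]; exact ih.mul h1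
    obtain ⟨m, rfl⟩ := Nat.exists_eq_succ_of_ne_zero hn
    have h3 : x = x ^ (m + 1) * x⁻¹ ^ m := by
      rw [pow_succ, inv_pow]
      have : x ^ m ≠ 0 := pow_ne_zero _ hx
      field_simp
    rw [h3]
    exact h.mul (hpow m)

end

end Pool.Agent.H98.MF
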