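import Pool.Agent.H98.MF.L.NCob

/-!
# Project MK4, block L: homomorphisms on the decomposition group are quadratic characters, from
the classification of square classes of fixed elements
-/

set_option autoImplicit false

open scoped BigOperators Pointwise
open NumberField IsDedekindDomain

namespace Pool.Agent.H98.MF

section

variable {k : Type} [Field k] [NumberField k]

theorem dec_hom2_of (P : HeightOneSpectrum (𝓞 k))
    (hsq : ∀ x : Om k, x ≠ 0 → FixD (Dec P) x → ∃ (c : k) (y : Om k), c ≠ 0 ∧ y ≠ 0 ∧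
      FixD (Dec P) y ∧ x = algebraMap k (Om k) c * y ^ 2)
    (h : Gm k → ZMod 2) (hc : IsLocallyConstant h)
    (hh : ∀ σ ∈ Dec P, ∀ τ ∈ Dec P, h (σ * τ) = h σ + h τ) :
    ∃ c : k, c ≠ 0 ∧ ∀ σ ∈ Dec P, h σ = chi c σ := by
  classical
  obtain ⟨s, hs0, hs2, hs⟩ := kum_dec (Dec P) h hc hh
  obtain ⟨c, y, hc0, hy0, hy, hxy⟩ := hsq (s ^ 2) (pow_ne_zero 2 hs0) hs2
  refine ⟨c, hc0, ?_⟩
  intro σ hσ
  have h1 : (s / y) ^ 2 = sq c ^ 2 := by
    rw [div_pow, hxy, sq_sq]
    field_simp
  have hsqc : sq c ≠ 0 := by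
    intro h0
    have h2 := sq_sq c
    rw [h0] at h2
    have h3 : algebraMap k (Om k) c = 0 := by rw [← h2]; ring
    exact hc0 ((map_eq_zero _).1 h3)
  have hss : σ s = kse (h σ) * s := by
    rcases kse_cases (h σ) with h3 | h3
    · rw [h3, kse_zero, one_mul, (hs σ hσ).1 h3]
    · rw [h3, kse_one, neg_one_mul, (hs σ hσ).2 h3]
  have h4 : σ (s / y) = kse (h σ) * (s / y) := by
    rw [map_div₀, hss, hy σ hσ, mul_div_assoc]
  have h5 : σ (sq c) = kse (h σ) * sq c := by
    rcases sq_eq_sq_iff_eq_or_eq_neg.1 h1 with h6 | h6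
    · rw [← h6]; exact h4
    · have h7 : sq c = -(s / y) := by rw [h6, neg_neg]
      rw [h7, map_neg, h4]; ring
  rcases kse_cases (h σ) with h3 | h3
  · rw [h3, kse_zero, one_mul] at h5
    unfold chi
    rw [h3, if_pos h5]
  · rw [h3, kse_one, neg_one_mul] at h5
    unfold chi
    rw [h3, if_neg]
    intro h6
    rw [h6] at h5
    have h7 : (2 : Om k) * sq c = 0 := by
      calc (2 : Om k) * sq c = sq c + sq c := two_mul _
        _ = 0 := by nth_rewrite 1 [h5]; ring
    rcases mul_eq_zero.1 h7 with h8 | h8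
    · exact two_ne_zero h8
    · exact hsqc h8

end

end Pool.Agent.H98.MF
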