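import Pool.Agent.H98.MF.L.SqD
import Pool.Agent.H98.MF.L.KumB

/-!
# Project MK4, block L: Kummer theory for homomorphisms on a subgroup (kum_dec, file KumA) and on
the decomposition group
-/

set_option autoImplicit false

open scoped BigOperators Pointwise
open NumberField IsDedekindDomain

namespace Pool.Agent.H98.MF

section

variable {k : Type} [Field k] [NumberField k]

theorem dec_hom2 (P : HeightOneSpectrum (𝓞 k)) (h : Gm k → ZMod 2) (hc : IsLocallyConstant h)
    (hh : ∀ σ ∈ Dec P, ∀ τ ∈ Dec P, h (σ * τ) = h σ + h τ) :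
    ∃ c : k, c ≠ 0 ∧ ∀ σ ∈ Dec P, h σ = chi c σ :=
  dec_hom2_of P (fun _ hx hfix => fix_sqclass P hx hfix) h hc hh

end

end Pool.Agent.H98.MF
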